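import Mathlib
import Pool.Agent.Helper715.Sal2

set_option autoImplicit false

namespace Pool.Agent.H63R3.Sep

open Finset Pool.Agent.Helper715

/-- The nodes of the graph of the polytope spanned by `S`: the vertices, that is the points `x`
for which `{x}` is an exposed face. -/
def Node {d : ℕ} (S : Finset (EuclideanSpace ℝ (Fin d))) : Type :=
  {x : EuclideanSpace ℝ (Fin d) // IsExposed ℝ (convexHull ℝ (S : Set (EuclideanSpace ℝ (Fin d)))) {x}}

/-- `F` is an edge of the polytope spanned by `S`: an exposed face of dimension one. -/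
def IsEdge {d : ℕ} (S : Finset (EuclideanSpace ℝ (Fin d))) (F : Set (EuclideanSpace ℝ (Fin d))) :
    Prop :=
  IsExposed ℝ (convexHull ℝ (S : Set (EuclideanSpace ℝ (Fin d)))) F ∧
    Module.finrank ℝ (affineSpan ℝ F).direction = 1

/-- The graph of the polytope spanned by `S`: two different nodes are joined when they lie on a
common edge of the polytope. -/
def skel {d : ℕ} (S : Finset (EuclideanSpace ℝ (Fin d))) : SimpleGraph (Node S) where
  Adj x y := x ≠ y ∧ ∃ F, IsEdge S F ∧ x.1 ∈ F ∧ y.1 ∈ F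
  symm := ⟨by
    rintro x y ⟨h, F, h1, h2, h3⟩
    exact ⟨h.symm, F, h1, h3, h2⟩⟩
  loopless := ⟨fun x h => h.1 rfl⟩

/-- The polytope spanned by `S` is a simple `d`-polytope in `ℝ^d`. -/
def IsSimple {d : ℕ} (S : Finset (EuclideanSpace ℝ (Fin d))) : Prop :=
  affineSpan ℝ (S : Set (EuclideanSpace ℝ (Fin d))) = ⊤ ∧
    ∀ x : Node S, {F | IsEdge S F ∧ x.1 ∈ F}.ncard = d

/-- `N` is totally separated by `M` in the graph `G`. -/
def TotSep {V : Type} (G : SimpleGraph V) (M N : Finset V) : Prop :=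
  Disjoint M N ∧ ∀ A ∈ N, ∀ B ∈ N, A ≠ B → ∀ p : G.Walk A B, p.IsPath → ∃ v ∈ p.support, v ∈ M

section upper

variable {d : ℕ} {S : Finset (EuclideanSpace ℝ (Fin d))}
  {P : CP (WithLp 2 (EuclideanSpace ℝ (Fin d) × ℝ))}

/-- the closed set of a node -/
noncomputable def ph (P : CP (WithLp 2 (EuclideanSpace ℝ (Fin d) × ℝ))) (x : Node S) :
    Finset (WithLp 2 (EuclideanSpace ℝ (Fin d) × ℝ)) := toA P {x.1}

variable (hP : (P.V : Set (WithLp 2 (EuclideanSpace ℝ (Fin d) × ℝ))) = hm '' (S : Set (EuclideanSpace ℝ (Fin d))))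
include hP

theorem ph_inj : Function.Injective (ph P : Node S → _) := by
  intro x y h
  have h1 := toF_toA hP x.2 (Set.singleton_nonempty _)
  have h2 := toF_toA hP y.2 (Set.singleton_nonempty _)
  have h' : toA P {x.1} = toA P {y.1} := h
  rw [h', h2] at h1
  exact Subtype.ext (Set.singleton_injective h1.symm)

theorem ph_dm (x : Node S) : dm (ph P x) = 1 := by
  have h := dm_toA hP x.2 (Set.singleton_nonempty _)
  rw [ph, h, direction_affineSpan, vectorSpan_singleton]
  simp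

theorem ph_cl (x : Node S) : P.Cl (ph P x) := toA_cl hP x.2 (Set.singleton_nonempty _)

theorem ph_cov (x : Node S) : P.Cov P.bot P.V (ph P x) := by
  refine ⟨ph_cl hP x, CP.bot_le (ph_cl hP x), (ph_cl hP x).sub, ?_⟩
  rw [ph_dm hP, CP.dm_bot]

theorem ph_surj {X : Finset (WithLp 2 (EuclideanSpace ℝ (Fin d) × ℝ))}
    (hX : P.Cov P.bot P.V X) : ∃ x : Node S, ph P x = X := by
  have hcl := hX.cl
  have hd : dm X = 1 := by rw [hX.dim, CP.dm_bot]
  have hne : (toF P S X).Nonempty := toF_nonempty hP hcl (by omega)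
  have hex := toF_exposed (S := S) hP X
  have h1 := dm_toA hP hex hne
  rw [toA_toF hP hcl, hd] at h1
  have h2 : Module.finrank ℝ (affineSpan ℝ (toF P S X)).direction = 0 := by omega
  obtain ⟨x, hx⟩ := hne
  have h3 : toF P S X = {x} := by
    apply Set.eq_singleton_iff_unique_mem.2 ⟨hx, fun y hy => ?_⟩
    have h4 : (affineSpan ℝ (toF P S X)).direction = ⊥ := by
      exact Submodule.finrank_eq_zero.1 h2
    have h5 : y -ᵥ x ∈ (affineSpan ℝ (toF P S X)).direction :=
      AffineSubspace.vsub_mem_direction (mem_affineSpan ℝ hy) (mem_affineSpan ℝ hx)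
    rw [h4, Submodule.mem_bot, vsub_eq_sub, sub_eq_zero] at h5
    exact h5
  rw [h3] at hex
  refine ⟨⟨x, hex⟩, ?_⟩
  have h6 := toA_toF hP hcl
  rw [h3] at h6
  exact h6

theorem adj_of {x y : Node S} (hxy : x ≠ y) (h : P.Adj P.bot P.V (ph P x) (ph P y)) :
    (skel S).Adj x y := by
  obtain ⟨_, _, D, hD, h1, h2, _, h3⟩ := h
  rw [CP.dm_bot] at h3
  have hne : (toF P S D).Nonempty := toF_nonempty hP hD (by omega)
  have hex := toF_exposed (S := S) hP D
  have h4 := dm_toA hP hex hne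
  rw [toA_toF hP hD, h3] at h4
  refine ⟨hxy, toF P S D, ⟨hex, by omega⟩, ?_, ?_⟩
  · have := toF_mono (S := S) hP h1
    rw [ph, toF_toA hP x.2 (Set.singleton_nonempty _)] at this
    exact this rfl
  · have := toF_mono (S := S) hP h2
    rw [ph, toF_toA hP y.2 (Set.singleton_nonempty _)] at this
    exact this rfl

theorem node_fin : Finite (Node S) := by
  classical
  let f : Node S → P.V.powerset := fun x => ⟨ph P x, by
    rw [Finset.mem_powerset]
    exact (ph_cl hP x).sub⟩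
  exact Finite.of_injective f (fun x y h => ph_inj hP (congrArg Subtype.val h))

theorem boundary [DecidableEq (Node S)] (M : Finset (Node S)) (C : Set (Node S))
    (hC : ∀ x ∈ C, ∀ y, (skel S).Adj x y → y ∉ M → y ∈ C) {A B : Node S} (hA : A ∈ C)
    (hAM : A ∉ M) (hB : B ∉ C) (hBM : B ∉ M) (U0 : Finset (Node S)) (hU0M : U0 ⊆ M)
    (hU0 : ∀ m ∈ M, ∀ z ∈ C, (skel S).Adj m z → m ∈ U0) : d ≤ U0.card := by
  classical
  by_contra hlt
  push Not at hlt
  have hdim : dm P.V = dm P.bot + d + 1 := by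
    rw [CP.dm_top, CP.dm_bot, finrank_hm]
    simp
  have hU : (U0.image (ph P)).card + 1 ≤ d :=
    (Nat.add_le_add_right Finset.card_image_le 1).trans (by omega)
  have hAU : ph P A ∉ U0.image (ph P) := by
    intro h
    obtain ⟨m, hm1, hm2⟩ := Finset.mem_image.1 h
    exact hAM (ph_inj hP hm2 ▸ hU0M hm1)
  have hBU : ph P B ∉ U0.image (ph P) := by
    intro h
    obtain ⟨m, hm1, hm2⟩ := Finset.mem_image.1 h
    exact hBM (ph_inj hP hm2 ▸ hU0M hm1)
  have hbal := CP.balinski (P := P) CP.bot_cl CP.top_cl hdim (U0.image (ph P)) hU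
    (ph_cov hP A) (ph_cov hP B) hAU hBU
  obtain ⟨X, Y, ⟨hadj, hXU, hYU⟩, ⟨x, hxC, rfl⟩, hY⟩ := rtg_cross hbal (fun Z => ∃ x ∈ C, ph P x = Z)
    ⟨A, hA, rfl⟩ (by
      rintro ⟨x, hx, h⟩
      exact hB (ph_inj hP h ▸ hx))
  obtain ⟨y, rfl⟩ := ph_surj hP hadj.2.1
  have hyC : y ∉ C := fun h => hY ⟨y, h, rfl⟩
  have hxy : x ≠ y := by
    rintro rfl
    exact hyC hxC
  have hadj' := adj_of hP hxy hadj
  by_cases hyM : y ∈ M
  · exact hYU (Finset.mem_image_of_mem _ (hU0 y hyM x hxC hadj'.symm))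
  · exact hyC (hC x hxC y hadj' hyM)

theorem deg_le [Fintype (Node S)] [DecidableEq (Node S)] [DecidableRel (skel S).Adj] (m : Node S) :
    (Finset.univ.filter (fun z => (skel S).Adj m z)).card ≤ {F | IsEdge S F ∧ m.1 ∈ F}.ncard := by
  classical
  have hfin : {F | IsEdge S F ∧ m.1 ∈ F}.Finite := by
    have hinj : Set.InjOn (fun F : Set (EuclideanSpace ℝ (Fin d)) => toA P F)
        {F | IsEdge S F ∧ m.1 ∈ F} := by
      intro F hF F' hF' h
      have h1 := toF_toA hP hF.1.1 ⟨_, hF.2⟩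
      have h2 := toF_toA hP hF'.1.1 ⟨_, hF'.2⟩
      have h' : toA P F = toA P F' := h
      rw [← h1, h', h2]
    apply Set.Finite.of_finite_image _ hinj
    apply Set.Finite.subset (P.V.powerset.finite_toSet)
    rintro _ ⟨F, hF, rfl⟩
    rw [Finset.mem_coe, Finset.mem_powerset]
    exact (toA_cl hP hF.1.1 ⟨_, hF.2⟩).sub
  have hch : ∀ z : Node S, ∃ F, (skel S).Adj m z → IsEdge S F ∧ m.1 ∈ F ∧ z.1 ∈ F := by
    intro z
    by_cases h : (skel S).Adj m z
    · obtain ⟨F, h1, h2, h3⟩ := h.2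
      exact ⟨F, fun _ => ⟨h1, h2, h3⟩⟩
    · exact ⟨∅, fun h' => absurd h' h⟩
  choose e he using hch
  rw [← Set.ncard_coe_finset]
  apply Set.ncard_le_ncard_of_injOn e _ _ hfin
  · intro z hz
    rw [Finset.mem_coe, Finset.mem_filter] at hz
    exact ⟨(he z hz.2).1, (he z hz.2).2.1⟩
  · intro z hz z' hz' h
    rw [Finset.mem_coe, Finset.mem_filter] at hz hz'
    obtain ⟨h1, h2, h3⟩ := he z hz.2
    obtain ⟨_, _, h3'⟩ := he z' hz'.2
    rw [← h] at h3'
    have hdm : dm (toA P (e z)) = 2 := by rw [dm_toA hP h1.1 ⟨_, h2⟩, h1.2]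
    obtain ⟨a, b, _, hab⟩ := CP.two_nodes (P := P) ⟨toA P (e z), toA_cl hP h1.1 ⟨_, h2⟩, hdm⟩
    have key : ∀ y : Node S, y.1 ∈ e z → (⟨ph P y, ph_cl hP y, ph_dm hP y⟩ : P.Lev 1) = a ∨
        (⟨ph P y, ph_cl hP y, ph_dm hP y⟩ : P.Lev 1) = b := by
      intro y hy
      apply (hab _).1
      change ph P y ⊆ toA P (e z)
      exact toA_mono hP (Set.singleton_subset_iff.2 hy)
    have hne : ∀ y y' : Node S, (⟨ph P y, ph_cl hP y, ph_dm hP y⟩ : P.Lev 1) =
        (⟨ph P y', ph_cl hP y', ph_dm hP y'⟩ : P.Lev 1) → y = y' := by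
      intro y y' h
      exact ph_inj hP (congrArg Subtype.val h)
    rcases key m h2 with hm' | hm' <;> rcases key z h3 with hz1 | hz1 <;>
      rcases key z' h3' with hz1' | hz1'
    · exact absurd (hne _ _ (hm'.trans hz1.symm)) hz.2.1
    · exact absurd (hne _ _ (hm'.trans hz1.symm)) hz.2.1
    · exact absurd (hne _ _ (hm'.trans hz1'.symm)) hz'.2.1
    · exact hne _ _ (hz1.trans hz1'.symm)
    · exact hne _ _ (hz1.trans hz1'.symm)
    · exact absurd (hne _ _ (hm'.trans hz1'.symm)) hz'.2.1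
    · exact absurd (hne _ _ (hm'.trans hz1.symm)) hz.2.1
    · exact absurd (hne _ _ (hm'.trans hz1.symm)) hz.2.1

end upper

theorem upper_bound {d : ℕ} (hd : 1 ≤ d) (S : Finset (EuclideanSpace ℝ (Fin d))) (hS : IsSimple S)
    (M N : Finset (Node S)) (hM : 1 ≤ M.card) (h : TotSep (skel S) M N) : N.card ≤ M.card := by
  classical
  obtain ⟨P, hP⟩ := exists_CP S hS.1
  have hfinN := node_fin hP
  have : Fintype (Node S) := Fintype.ofFinite _
  rcases Nat.lt_or_ge N.card 2 with h2 | h2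
  · omega
  let C : Node S → Set (Node S) := fun A => {z | ∃ p : (skel S).Walk A z, ∀ v ∈ p.support, v ∉ M}
  have hCM : ∀ A, ∀ z ∈ C A, z ∉ M := by
    rintro A z ⟨p, hp⟩
    exact hp z p.end_mem_support
  have hCA : ∀ A ∈ N, A ∈ C A := by
    intro A hA
    refine ⟨SimpleGraph.Walk.nil, ?_⟩
    intro v hv
    rw [SimpleGraph.Walk.support_nil, List.mem_singleton] at hv
    rw [hv]
    exact Finset.disjoint_right.1 h.1 hA
  have hCcl : ∀ A, ∀ x ∈ C A, ∀ y, (skel S).Adj x y → y ∉ M → y ∈ C A := by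
    rintro A x ⟨p, hp⟩ y hxy hyM
    refine ⟨p.concat hxy, ?_⟩
    intro v hv
    rw [SimpleGraph.Walk.support_concat, List.mem_append, List.mem_singleton] at hv
    rcases hv with hv | hv
    · exact hp v hv
    · rw [hv]; exact hyM
  have hCdisj : ∀ A ∈ N, ∀ B ∈ N, A ≠ B → ∀ z, z ∈ C A → z ∈ C B → False := by
    rintro A hA B hB hAB z ⟨p, hp⟩ ⟨q, hq⟩
    obtain ⟨v, hv1, hv2⟩ := h.2 A hA B hB hAB (p.append q.reverse).bypass
      (SimpleGraph.Walk.bypass_isPath _)
    have hv3 := SimpleGraph.Walk.support_bypass_subset_support _ hv1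
    rw [SimpleGraph.Walk.mem_support_append_iff, SimpleGraph.Walk.support_reverse,
      List.mem_reverse] at hv3
    rcases hv3 with hv3 | hv3
    · exact hp v hv3 hv2
    · exact hq v hv3 hv2
  let T : Node S → Finset (Node S × Node S) := fun A =>
    (M ×ˢ (Finset.univ : Finset (Node S))).filter (fun q => q.2 ∈ C A ∧ (skel S).Adj q.1 q.2)
  have hT : ∀ A ∈ N, d ≤ (T A).card := by
    intro A hA
    obtain ⟨B, hB, hBA⟩ : ∃ B ∈ N, B ≠ A := by
      obtain ⟨B, hB, hne⟩ := Finset.exists_mem_ne (by omega : 1 < N.card) A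
      exact ⟨B, hB, hne⟩
    have hb := boundary hP M (C A) (hCcl A) (hCA A hA) (Finset.disjoint_right.1 h.1 hA)
      (B := B) (fun hBC => hCdisj A hA B hB hBA.symm B hBC (hCA B hB))
      (Finset.disjoint_right.1 h.1 hB)
      (M.filter (fun m => ∃ z ∈ C A, (skel S).Adj m z)) (Finset.filter_subset _ _)
      (fun m hm z hz hadj => Finset.mem_filter.2 ⟨hm, z, hz, hadj⟩)
    refine hb.trans ?_
    have himg : M.filter (fun m => ∃ z ∈ C A, (skel S).Adj m z) ⊆ (T A).image Prod.fst := by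
      intro m hm
      obtain ⟨hm1, z, hz, hadj⟩ := Finset.mem_filter.1 hm
      refine Finset.mem_image.2 ⟨(m, z), ?_, rfl⟩
      exact Finset.mem_filter.2 ⟨Finset.mem_product.2 ⟨hm1, Finset.mem_univ _⟩, hz, hadj⟩
    exact (Finset.card_le_card himg).trans Finset.card_image_le
  have hsum : N.card * d ≤ ∑ A ∈ N, (T A).card := by
    rw [← smul_eq_mul]
    exact Finset.card_nsmul_le_sum N _ d hT
  have hbU : ∑ A ∈ N, (T A).card = (N.biUnion T).card := by
    rw [Finset.card_biUnion]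
    intro A hA B hB hAB
    apply Finset.disjoint_left.2
    intro q hq hq'
    exact hCdisj A hA B hB hAB q.2 (Finset.mem_filter.1 hq).2.1 (Finset.mem_filter.1 hq').2.1
  have hle : (N.biUnion T).card ≤ M.card * d := by
    have hsub : N.biUnion T ⊆ M.biUnion (fun m =>
        (Finset.univ.filter (fun z => (skel S).Adj m z)).image (fun z => (m, z))) := by
      intro q hq
      obtain ⟨A, hA, hqA⟩ := Finset.mem_biUnion.1 hq
      have h1 := Finset.mem_filter.1 hqA
      refine Finset.mem_biUnion.2 ⟨q.1, (Finset.mem_product.1 h1.1).1, ?_⟩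
      exact Finset.mem_image.2 ⟨q.2, Finset.mem_filter.2 ⟨Finset.mem_univ _, h1.2.2⟩, rfl⟩
    refine (Finset.card_le_card hsub).trans (Finset.card_biUnion_le_card_mul _ _ _ ?_)
    intro m hm
    refine Finset.card_image_le.trans ?_
    have := deg_le hP m
    rwa [hS.2 m] at this
  have hfin : N.card * d ≤ M.card * d := by
    calc N.card * d ≤ ∑ A ∈ N, (T A).card := hsum
      _ = _ := hbU
      _ ≤ _ := hle
  exact Nat.le_of_mul_le_mul_right hfin (by omega)

end Pool.Agent.H63R3.Sep
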