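import Mathlib
import Pool.Agent.H63R3.Sep1

set_option autoImplicit false

namespace Pool.Agent.H63R3.Sep

open Finset Pool.Agent.Helper715

section gen

variable {d : ℕ} {S : Finset (EuclideanSpace ℝ (Fin d))}
  {P : CP (WithLp 2 (EuclideanSpace ℝ (Fin d) × ℝ))}

variable (hP : (P.V : Set (WithLp 2 (EuclideanSpace ℝ (Fin d) × ℝ))) = hm '' (S : Set (EuclideanSpace ℝ (Fin d))))
include hP

theorem toA_injOn (x : EuclideanSpace ℝ (Fin d)) :
    Set.InjOn (fun F : Set (EuclideanSpace ℝ (Fin d)) => toA P F) {F | IsEdge S F ∧ x ∈ F} := by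
  intro F hF F' hF' h
  have h1 := toF_toA hP hF.1.1 ⟨_, hF.2⟩
  have h2 := toF_toA hP hF'.1.1 ⟨_, hF'.2⟩
  have h' : toA P F = toA P F' := h
  rw [← h1, h', h2]

theorem edges_fin (x : EuclideanSpace ℝ (Fin d)) : {F | IsEdge S F ∧ x ∈ F}.Finite := by
  apply Set.Finite.of_finite_image _ (toA_injOn hP x)
  apply Set.Finite.subset (P.V.powerset.finite_toSet)
  rintro _ ⟨F, hF, rfl⟩
  rw [Finset.mem_coe, Finset.mem_powerset]
  exact (toA_cl hP hF.1.1 ⟨_, hF.2⟩).sub

theorem deg_ge (x : Node S) : d ≤ {F | IsEdge S F ∧ x.1 ∈ F}.ncard := by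
  classical
  by_contra hlt
  push Not at hlt
  have hfin := edges_fin hP x.1
  set U := hfin.toFinset with hU
  have hUc : U.card < d := by
    rw [hU, ← Set.ncard_eq_toFinset_card _ hfin]
    exact hlt
  have hmemU : ∀ F, F ∈ U ↔ IsEdge S F ∧ x.1 ∈ F := by
    intro F
    rw [hU, Set.Finite.mem_toFinset]
    rfl
  have hsub : ∀ F, x.1 ∈ F → ph P x ⊆ toA P F := fun F hF =>
    toA_mono hP (Set.singleton_subset_iff.2 hF)
  have hz : ∀ F, ∃ z, F ∈ U → z ∈ toA P F ∧ z ∉ ph P x := by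
    intro F
    by_cases hF : F ∈ U
    · obtain ⟨h1, h2⟩ := (hmemU F).1 hF
      have hdm : dm (toA P F) = 2 := by rw [dm_toA hP h1.1 ⟨_, h2⟩, h1.2]
      obtain ⟨z, hz1, hz2⟩ := CP.exists_not_mem (ph_cl hP x) (toA_cl hP h1.1 ⟨_, h2⟩) (hsub F h2)
        (by rw [ph_dm hP, hdm]; omega)
      exact ⟨z, fun _ => ⟨hz1, hz2⟩⟩
    · exact ⟨0, fun h => absurd h hF⟩
  choose z hz using hz
  set K := Submodule.span ℝ ((ph P x : Finset _) : Set (WithLp 2 (EuclideanSpace ℝ (Fin d) × ℝ))) ⊔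
    Submodule.span ℝ ((U.image z : Finset _) : Set (WithLp 2 (EuclideanSpace ℝ (Fin d) × ℝ))) with hK
  have hKd : Module.finrank ℝ K < Module.finrank ℝ (WithLp 2 (EuclideanSpace ℝ (Fin d) × ℝ)) := by
    have h1 := Submodule.finrank_add_le_finrank_add_finrank
      (Submodule.span ℝ ((ph P x : Finset _) : Set (WithLp 2 (EuclideanSpace ℝ (Fin d) × ℝ))))
      (Submodule.span ℝ ((U.image z : Finset _) : Set (WithLp 2 (EuclideanSpace ℝ (Fin d) × ℝ))))
    have h2 : Module.finrank ℝ (Submodule.span ℝ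
      ((ph P x : Finset _) : Set (WithLp 2 (EuclideanSpace ℝ (Fin d) × ℝ)))) = 1 := ph_dm hP x
    have h3 := finrank_span_finset_le_card (R := ℝ) (U.image z)
    have h4 : (U.image z).card ≤ U.card := Finset.card_image_le
    have h5 : Module.finrank ℝ (WithLp 2 (EuclideanSpace ℝ (Fin d) × ℝ)) = d + 1 := by
      rw [finrank_hm]; simp
    rw [h5]
    unfold Set.finrank at h3
    rw [← hK] at h1
    omega
  obtain ⟨y, hy0, hy⟩ := CP.exists_orth K hKd
  have hmain : ∀ y : WithLp 2 (EuclideanSpace ℝ (Fin d) × ℝ), (∀ k ∈ K, inner ℝ y k = 0) →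
      ¬ ∃ v ∈ P.V, 0 < inner ℝ y v := by
    intro y hy hpos
    obtain ⟨D, hD, h1, h2, h3, c, hc, hcpos⟩ := CP.cover_up (ph_cl hP x) (CP.top_cl (P := P))
      (ph_cl hP x).sub (y := y)
      (fun a ha => hy a (Submodule.mem_sup_left (Submodule.subset_span ha))) hpos
    rw [ph_dm hP] at h3
    have hne : (toF P S D).Nonempty := toF_nonempty hP hD (by omega)
    have hex := toF_exposed (S := S) hP D
    have h4 := dm_toA hP hex hne
    rw [toA_toF hP hD, h3] at h4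
    have hxD : x.1 ∈ toF P S D := by
      have := toF_mono (S := S) hP h1
      rw [ph, toF_toA hP x.2 (Set.singleton_nonempty _)] at this
      exact this rfl
    have hDU : toF P S D ∈ U := (hmemU _).2 ⟨⟨hex, by omega⟩, hxD⟩
    obtain ⟨hz1, hz2⟩ := hz _ hDU
    have hz1' : z (toF P S D) ∈ D := by
      have := toA_toF (S := S) hP hD
      rwa [this] at hz1
    have hspan := CP.span_cover (ph_cl hP x) hD h1 (by rw [ph_dm hP, h3]) hz1' hz2
    have hcK : c ∈ K := by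
      have hc' : c ∈ Submodule.span ℝ (D : Set (WithLp 2 (EuclideanSpace ℝ (Fin d) × ℝ))) :=
        Submodule.subset_span hc
      rw [← hspan] at hc'
      have hle : Submodule.span ℝ (insert (z (toF P S D))
          ((ph P x : Finset _) : Set (WithLp 2 (EuclideanSpace ℝ (Fin d) × ℝ)))) ≤ K := by
        rw [Submodule.span_le]
        intro w hw
        rcases hw with rfl | hw
        · apply Submodule.mem_sup_right
          apply Submodule.subset_span
          rw [Finset.mem_coe]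
          exact Finset.mem_image_of_mem z hDU
        · exact Submodule.mem_sup_left (Submodule.subset_span hw)
      exact hle hc'
    rw [hy c hcK] at hcpos
    exact lt_irrefl _ hcpos
  obtain ⟨v, hv, hv0⟩ := CP.exists_ne_zero (P := P) hy0
  rcases lt_or_gt_of_ne hv0 with h | h
  · apply hmain (-y) (fun k hk => by rw [inner_neg_left, hy k hk, neg_zero])
    exact ⟨v, hv, by rw [inner_neg_left]; linarith⟩
  · exact hmain y hy ⟨v, hv, h⟩

/-- edges through a node are told apart by their other vertices -/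
theorem edge_unique (x : Node S) {F F' : Set (EuclideanSpace ℝ (Fin d))} (hF : IsEdge S F)
    (hF' : IsEdge S F') (hx : x.1 ∈ F) (hx' : x.1 ∈ F') {y : EuclideanSpace ℝ (Fin d)} (hy : y ∈ S)
    (hyx : y ≠ x.1) (hyF : y ∈ F) (hyF' : y ∈ F') : F = F' := by
  have hdm : dm (toA P F) = 2 := by rw [dm_toA hP hF.1 ⟨_, hx⟩, hF.2]
  have hdm' : dm (toA P F') = 2 := by rw [dm_toA hP hF'.1 ⟨_, hx'⟩, hF'.2]
  have h := CP.cover_eq (ph_cl hP x) (toA_cl hP hF.1 ⟨_, hx⟩) (toA_cl hP hF'.1 ⟨_, hx'⟩)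
    (toA_mono hP (Set.singleton_subset_iff.2 hx)) (toA_mono hP (Set.singleton_subset_iff.2 hx'))
    (by rw [hdm, ph_dm hP]) (by rw [hdm', ph_dm hP]) (c := hm y)
    (mem_toA.2 ⟨(hm_mem_V hP).2 hy, y, hyF, rfl⟩)
    (by
      intro h
      obtain ⟨_, w, hw, hwy⟩ := mem_toA.1 h
      rw [Set.mem_singleton_iff] at hw
      rw [hw] at hwy
      exact hyx (hm_inj hwy).symm)
    (mem_toA.2 ⟨(hm_mem_V hP).2 hy, y, hyF', rfl⟩)
  exact toA_injOn hP x.1 ⟨hF, hx⟩ ⟨hF', hx'⟩ h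

/-- an edge through a node contains another point of `S` -/
theorem edge_other (x : Node S) {F : Set (EuclideanSpace ℝ (Fin d))} (hF : IsEdge S F)
    (hx : x.1 ∈ F) : ∃ y ∈ S, y ∈ F ∧ y ≠ x.1 := by
  have hdm : dm (toA P F) = 2 := by rw [dm_toA hP hF.1 ⟨_, hx⟩, hF.2]
  obtain ⟨z, hz1, hz2⟩ := CP.exists_not_mem (ph_cl hP x) (toA_cl hP hF.1 ⟨_, hx⟩)
    (toA_mono hP (Set.singleton_subset_iff.2 hx)) (by rw [ph_dm hP, hdm]; omega)
  obtain ⟨hz3, y, hy, rfl⟩ := mem_toA.1 hz1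
  refine ⟨y, (hm_mem_V hP).1 hz3, hy, ?_⟩
  rintro rfl
  exact hz2 (mem_toA.2 ⟨hz3, x.1, rfl, rfl⟩)

/-- if all edges through the node lead to `d` listed points, there are exactly `d` of them -/
theorem deg_eq (x : Node S) (nb : Finset (EuclideanSpace ℝ (Fin d))) (hnb : nb.card ≤ d)
    (h : ∀ F, IsEdge S F → x.1 ∈ F → ∀ y ∈ S, y ∈ F → y ≠ x.1 → y ∈ nb) :
    {F | IsEdge S F ∧ x.1 ∈ F}.ncard = d := by
  classical
  apply le_antisymm _ (deg_ge hP x)
  have hch : ∀ F, ∃ y, IsEdge S F ∧ x.1 ∈ F → y ∈ S ∧ y ∈ F ∧ y ≠ x.1 := by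
    intro F
    by_cases hF : IsEdge S F ∧ x.1 ∈ F
    · obtain ⟨y, h1, h2, h3⟩ := edge_other hP x hF.1 hF.2
      exact ⟨y, fun _ => ⟨h1, h2, h3⟩⟩
    · exact ⟨0, fun h' => absurd h' hF⟩
  choose e he using hch
  refine le_trans ?_ hnb
  rw [← Set.ncard_coe_finset]
  apply Set.ncard_le_ncard_of_injOn e _ _ (Finset.finite_toSet nb)
  · intro F hF
    obtain ⟨h1, h2, h3⟩ := he F hF
    exact h F hF.1 hF.2 _ h1 h2 h3
  · intro F hF F' hF' heq
    obtain ⟨h1, h2, h3⟩ := he F hF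
    obtain ⟨h1', h2', h3'⟩ := he F' hF'
    rw [← heq] at h2'
    exact edge_unique hP x hF.1 hF'.1 hF.2 hF'.2 h1 h3 h2 h2'

end gen

theorem mix_mem {E : Type*} [NormedAddCommGroup E] [NormedSpace ℝ E] {C F : Set E}
    (hF : IsExposed ℝ C F) {x y u w : E} (hx : x ∈ F) (hy : y ∈ F) (hu : u ∈ C) (hw : w ∈ C)
    (h : u + w = x + y) : u ∈ F := by
  obtain ⟨l, hl⟩ := hF ⟨x, hx⟩
  rw [hl] at hx hy ⊢
  refine ⟨hu, fun z hz => ?_⟩
  have h1 : l u + l w = l x + l y := by rw [← map_add, h, map_add]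
  have h2 := hx.2 z hz
  have h3 := hy.2 w hw
  linarith

theorem det_zero {d : ℕ} {F : Set (EuclideanSpace ℝ (Fin d))}
    (h1 : Module.finrank ℝ (affineSpan ℝ F).direction = 1) {x y z : EuclideanSpace ℝ (Fin d)}
    (hx : x ∈ F) (hy : y ∈ F) (hz : z ∈ F) (p q : Fin d) :
    (y p - x p) * (z q - x q) = (y q - x q) * (z p - x p) := by
  have h1' : Module.finrank ℝ (affineSpan ℝ F).direction ≤ 1 := by rw [h1]
  obtain ⟨v, hv⟩ := (finrank_le_one_iff (K := ℝ) (V := (affineSpan ℝ F).direction)).1 h1'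
  have hyd : y -ᵥ x ∈ (affineSpan ℝ F).direction :=
    AffineSubspace.vsub_mem_direction (mem_affineSpan ℝ hy) (mem_affineSpan ℝ hx)
  have hzd : z -ᵥ x ∈ (affineSpan ℝ F).direction :=
    AffineSubspace.vsub_mem_direction (mem_affineSpan ℝ hz) (mem_affineSpan ℝ hx)
  obtain ⟨a, ha⟩ := hv ⟨y -ᵥ x, hyd⟩
  obtain ⟨b, hb⟩ := hv ⟨z -ᵥ x, hzd⟩
  have ha' : a • (v : EuclideanSpace ℝ (Fin d)) = y - x := congrArg Subtype.val ha
  have hb' : b • (v : EuclideanSpace ℝ (Fin d)) = z - x := congrArg Subtype.val hb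
  have e1 : ∀ r, y r - x r = a * (v : EuclideanSpace ℝ (Fin d)) r := by
    intro r
    have := congrArg (fun w : EuclideanSpace ℝ (Fin d) => w r) ha'
    simpa using this.symm
  have e2 : ∀ r, z r - x r = b * (v : EuclideanSpace ℝ (Fin d)) r := by
    intro r
    have := congrArg (fun w : EuclideanSpace ℝ (Fin d) => w r) hb'
    simpa using this.symm
  rw [e1, e1, e2, e2]
  ring

theorem exposed_singleton {E : Type*} [NormedAddCommGroup E] [InnerProductSpace ℝ E]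
    [FiniteDimensional ℝ E] (T : Finset E) (l : StrongDual ℝ E) {x : E} (hx : x ∈ T)
    (h : ∀ y ∈ T, y ≠ x → l y < l x) : IsExposed ℝ (convexHull ℝ (T : Set E)) {x} := by
  have hmax : ∀ y ∈ convexHull ℝ (T : Set E), l y ≤ l x := by
    intro y hy
    have hsub : convexHull ℝ (T : Set E) ⊆ {w | l w ≤ l x} := by
      apply convexHull_min
      · intro w hw
        by_cases hwx : w = x
        · show l w ≤ l x
          rw [hwx]
        · exact (h w hw hwx).le
      · have hlin : IsLinearMap ℝ (fun w : E => l w) := ⟨fun a b => map_add l a b, fun c a => by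
          simp⟩
        exact convex_halfSpace_le hlin (l x)
    exact hsub hy
  have hF : IsExposed ℝ (convexHull ℝ (T : Set E))
      {w | w ∈ convexHull ℝ (T : Set E) ∧ ∀ y ∈ convexHull ℝ (T : Set E), l y ≤ l w} :=
    fun _ => ⟨l, rfl⟩
  have hxF : x ∈ {w | w ∈ convexHull ℝ (T : Set E) ∧ ∀ y ∈ convexHull ℝ (T : Set E), l y ≤ l w} :=
    ⟨subset_convexHull ℝ _ hx, hmax⟩
  have heq := exposed_eq_hull hF
  have hint : (T : Set E) ∩
      {w | w ∈ convexHull ℝ (T : Set E) ∧ ∀ y ∈ convexHull ℝ (T : Set E), l y ≤ l w} = {x} := by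
    apply Set.eq_singleton_iff_unique_mem.2
    refine ⟨⟨hx, hxF⟩, ?_⟩
    rintro w ⟨hw1, hw2⟩
    by_contra hne
    have := h w hw1 hne
    have h2 := hw2.2 x hxF.1
    linarith
  rw [hint, convexHull_singleton] at heq
  rwa [heq] at hF

end Pool.Agent.H63R3.Sep
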