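import Mathlib
import Pool.Agent.H63R3.Sep2

set_option autoImplicit false

namespace Pool.Agent.H63R3.Sep

open Finset Pool.Agent.Helper715

/-- the vertices of the product of a polygon and a cube -/
noncomputable def pt {m : ℕ} (i : ℕ) (ε : Fin m → Bool) : EuclideanSpace ℝ (Fin (m + 2)) :=
  WithLp.toLp 2 (Fin.cons (i : ℝ) (Fin.cons ((i : ℝ) ^ 2) (fun j => if ε j then (1 : ℝ) else 0)))

theorem pt_zero {m : ℕ} (i : ℕ) (ε : Fin m → Bool) : pt i ε 0 = (i : ℝ) := rfl

theorem pt_one {m : ℕ} (i : ℕ) (ε : Fin m → Bool) : pt i ε (Fin.succ 0) = (i : ℝ) ^ 2 := rfl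

theorem pt_succ {m : ℕ} (i : ℕ) (ε : Fin m → Bool) (j : Fin m) :
    pt i ε j.succ.succ = if ε j then (1 : ℝ) else 0 := rfl

theorem ext_pt {m : ℕ} {x y : EuclideanSpace ℝ (Fin (m + 2))} (h0 : x 0 = y 0)
    (h1 : x (Fin.succ 0) = y (Fin.succ 0)) (h2 : ∀ j : Fin m, x j.succ.succ = y j.succ.succ) :
    x = y := by
  ext p
  refine Fin.cases ?_ ?_ p
  · exact h0
  · intro q
    refine Fin.cases ?_ ?_ q
    · exact h1
    · exact h2

theorem ite_inj {a b : Bool} (h : (if a then (1 : ℝ) else 0) = if b then (1 : ℝ) else 0) :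
    a = b := by
  cases a <;> cases b <;> simp at h ⊢

theorem pt_inj {m : ℕ} {i i' : ℕ} {ε ε' : Fin m → Bool} (h : pt i ε = pt i' ε') :
    i = i' ∧ ε = ε' := by
  constructor
  · have := congrArg (fun w : EuclideanSpace ℝ (Fin (m + 2)) => w 0) h
    simp only [pt_zero] at this
    exact_mod_cast this
  · funext j
    have := congrArg (fun w : EuclideanSpace ℝ (Fin (m + 2)) => w j.succ.succ) h
    simp only [pt_succ] at this
    exact ite_inj this

open scoped Classical in
/-- the vertex set of the product of a `k`-gon and the `m`-cube -/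
noncomputable def SS (m k : ℕ) : Finset (EuclideanSpace ℝ (Fin (m + 2))) :=
  (Finset.univ : Finset (Fin k × (Fin m → Bool))).image (fun p => pt p.1 p.2)

theorem mem_SS {m k : ℕ} {x : EuclideanSpace ℝ (Fin (m + 2))} :
    x ∈ SS m k ↔ ∃ i < k, ∃ ε, pt i ε = x := by
  classical
  rw [SS, Finset.mem_image]
  constructor
  · rintro ⟨⟨i, ε⟩, _, rfl⟩
    exact ⟨i, i.2, ε, rfl⟩
  · rintro ⟨i, hi, ε, rfl⟩
    exact ⟨(⟨i, hi⟩, ε), Finset.mem_univ _, rfl⟩

theorem pt_mem {m k : ℕ} {i : ℕ} (hi : i < k) (ε : Fin m → Bool) : pt i ε ∈ SS m k :=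
  mem_SS.2 ⟨i, hi, ε, rfl⟩

theorem pt_hull {m k : ℕ} {i : ℕ} (hi : i < k) (ε : Fin m → Bool) :
    pt i ε ∈ convexHull ℝ ((SS m k : Finset _) : Set (EuclideanSpace ℝ (Fin (m + 2)))) :=
  subset_convexHull ℝ _ (pt_mem hi ε)

theorem pt_exposed {m k : ℕ} {i : ℕ} (hi : i < k) (ε : Fin m → Bool) :
    IsExposed ℝ (convexHull ℝ ((SS m k : Finset _) : Set (EuclideanSpace ℝ (Fin (m + 2)))))
      {pt i ε} := by
  let c : Fin (m + 2) → ℝ := Fin.cons (2 * (i : ℝ)) (Fin.cons (-1) (fun j => if ε j then 1 else -1))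
  let l : StrongDual ℝ (EuclideanSpace ℝ (Fin (m + 2))) :=
    ∑ p, c p • (EuclideanSpace.proj p : EuclideanSpace ℝ (Fin (m + 2)) →L[ℝ] ℝ)
  have hl : ∀ (i' : ℕ) (ε' : Fin m → Bool), l (pt i' ε') = 2 * i * i' - (i' : ℝ) ^ 2 +
      ∑ j, (if ε j then (1 : ℝ) else -1) * (if ε' j then 1 else 0) := by
    intro i' ε'
    have h1 : l (pt i' ε') = ∑ p, c p * (pt i' ε') p := by
      simp [l]
    rw [h1, Fin.sum_univ_succ, Fin.sum_univ_succ]
    have h2 : ∑ j : Fin m, c j.succ.succ * (pt i' ε') j.succ.succ =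
        ∑ j, (if ε j then (1 : ℝ) else -1) * (if ε' j then 1 else 0) := by
      apply Finset.sum_congr rfl
      intro j _
      rw [pt_succ]
      rfl
    rw [h2, pt_zero, pt_one]
    have h3 : c 0 = 2 * (i : ℝ) := rfl
    have h4 : c (Fin.succ 0) = -1 := rfl
    rw [h3, h4]
    ring
  apply exposed_singleton _ l (pt_mem hi ε)
  intro y hy hne
  obtain ⟨i', hi', ε', rfl⟩ := mem_SS.1 hy
  rw [hl, hl]
  have hterm : ∀ j : Fin m, (if ε j then (1 : ℝ) else -1) * (if ε' j then 1 else 0) ≤
      (if ε j then (1 : ℝ) else -1) * (if ε j then 1 else 0) := by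
    intro j
    cases ε j <;> cases ε' j <;> simp
  by_cases hii : i' = i
  · subst hii
    have hex : ∃ j, ε j ≠ ε' j := by
      by_contra hcon
      push Not at hcon
      exact hne (by rw [funext hcon])
    obtain ⟨j, hj⟩ := hex
    have hlt : ∑ j, (if ε j then (1 : ℝ) else -1) * (if ε' j then 1 else 0) <
        ∑ j, (if ε j then (1 : ℝ) else -1) * (if ε j then 1 else 0) := by
      apply Finset.sum_lt_sum (fun j _ => hterm j)
      refine ⟨j, Finset.mem_univ _, ?_⟩
      revert hj
      cases ε j <;> cases ε' j <;> simp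
    linarith
  · have hle : ∑ j, (if ε j then (1 : ℝ) else -1) * (if ε' j then 1 else 0) ≤
        ∑ j, (if ε j then (1 : ℝ) else -1) * (if ε j then 1 else 0) :=
      Finset.sum_le_sum (fun j _ => hterm j)
    have hpos : 0 < ((i : ℝ) - i') ^ 2 := by
      have : (i : ℝ) - i' ≠ 0 := by
        intro h
        apply hii
        have : (i : ℝ) = i' := by linarith
        exact_mod_cast this.symm
      positivity
    nlinarith

/-- the node of the product polytope with given index -/
noncomputable def nd {m k : ℕ} (i : ℕ) (hi : i < k) (ε : Fin m → Bool) : Node (SS m k) :=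
  ⟨pt i ε, pt_exposed hi ε⟩

theorem nd_inj {m k : ℕ} {i i' : ℕ} {hi : i < k} {hi' : i' < k} {ε ε' : Fin m → Bool}
    (h : nd i hi ε = nd i' hi' ε') : i = i' ∧ ε = ε' :=
  pt_inj (congrArg Subtype.val h)

theorem node_mem {m k : ℕ} (x : Node (SS m k)) : ∃ i, ∃ hi : i < k, ∃ ε, x = nd i hi ε := by
  have h := exposed_eq_hull x.2
  have hne : ((SS m k : Finset _) : Set (EuclideanSpace ℝ (Fin (m + 2)))) ∩ {x.1} ≠ ∅ := by
    intro h0
    rw [h0, convexHull_empty] at h
    exact Set.singleton_ne_empty _ h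
  obtain ⟨y, hy1, hy2⟩ := Set.nonempty_iff_ne_empty.2 hne
  rw [Set.mem_singleton_iff] at hy2
  rw [hy2] at hy1
  obtain ⟨i, hi, ε, h3⟩ := mem_SS.1 hy1
  exact ⟨i, hi, ε, Subtype.ext h3.symm⟩

/-- two polygon vertices on a common edge are neighbours on the polygon -/
theorem poly_adj {m k : ℕ} {F : Set (EuclideanSpace ℝ (Fin (m + 2)))} (hF : IsEdge (SS m k) F)
    {i i' : ℕ} (hii : i < i') (hi' : i' < k) (ε : Fin m → Bool) (hx : pt i ε ∈ F)
    (hy : pt i' ε ∈ F) : i' = i + 1 ∨ (i = 0 ∧ i' = k - 1) := by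
  by_contra hcon
  push Not at hcon
  obtain ⟨hc1, hc2⟩ := hcon
  have hFe := hF.1
  obtain ⟨l, hl⟩ := hF.1 ⟨_, hx⟩
  set e0 : EuclideanSpace ℝ (Fin (m + 2)) := EuclideanSpace.single 0 1 with he0
  set e1 : EuclideanSpace ℝ (Fin (m + 2)) := EuclideanSpace.single (Fin.succ 0) 1 with he1
  have hexp : ∀ t : ℕ, pt t ε = pt 0 ε + (t : ℝ) • e0 + ((t : ℝ) ^ 2) • e1 := by
    intro t
    apply ext_pt
    · simp [pt_zero, he0, he1]
    · have : (Fin.succ 0 : Fin (m + 2)) ≠ 0 := Fin.succ_ne_zero 0
      simp [he0, he1, -Fin.succ_zero_eq_one', -Fin.succ_zero_eq_one, pt_one, this]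
    · intro j
      have h1 : (j.succ.succ : Fin (m + 2)) ≠ 0 := Fin.succ_ne_zero _
      have h2 : (j.succ.succ : Fin (m + 2)) ≠ Fin.succ 0 := by
        intro h
        exact Fin.succ_ne_zero _ (Fin.succ_injective _ h)
      simp [he0, he1, -Fin.succ_zero_eq_one', -Fin.succ_zero_eq_one, pt_succ, h1, h2]
  have hval : ∀ t : ℕ, l (pt t ε) = l (pt 0 ε) + t * l e0 + (t : ℝ) ^ 2 * l e1 := by
    intro t
    rw [hexp t]
    simp
  set A := l (pt 0 ε) with hA
  set α := l e0 with hα
  set β := l e1 with hβ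
  have hx' := hx
  have hy' := hy
  rw [hl] at hx' hy'
  have hmax : ∀ t < k, A + t * α + (t : ℝ) ^ 2 * β ≤ A + i * α + (i : ℝ) ^ 2 * β := by
    intro t ht
    rw [← hval, ← hval]
    exact hx'.2 _ (pt_hull ht ε)
  have heq : A + i' * α + (i' : ℝ) ^ 2 * β = A + i * α + (i : ℝ) ^ 2 * β := by
    apply le_antisymm (hmax i' hi')
    rw [← hval, ← hval]
    exact hy'.2 _ hx'.1
  have hiiR : (i : ℝ) + 2 ≤ i' := by
    have : i + 2 ≤ i' := by omega
    exact_mod_cast this
  have hα2 : α = - β * (i + i') := by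
    have h1 : ((i' : ℝ) - i) * (α + β * (i + i')) = 0 := by nlinarith
    rcases mul_eq_zero.1 h1 with h | h
    · linarith
    · linarith
  have hβ1 : 0 ≤ β := by
    have h1 := hmax (i + 1) (by omega)
    push_cast at h1
    rw [hα2] at h1
    have h2 : β * ((i' : ℝ) - i - 1) ≥ 0 := by nlinarith
    by_contra hneg
    push Not at hneg
    nlinarith
  have hβ2 : β ≤ 0 := by
    by_contra hpos
    push Not at hpos
    by_cases hi0 : i = 0
    · have hk : i' + 1 < k := by
        have := hc2 hi0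
        omega
      have h1 := hmax (i' + 1) hk
      push_cast at h1
      rw [hα2] at h1
      nlinarith
    · obtain ⟨s, rfl⟩ : ∃ s, i = s + 1 := ⟨i - 1, by omega⟩
      have h1 := hmax s (by omega)
      push_cast at h1 hα2 hiiR
      rw [hα2] at h1
      nlinarith
  have hβ0 : β = 0 := le_antisymm hβ2 hβ1
  have hα0 : α = 0 := by rw [hα2, hβ0]; ring
  have hz : pt (i + 1) ε ∈ F := by
    rw [hl]
    refine ⟨pt_hull (by omega) ε, fun z hz => ?_⟩
    have h1 := hx'.2 z hz
    rw [hval, hα0, hβ0] at h1 ⊢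
    linarith
  have hdet := det_zero hF.2 hx hy hz 0 (Fin.succ 0)
  rw [pt_zero, pt_zero, pt_zero, pt_one, pt_one, pt_one] at hdet
  push_cast at hdet
  have h5 : ((i' : ℝ) - i) * ((i' : ℝ) - i - 1) = 0 := by nlinarith
  rcases mul_eq_zero.1 h5 with h | h
  · linarith
  · linarith

open scoped Classical in
/-- the neighbours of a vertex -/
noncomputable def nbr {m : ℕ} (k i : ℕ) (ε : Fin m → Bool) : Finset (EuclideanSpace ℝ (Fin (m + 2))) :=
  insert (pt ((i + 1) % k) ε) (insert (pt ((i + k - 1) % k) ε)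
    ((Finset.univ : Finset (Fin m)).image (fun j => pt i (Function.update ε j (!ε j)))))

theorem nbr_card {m : ℕ} (k i : ℕ) (ε : Fin m → Bool) : (nbr k i ε).card ≤ m + 2 := by
  classical
  unfold nbr
  refine (Finset.card_insert_le _ _).trans ?_
  have h1 := Finset.card_insert_le (pt ((i + k - 1) % k) ε)
    ((Finset.univ : Finset (Fin m)).image (fun j => pt i (Function.update ε j (!ε j))))
  have h2 : ((Finset.univ : Finset (Fin m)).image
      (fun j => pt i (Function.update ε j (!ε j)))).card ≤ m := by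
    refine Finset.card_image_le.trans ?_
    simp
  omega

theorem edge_nbr {m k : ℕ} {F : Set (EuclideanSpace ℝ (Fin (m + 2)))} (hF : IsEdge (SS m k) F)
    {i i' : ℕ} (hi : i < k) (hi' : i' < k) {ε ε' : Fin m → Bool} (hx : pt i ε ∈ F)
    (hy : pt i' ε' ∈ F) (hne : pt i' ε' ≠ pt i ε) : pt i' ε' ∈ nbr k i ε := by
  classical
  unfold nbr
  by_cases hex : ∃ j, ε j ≠ ε' j
  · obtain ⟨j, hj⟩ := hex
    have hu : pt i (Function.update ε j (ε' j)) ∈ F := by
      apply mix_mem hF.1 hx hy (pt_hull hi _) (pt_hull hi' (Function.update ε' j (ε j)))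
      apply ext_pt
      · rfl
      · rfl
      · intro j'
        change (if (Function.update ε j (ε' j)) j' then (1 : ℝ) else 0) +
          (if (Function.update ε' j (ε j)) j' then (1 : ℝ) else 0) =
          (if ε j' then (1 : ℝ) else 0) + (if ε' j' then (1 : ℝ) else 0)
        by_cases hjj : j' = j
        · subst hjj
          rw [Function.update_self, Function.update_self, add_comm]
        · rw [Function.update_of_ne hjj, Function.update_of_ne hjj]
    have hp : (pt i (Function.update ε j (ε' j)) : EuclideanSpace ℝ (Fin (m + 2))) j.succ.succ -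
        (pt i ε : EuclideanSpace ℝ (Fin (m + 2))) j.succ.succ ≠ 0 := by
      rw [pt_succ, pt_succ, Function.update_self]
      revert hj
      cases ε j <;> cases ε' j <;> simp
    have hq : ∀ q, (pt i (Function.update ε j (ε' j)) : EuclideanSpace ℝ (Fin (m + 2))) q =
        (pt i ε : EuclideanSpace ℝ (Fin (m + 2))) q →
        (pt i' ε' : EuclideanSpace ℝ (Fin (m + 2))) q =
        (pt i ε : EuclideanSpace ℝ (Fin (m + 2))) q := by
      intro q hq
      have hdet := det_zero hF.2 hx hu hy j.succ.succ q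
      rw [hq, sub_self, zero_mul] at hdet
      rcases mul_eq_zero.1 hdet with h | h
      · exact absurd h hp
      · linarith
    have h0 : i' = i := by
      have h00 := hq 0 rfl
      rw [pt_zero, pt_zero] at h00
      exact Nat.cast_injective (R := ℝ) h00
    have h1 : ε' = Function.update ε j (!ε j) := by
      funext j'
      by_cases hjj : j' = j
      · subst hjj
        rw [Function.update_self]
        revert hj
        cases ε j' <;> cases ε' j' <;> simp
      · rw [Function.update_of_ne hjj]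
        have := hq j'.succ.succ (by rw [pt_succ, pt_succ, Function.update_of_ne hjj])
        rw [pt_succ, pt_succ] at this
        exact ite_inj this
    apply Finset.mem_insert_of_mem
    apply Finset.mem_insert_of_mem
    rw [Finset.mem_image]
    exact ⟨j, Finset.mem_univ _, by rw [h0, h1]⟩
  · push Not at hex
    have hεε : ε = ε' := funext hex
    subst hεε
    rcases lt_trichotomy i i' with h | h | h
    · rcases poly_adj hF h hi' ε hx hy with h1 | ⟨h1, h2⟩
      · have : i' = (i + 1) % k := by rw [h1, Nat.mod_eq_of_lt (by omega)]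
        rw [← this]
        exact Finset.mem_insert_self _ _
      · have : i' = (i + k - 1) % k := by
          rw [h1, Nat.zero_add, Nat.mod_eq_of_lt (by omega)]
          exact h2
        apply Finset.mem_insert_of_mem
        rw [← this]
        exact Finset.mem_insert_self _ _
    · exact absurd (by rw [h]) hne
    · rcases poly_adj hF h hi ε hy hx with h1 | ⟨h1, h2⟩
      · have : i' = (i + k - 1) % k := by
          have h3 : i + k - 1 = i' + k := by omega
          rw [h3, Nat.add_mod_right, Nat.mod_eq_of_lt hi']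
        apply Finset.mem_insert_of_mem
        rw [← this]
        exact Finset.mem_insert_self _ _
      · have : i' = (i + 1) % k := by
          have h3 : i + 1 = k := by omega
          rw [h3, Nat.mod_self, h1]
        rw [← this]
        exact Finset.mem_insert_self _ _

theorem span_SS {m k : ℕ} (hk : 3 ≤ k) :
    affineSpan ℝ ((SS m k : Finset _) : Set (EuclideanSpace ℝ (Fin (m + 2)))) = ⊤ := by
  have hne : ((SS m k : Finset _) : Set (EuclideanSpace ℝ (Fin (m + 2)))).Nonempty :=
    ⟨pt 0 (fun _ => false), pt_mem (by omega) _⟩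
  rw [AffineSubspace.affineSpan_eq_top_iff_vectorSpan_eq_top_of_nonempty ℝ _ _ hne]
  rw [← Submodule.orthogonal_eq_bot_iff, Submodule.eq_bot_iff]
  intro g hg
  rw [Submodule.mem_orthogonal] at hg
  have key : ∀ x ∈ SS m k, ∀ y ∈ SS m k, ∑ p, (x p - y p) * g p = 0 := by
    intro x hx y hy
    have h1 := hg (x -ᵥ y) (vsub_mem_vectorSpan ℝ hx hy)
    rw [PiLp.inner_apply] at h1
    rw [← h1]
    apply Finset.sum_congr rfl
    intro p _
    simp [mul_comm]
  have h1 := key _ (pt_mem (by omega : 1 < k) (fun _ => false)) _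
    (pt_mem (by omega : 0 < k) (fun _ => false))
  have h2 := key _ (pt_mem (by omega : 2 < k) (fun _ => false)) _
    (pt_mem (by omega : 0 < k) (fun _ => false))
  rw [Fin.sum_univ_succ, Fin.sum_univ_succ] at h1 h2
  simp only [pt_zero, pt_one, pt_succ] at h1 h2
  have hg0 : g 0 = 0 := by
    norm_num at h1 h2
    linarith
  have hg1 : g (Fin.succ 0) = 0 := by
    rw [hg0] at h1
    norm_num at h1
    exact h1
  apply ext_pt
  · exact hg0
  · exact hg1
  · intro j
    have h3 := key _ (pt_mem (by omega : 0 < k) (Function.update (fun _ => false) j true)) _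
      (pt_mem (by omega : 0 < k) (fun _ => false))
    rw [Fin.sum_univ_succ, Fin.sum_univ_succ] at h3
    simp only [pt_zero, pt_one, pt_succ] at h3
    rw [Finset.sum_eq_single j] at h3
    · simpa using h3
    · intro b _ hb
      rw [Function.update_of_ne hb]
      simp
    · intro h
      exact absurd (Finset.mem_univ _) h

theorem simple_SS {m k : ℕ} (hk : 3 ≤ k) : IsSimple (SS m k) := by
  refine ⟨span_SS hk, fun x => ?_⟩
  obtain ⟨P, hP⟩ := exists_CP (SS m k) (span_SS hk)
  obtain ⟨i, hi, ε, rfl⟩ := node_mem x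
  apply deg_eq hP (nd i hi ε) (nbr k i ε) (nbr_card k i ε)
  intro F hF hxF y hyS hyF hyx
  obtain ⟨i', hi', ε', rfl⟩ := mem_SS.1 hyS
  exact edge_nbr hF hi hi' hxF hyF hyx

end Pool.Agent.H63R3.Sep
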