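import Mathlib
import Pool.Agent.H63R3.Sep3

set_option autoImplicit false

namespace Pool.Agent.H63R3.Sep

open Finset Pool.Agent.Helper715

theorem mem_nbr {m k i i' : ℕ} {ε ε' : Fin m → Bool} (h : pt i' ε' ∈ nbr k i ε) :
    (i' = (i + 1) % k ∧ ε' = ε) ∨ (i' = (i + k - 1) % k ∧ ε' = ε) ∨
      (i' = i ∧ ∃ j, ε' = Function.update ε j (!ε j)) := by
  classical
  unfold nbr at h
  rw [Finset.mem_insert, Finset.mem_insert, Finset.mem_image] at h
  rcases h with h | h | ⟨j, _, h⟩
  · exact Or.inl (pt_inj h)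
  · exact Or.inr (Or.inl (pt_inj h))
  · obtain ⟨h1, h2⟩ := pt_inj h
    exact Or.inr (Or.inr ⟨h1.symm, j, h2.symm⟩)

theorem totsep_of_nbr {m k : ℕ} (M N : Finset (Node (SS m k))) (hd : Disjoint M N)
    (h : ∀ i, ∀ hi : i < k, ∀ ε, nd i hi ε ∈ N → ∀ i', ∀ hi' : i' < k, ∀ ε',
      pt i' ε' ∈ nbr k i ε → nd i' hi' ε' ∈ M) : TotSep (skel (SS m k)) M N := by
  refine ⟨hd, ?_⟩
  intro A hA B hB hAB p hp
  cases p with
  | nil => exact absurd rfl hAB
  | cons hadj p' =>
    rename_i C
    refine ⟨C, ?_, ?_⟩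
    · rw [SimpleGraph.Walk.support_cons]
      exact List.mem_cons_of_mem _ p'.start_mem_support
    · clear hp
      obtain ⟨i, hi, ε, rfl⟩ := node_mem A
      obtain ⟨i', hi', ε', rfl⟩ := node_mem C
      obtain ⟨hne, F, hF, h1, h2⟩ := hadj
      apply h i hi ε hA i' hi' ε'
      apply edge_nbr hF hi hi' h1 h2
      intro hcon
      exact hne (Subtype.ext hcon.symm)

/-- the number of ones -/
def wt {m : ℕ} (ε : Fin m → Bool) : ℕ := ∑ j, if ε j then 1 else 0

theorem wt_flip {m : ℕ} (ε : Fin m → Bool) (j : Fin m) :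
    (wt (Function.update ε j (!ε j)) + wt ε) % 2 = 1 := by
  have h1 := Finset.add_sum_erase Finset.univ (fun j' => if ε j' then 1 else 0 : Fin m → ℕ)
    (Finset.mem_univ j)
  have h2 := Finset.add_sum_erase Finset.univ
    (fun j' => if (Function.update ε j (!ε j)) j' then 1 else 0 : Fin m → ℕ) (Finset.mem_univ j)
  have h3 : ∑ x ∈ Finset.univ.erase j, (if (Function.update ε j (!ε j)) x then 1 else 0 : ℕ) =
      ∑ x ∈ Finset.univ.erase j, (if ε x then 1 else 0 : ℕ) := by
    apply Finset.sum_congr rfl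
    intro x hx
    rw [Function.update_of_ne (Finset.ne_of_mem_erase hx)]
  simp only [Function.update_self] at h2
  rw [h3] at h2
  unfold wt
  rw [← h1, ← h2]
  cases ε j <;> simp <;> omega

/-- the pattern of nodes in the columns `b ≤ i < b + 2 a` with `i + wt ε` of parity `c` -/
noncomputable def Pat (m k a b c : ℕ) (hk : b + 2 * a ≤ k) : Finset (Node (SS m k)) := by
  classical
  exact (Finset.univ : Finset (Fin a × (Fin m → Bool))).image
    (fun p => nd (b + 2 * p.1 + (b + wt p.2 + c) % 2)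
      (by have := p.1.2; have := Nat.mod_lt (b + wt p.2 + c) (by norm_num : 0 < 2); omega) p.2)

theorem card_Pat {m k a b c : ℕ} (hk : b + 2 * a ≤ k) : (Pat m k a b c hk).card = a * 2 ^ m := by
  classical
  unfold Pat
  rw [Finset.card_image_of_injective]
  · simp
  · rintro ⟨t, ε⟩ ⟨t', ε'⟩ h
    obtain ⟨h1, h2⟩ := nd_inj h
    simp only at h1 h2
    subst h2
    have : t = t' := by
      apply Fin.ext
      omega
    rw [this]

theorem mem_Pat {m k a b c i : ℕ} {hk : b + 2 * a ≤ k} {hi : i < k} {ε : Fin m → Bool} :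
    nd i hi ε ∈ Pat m k a b c hk ↔ b ≤ i ∧ i < b + 2 * a ∧ (i + wt ε + c) % 2 = 0 := by
  classical
  unfold Pat
  rw [Finset.mem_image]
  constructor
  · rintro ⟨⟨t, ε'⟩, _, h⟩
    obtain ⟨h1, h2⟩ := nd_inj h
    simp only at h1 h2
    subst h2
    have := t.2
    refine ⟨by omega, by omega, by omega⟩
  · rintro ⟨h1, h2, h3⟩
    refine ⟨(⟨(i - b) / 2, by omega⟩, ε), Finset.mem_univ _, ?_⟩
    apply Subtype.ext
    change pt _ ε = pt i ε
    congr 1
    simp only
    omega

/-- `s` nodes can be totally separated by `n` nodes in the graph of a simple `d`-polytope. -/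
def Attained (d n s : ℕ) : Prop :=
  ∃ S : Finset (EuclideanSpace ℝ (Fin d)), IsSimple S ∧
    ∃ M N : Finset (Node S), M.card = n ∧ N.card = s ∧ TotSep (skel S) M N

theorem attained_even (m a : ℕ) (ha : 2 ≤ a) : Attained (m + 2) (a * 2 ^ m) (a * 2 ^ m) := by
  refine ⟨SS m (2 * a), simple_SS (by omega), Pat m (2 * a) a 0 1 (by omega),
    Pat m (2 * a) a 0 0 (by omega), card_Pat _, card_Pat _, ?_⟩
  apply totsep_of_nbr
  · rw [Finset.disjoint_left]
    intro x hx hx'
    obtain ⟨i, hi, ε, rfl⟩ := node_mem x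
    rw [mem_Pat] at hx hx'
    omega
  · intro i hi ε hN i' hi' ε' hnb
    rw [mem_Pat] at hN ⊢
    rcases mem_nbr hnb with ⟨h1, h2⟩ | ⟨h1, h2⟩ | ⟨h1, j, h2⟩
    · rcases Nat.lt_or_ge (i + 1) (2 * a) with h | h
      · rw [Nat.mod_eq_of_lt h] at h1
        rw [h2]
        omega
      · have h3 : i + 1 = 2 * a := by omega
        rw [h3, Nat.mod_self] at h1
        rw [h2]
        omega
    · rcases Nat.eq_zero_or_pos i with h | h
      · rw [h, Nat.zero_add, Nat.mod_eq_of_lt (by omega)] at h1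
        rw [h2]
        omega
      · have h3 : i + 2 * a - 1 = (i - 1) + 2 * a := by omega
        rw [h3, Nat.add_mod_right, Nat.mod_eq_of_lt (by omega)] at h1
        rw [h2]
        omega
    · have h3 := wt_flip ε j
      rw [← h2] at h3
      omega

theorem attained_near (m n : ℕ) : ∃ s, Attained (m + 2) n s ∧ n < s + 2 ^ (m + 1) := by
  classical
  have hpos : 0 < 2 ^ m := by positivity
  have hp2 : 2 ^ (m + 1) = 2 * 2 ^ m := by ring
  rcases Nat.lt_or_ge n (2 ^ m) with hlt | hge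
  · refine ⟨0, ⟨SS m 3, simple_SS le_rfl, ?_⟩, by omega⟩
    have hc : n ≤ (Pat m 3 1 0 0 (by omega)).card := by
      rw [card_Pat]
      omega
    obtain ⟨M, _, hM⟩ := Finset.exists_subset_card_eq hc
    refine ⟨M, ∅, hM, rfl, Finset.disjoint_empty_right _, ?_⟩
    intro A hA
    exact absurd hA (Finset.notMem_empty _)
  · obtain ⟨a, ha⟩ : ∃ a, a = n / 2 ^ m := ⟨_, rfl⟩
    obtain ⟨r, hr⟩ : ∃ r, r = n % 2 ^ m := ⟨_, rfl⟩
    have hn : n = a * 2 ^ m + r := by
      rw [ha, hr, mul_comm]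
      exact (Nat.div_add_mod n (2 ^ m)).symm
    have hr2 : r < 2 ^ m := by
      rw [hr]
      exact Nat.mod_lt _ hpos
    have ha1 : 1 ≤ a := by
      rw [ha]
      exact (Nat.one_le_div_iff hpos).2 hge
    obtain ⟨b, rfl⟩ : ∃ b, a = b + 1 := ⟨a - 1, by omega⟩
    have hcard : r ≤ (Finset.univ : Finset (Fin m → Bool)).card := by
      rw [Finset.card_univ]
      simp only [Fintype.card_fun, Fintype.card_bool, Fintype.card_fin]
      omega
    obtain ⟨R, _, hR⟩ := Finset.exists_subset_card_eq hcard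
    have hk : 2 * (b + 1) < 2 * (b + 1) + 1 := by omega
    refine ⟨b * 2 ^ m, ⟨SS m (2 * (b + 1) + 1), simple_SS (by omega),
      Pat m (2 * (b + 1) + 1) (b + 1) 0 1 (by omega) ∪
        R.image (fun ε => nd (2 * (b + 1)) hk ε),
      Pat m (2 * (b + 1) + 1) b 1 0 (by omega), ?_, card_Pat _, ?_⟩, ?_⟩
    · rw [Finset.card_union_of_disjoint, card_Pat, Finset.card_image_of_injective, hR, hn]
      · intro ε ε' h
        exact (nd_inj h).2
      · rw [Finset.disjoint_left]
        intro x hx hx'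
        obtain ⟨ε, _, rfl⟩ := Finset.mem_image.1 hx'
        rw [mem_Pat] at hx
        omega
    · apply totsep_of_nbr
      · rw [Finset.disjoint_left]
        intro x hx hx'
        obtain ⟨i, hi, ε, rfl⟩ := node_mem x
        rw [mem_Pat] at hx'
        rcases Finset.mem_union.1 hx with hx | hx
        · rw [mem_Pat] at hx
          omega
        · obtain ⟨ε', _, h⟩ := Finset.mem_image.1 hx
          have := (nd_inj h).1
          omega
      · intro i hi ε hN i' hi' ε' hnb
        apply Finset.mem_union_left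
        rw [mem_Pat] at hN ⊢
        rcases mem_nbr hnb with ⟨h1, h2⟩ | ⟨h1, h2⟩ | ⟨h1, j, h2⟩
        · rw [Nat.mod_eq_of_lt (by omega)] at h1
          rw [h2]
          omega
        · have h3 : i + (2 * (b + 1) + 1) - 1 = (i - 1) + (2 * (b + 1) + 1) := by omega
          rw [h3, Nat.add_mod_right, Nat.mod_eq_of_lt (by omega)] at h1
          rw [h2]
          omega
        · have h3 := wt_flip ε j
          rw [← h2] at h3
          omega
    · rw [hn, hp2]
      nlinarith

end Pool.Agent.H63R3.Sep
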