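import Mathlib
import Pool.Agent.H63R3.Sep4

set_option autoImplicit false

namespace Pool.Agent.H63R3.Sep

open Finset Pool.Agent.Helper715

/-- a simple polytope with a two-coloured graph, given by points and facet functionals -/
structure Cert (d n : ℕ) where
  V : Type
  fin : Fintype V
  pt : V → EuclideanSpace ℝ (Fin d)
  inj : Function.Injective pt
  L : V → Fin d → (EuclideanSpace ℝ (Fin d) →L[ℝ] ℝ)
  b : V → Fin d → ℝ
  nb : V → Fin d → V
  nonneg : ∀ x i y, 0 ≤ L x i (pt y) + b x i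
  zero : ∀ x i, L x i (pt x) + b x i = 0
  pos : ∀ x i, 0 < L x i (pt (nb x i)) + b x i
  off : ∀ x i j, j ≠ i → L x j (pt (nb x i)) + b x j = 0
  sym : ∀ x i, ∃ j, nb (nb x i) j = x
  col : V → Bool
  alt : ∀ x i, col (nb x i) ≠ col x
  cc : ∀ β, ((@Finset.univ V fin).filter (fun x => col x = β)).card = n

namespace Cert

variable {d n : ℕ} (c : Cert d n)

theorem Lu (x : c.V) (i j : Fin d) : c.L x j (c.pt (c.nb x i) - c.pt x) =
    if j = i then c.L x i (c.pt (c.nb x i)) + c.b x i else 0 := by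
  rw [map_sub]
  have h1 := c.zero x j
  split_ifs with h
  · subst h
    linarith
  · have h2 := c.off x i j h
    linarith

theorem spanu (x : c.V) : LinearIndependent ℝ (fun i => c.pt (c.nb x i) - c.pt x) ∧
    Submodule.span ℝ (Set.range (fun i => c.pt (c.nb x i) - c.pt x)) = ⊤ := by
  have hli : LinearIndependent ℝ (fun i => c.pt (c.nb x i) - c.pt x) := by
    rw [Fintype.linearIndependent_iff]
    intro g hg j
    have h1 := congrArg (c.L x j) hg
    rw [map_sum, map_zero] at h1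
    simp only [map_smul, c.Lu, smul_eq_mul] at h1
    rw [Finset.sum_eq_single j] at h1
    · rw [if_pos rfl] at h1
      rcases mul_eq_zero.1 h1 with h | h
      · exact h
      · exact absurd h (c.pos x j).ne'
    · intro i _ hij
      rw [if_neg (Ne.symm hij), mul_zero]
    · intro h
      exact absurd (Finset.mem_univ _) h
  refine ⟨hli, ?_⟩
  exact hli.span_eq_top_of_card_eq_finrank' (by simp)

theorem repr (x : c.V) (y : EuclideanSpace ℝ (Fin d)) :
    y - c.pt x = ∑ i, ((c.L x i y + c.b x i) / (c.L x i (c.pt (c.nb x i)) + c.b x i)) •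
      (c.pt (c.nb x i) - c.pt x) := by
  have h1 : y - c.pt x ∈ Submodule.span ℝ (Set.range (fun i => c.pt (c.nb x i) - c.pt x)) := by
    rw [(c.spanu x).2]
    trivial
  obtain ⟨g, hg⟩ := (Submodule.mem_span_range_iff_exists_fun ℝ).1 h1
  rw [← hg]
  apply Finset.sum_congr rfl
  intro j _
  congr 1
  have h2 := congrArg (c.L x j) hg
  rw [map_sum, map_sub] at h2
  simp only [map_smul, c.Lu, smul_eq_mul] at h2
  rw [Finset.sum_eq_single j] at h2
  · rw [if_pos rfl] at h2
    rw [eq_div_iff (c.pos x j).ne', h2]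
    linarith [c.zero x j]
  · intro i _ hij
    rw [if_neg (Ne.symm hij), mul_zero]
  · intro h
    exact absurd (Finset.mem_univ _) h

theorem exists_pos (x y : c.V) (h : y ≠ x) : ∃ i, 0 < c.L x i (c.pt y) + c.b x i := by
  by_contra hcon
  push Not at hcon
  have h0 : ∀ i, c.L x i (c.pt y) + c.b x i = 0 := fun i => le_antisymm (hcon i) (c.nonneg x i y)
  have h1 := c.repr x (c.pt y)
  simp only [h0, zero_div, zero_smul, Finset.sum_const_zero] at h1
  exact h (c.inj (sub_eq_zero.1 h1))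

theorem sum_pos (x y : c.V) (h : y ≠ x) : 0 < ∑ i, (c.L x i (c.pt y) + c.b x i) := by
  obtain ⟨i, hi⟩ := c.exists_pos x y h
  exact Finset.sum_pos' (fun i _ => c.nonneg x i y) ⟨i, Finset.mem_univ _, hi⟩

open scoped Classical in
/-- the vertex set -/
noncomputable def S : Finset (EuclideanSpace ℝ (Fin d)) := (@Finset.univ c.V c.fin).image c.pt

theorem mem_S {y : EuclideanSpace ℝ (Fin d)} : y ∈ c.S ↔ ∃ x, c.pt x = y := by
  classical
  have := c.fin
  rw [S, Finset.mem_image]
  simp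

theorem exposed (x : c.V) :
    IsExposed ℝ (convexHull ℝ (c.S : Set (EuclideanSpace ℝ (Fin d)))) {c.pt x} := by
  apply exposed_singleton _ (-∑ i, c.L x i) (c.mem_S.2 ⟨x, rfl⟩)
  intro y hy hne
  obtain ⟨z, rfl⟩ := c.mem_S.1 hy
  have hzx : z ≠ x := fun h => hne (by rw [h])
  have h1 := c.sum_pos x z hzx
  have h2 : ∑ i, (c.L x i (c.pt x) + c.b x i) = 0 := Finset.sum_eq_zero (fun i _ => c.zero x i)
  rw [Finset.sum_add_distrib] at h1 h2
  have h3 : ∀ w, (-∑ i, c.L x i) w = -∑ i, c.L x i w := by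
    intro w
    simp
  rw [h3, h3]
  linarith

/-- the node -/
noncomputable def node (x : c.V) : Node c.S := ⟨c.pt x, c.exposed x⟩

theorem node_inj : Function.Injective c.node := fun _ _ h => c.inj (congrArg Subtype.val h)

theorem node_surj (a : Node c.S) : ∃ x, c.node x = a := by
  have h := exposed_eq_hull a.2
  have hne : (c.S : Set (EuclideanSpace ℝ (Fin d))) ∩ {a.1} ≠ ∅ := by
    intro h0
    rw [h0, convexHull_empty] at h
    exact Set.singleton_ne_empty _ h
  obtain ⟨y, hy1, hy2⟩ := Set.nonempty_iff_ne_empty.2 hne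
  rw [Set.mem_singleton_iff] at hy2
  rw [hy2] at hy1
  obtain ⟨x, hx⟩ := c.mem_S.1 hy1
  exact ⟨x, Subtype.ext hx⟩

theorem span_top (x : c.V) : affineSpan ℝ (c.S : Set (EuclideanSpace ℝ (Fin d))) = ⊤ := by
  have hx : c.pt x ∈ (c.S : Set (EuclideanSpace ℝ (Fin d))) := c.mem_S.2 ⟨x, rfl⟩
  rw [AffineSubspace.affineSpan_eq_top_iff_vectorSpan_eq_top_of_nonempty ℝ _ _ ⟨_, hx⟩]
  rw [eq_top_iff, ← (c.spanu x).2, Submodule.span_le]
  rintro _ ⟨i, rfl⟩
  exact vsub_mem_vectorSpan ℝ (c.mem_S.2 ⟨_, rfl⟩) hx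

theorem two_nodes_edge {d : ℕ} {S : Finset (EuclideanSpace ℝ (Fin d))}
    {P : CP (WithLp 2 (EuclideanSpace ℝ (Fin d) × ℝ))}
    (hP : (P.V : Set (WithLp 2 (EuclideanSpace ℝ (Fin d) × ℝ))) =
      hm '' (S : Set (EuclideanSpace ℝ (Fin d)))) {F : Set (EuclideanSpace ℝ (Fin d))}
    (hF : IsEdge S F) {u v w : Node S} (hu : u.1 ∈ F) (hv : v.1 ∈ F) (hw : w.1 ∈ F) (hvu : v ≠ u)
    (hwu : w ≠ u) : v = w := by
  have hdm : dm (toA P F) = 2 := by rw [dm_toA hP hF.1 ⟨_, hu⟩, hF.2]
  obtain ⟨a, b, _, hab⟩ := CP.two_nodes (P := P) ⟨toA P F, toA_cl hP hF.1 ⟨_, hu⟩, hdm⟩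
  have key : ∀ y : Node S, y.1 ∈ F → (⟨ph P y, ph_cl hP y, ph_dm hP y⟩ : P.Lev 1) = a ∨
      (⟨ph P y, ph_cl hP y, ph_dm hP y⟩ : P.Lev 1) = b := by
    intro y hy
    apply (hab _).1
    change ph P y ⊆ toA P F
    exact toA_mono hP (Set.singleton_subset_iff.2 hy)
  have hne : ∀ y y' : Node S, (⟨ph P y, ph_cl hP y, ph_dm hP y⟩ : P.Lev 1) =
      (⟨ph P y', ph_cl hP y', ph_dm hP y'⟩ : P.Lev 1) → y = y' := by
    intro y y' h
    exact ph_inj hP (congrArg Subtype.val h)
  rcases key u hu with h1 | h1 <;> rcases key v hv with h2 | h2 <;> rcases key w hw with h3 | h3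
  · exact absurd (hne _ _ (h2.trans h1.symm)) hvu
  · exact absurd (hne _ _ (h2.trans h1.symm)) hvu
  · exact absurd (hne _ _ (h3.trans h1.symm)) hwu
  · exact hne _ _ (h2.trans h3.symm)
  · exact hne _ _ (h2.trans h3.symm)
  · exact absurd (hne _ _ (h3.trans h1.symm)) hwu
  · exact absurd (hne _ _ (h2.trans h1.symm)) hvu
  · exact absurd (hne _ _ (h2.trans h1.symm)) hvu

theorem edge_nb {F : Set (EuclideanSpace ℝ (Fin d))} (hF : IsEdge c.S F) {x y : c.V}
    (hx : c.pt x ∈ F) (hy : c.pt y ∈ F) (hne : y ≠ x) : ∃ i, y = c.nb x i := by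
  obtain ⟨P, hP⟩ := exists_CP c.S (c.span_top x)
  obtain ⟨i, hi⟩ := c.exists_pos x y hne
  refine ⟨i, ?_⟩
  obtain ⟨l, hl⟩ := hF.1 ⟨_, hx⟩
  have hmem : ∀ z, c.pt z ∈ convexHull ℝ (c.S : Set (EuclideanSpace ℝ (Fin d))) := fun z =>
    subset_convexHull ℝ _ (c.mem_S.2 ⟨z, rfl⟩)
  have hx' := hx
  have hy' := hy
  rw [hl] at hx' hy'
  have h1 := congrArg l (c.repr x (c.pt y))
  rw [map_sub, map_sum] at h1
  have h2 : l (c.pt y) - l (c.pt x) = 0 := by
    linarith [hx'.2 _ (hmem y), hy'.2 _ (hmem x)]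
  rw [h2] at h1
  simp only [map_smul, smul_eq_mul] at h1
  have h3 : ∀ j ∈ (Finset.univ : Finset (Fin d)), ((c.L x j (c.pt y) + c.b x j) /
      (c.L x j (c.pt (c.nb x j)) + c.b x j)) * l (c.pt (c.nb x j) - c.pt x) ≤ 0 := by
    intro j _
    apply mul_nonpos_of_nonneg_of_nonpos
    · exact div_nonneg (c.nonneg x j y) (c.pos x j).le
    · rw [map_sub]
      linarith [hx'.2 _ (hmem (c.nb x j))]
  have h4 := (Finset.sum_eq_zero_iff_of_nonpos h3).1 h1.symm i (Finset.mem_univ _)
  rcases mul_eq_zero.1 h4 with h | h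
  · exact absurd h (div_pos hi (c.pos x i)).ne'
  · have h5 : c.pt (c.nb x i) ∈ F := by
      rw [hl]
      refine ⟨hmem _, fun z hz => ?_⟩
      rw [map_sub] at h
      linarith [hx'.2 z hz]
    have h6 : c.nb x i ≠ x := by
      intro h7
      have h8 := c.pos x i
      rw [h7, c.zero] at h8
      exact lt_irrefl _ h8
    have := two_nodes_edge hP hF (u := c.node x) (v := c.node y) (w := c.node (c.nb x i)) hx hy h5
      (fun h => hne (c.node_inj h)) (fun h => h6 (c.node_inj h))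
    exact c.node_inj this

theorem isSimple (x0 : c.V) : IsSimple c.S := by
  classical
  refine ⟨c.span_top x0, fun a => ?_⟩
  obtain ⟨P, hP⟩ := exists_CP c.S (c.span_top x0)
  obtain ⟨x, rfl⟩ := c.node_surj a
  apply deg_eq hP (c.node x) ((Finset.univ : Finset (Fin d)).image (fun i => c.pt (c.nb x i)))
    (Finset.card_image_le.trans (by simp))
  intro F hF hxF y hyS hyF hyx
  obtain ⟨z, rfl⟩ := c.mem_S.1 hyS
  obtain ⟨i, hi⟩ := c.edge_nb hF hxF hyF (fun h => hyx (by rw [h]; rfl))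
  rw [Finset.mem_image]
  exact ⟨i, Finset.mem_univ _, by rw [hi]⟩

theorem attained {d n : ℕ} (c : Cert d n) (hn : 1 ≤ n) : Attained d n n := by
  classical
  have := c.fin
  have hne : ∃ x0 : c.V, True := by
    by_contra hcon
    push Not at hcon
    have h1 := c.cc true
    have h2 : (@Finset.univ c.V c.fin).filter (fun x => c.col x = true) = ∅ := by
      apply Finset.eq_empty_of_forall_notMem
      intro x _
      exact (hcon x).elim
    rw [h2] at h1
    simp at h1
    omega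
  obtain ⟨x0, _⟩ := hne
  refine ⟨c.S, c.isSimple x0,
    ((@Finset.univ c.V c.fin).filter (fun x => c.col x = true)).image c.node,
    ((@Finset.univ c.V c.fin).filter (fun x => c.col x = false)).image c.node, ?_, ?_, ?_, ?_⟩
  · rw [Finset.card_image_of_injective _ c.node_inj, c.cc]
  · rw [Finset.card_image_of_injective _ c.node_inj, c.cc]
  · rw [Finset.disjoint_left]
    intro a ha hb
    obtain ⟨x, hx, rfl⟩ := Finset.mem_image.1 ha
    obtain ⟨y, hy, hxy⟩ := Finset.mem_image.1 hb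
    rw [Finset.mem_filter] at hx hy
    rw [c.node_inj hxy, hx.2] at hy
    exact absurd hy.2 (by decide)
  · intro A hA B hB hAB p hp
    cases p with
    | nil => exact absurd rfl hAB
    | cons hadj p' =>
      rename_i C
      refine ⟨C, ?_, ?_⟩
      · rw [SimpleGraph.Walk.support_cons]
        exact List.mem_cons_of_mem _ p'.start_mem_support
      · clear hp
        obtain ⟨x, hx, rfl⟩ := Finset.mem_image.1 hA
        obtain ⟨y, rfl⟩ := c.node_surj C
        obtain ⟨hne, F, hF, h1, h2⟩ := hadj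
        obtain ⟨i, hi⟩ := c.edge_nb hF h1 h2 (fun h => hne (by rw [h]))
        rw [Finset.mem_filter] at hx
        apply Finset.mem_image_of_mem
        rw [Finset.mem_filter]
        refine ⟨@Finset.mem_univ _ c.fin _, ?_⟩
        have h3 := c.alt x i
        rw [← hi, hx.2] at h3
        simpa using h3

end Cert

end Pool.Agent.H63R3.Sep
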