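import Mathlib
import Pool.Agent.H63R3.Cert1

set_option autoImplicit false

namespace Pool.Agent.H63R3.Sep

open Finset

namespace Cert

variable {d n : ℕ} (c : Cert d n) (v : c.V) (ε : ℝ)

/-- the weight of a new vertex -/
noncomputable def wg (T : Finset (Fin d)) : ℝ := ε / ((T.card : ℝ) - 1 / 2)

/-- value of the facet functional at the neighbour -/
noncomputable def pv (i : Fin d) : ℝ := c.L v i (c.pt (c.nb v i)) + c.b v i

theorem pv_pos (i : Fin d) : 0 < c.pv v i := c.pos v i

/-- new vertex -/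
noncomputable def np (T : Finset (Fin d)) : EuclideanSpace ℝ (Fin d) :=
  c.pt v + ∑ i ∈ T, (wg ε T / c.pv v i) • (c.pt (c.nb v i) - c.pt v)

theorem eval_np (T : Finset (Fin d)) (l : EuclideanSpace ℝ (Fin d) →L[ℝ] ℝ) (b : ℝ) :
    l (c.np v ε T) + b = (l (c.pt v) + b) * (1 - ∑ i ∈ T, wg ε T / c.pv v i) +
      ∑ i ∈ T, (wg ε T / c.pv v i) * (l (c.pt (c.nb v i)) + b) := by
  unfold np
  rw [map_add, map_sum]
  simp only [map_smul, map_sub, smul_eq_mul]
  have h1 : ∑ i ∈ T, (wg ε T / c.pv v i) * (l (c.pt (c.nb v i)) + b) =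
      ∑ i ∈ T, (wg ε T / c.pv v i) * (l (c.pt (c.nb v i)) - l (c.pt v)) +
        (l (c.pt v) + b) * ∑ i ∈ T, wg ε T / c.pv v i := by
    rw [Finset.mul_sum, ← Finset.sum_add_distrib]
    apply Finset.sum_congr rfl
    intro i _
    ring
  rw [h1]
  ring

theorem f_np (T : Finset (Fin d)) (j : Fin d) :
    c.L v j (c.np v ε T) + c.b v j = if j ∈ T then wg ε T else 0 := by
  rw [c.eval_np v ε T (c.L v j) (c.b v j), c.zero, zero_mul, zero_add]
  have h1 : ∀ i ∈ T, (wg ε T / c.pv v i) * (c.L v j (c.pt (c.nb v i)) + c.b v j) =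
      if i = j then wg ε T else 0 := by
    intro i _
    split_ifs with h
    · subst h
      have := c.pv_pos v i
      change (wg ε T / c.pv v i) * c.pv v i = _
      field_simp
    · rw [c.off v i j (Ne.symm h), mul_zero]
  rw [Finset.sum_congr rfl h1, Finset.sum_ite_eq' T j (fun _ => wg ε T)]

theorem sum_f_np (T : Finset (Fin d)) :
    ∑ j, (c.L v j (c.np v ε T) + c.b v j) = T.card * wg ε T := by
  simp only [c.f_np]
  rw [Finset.sum_ite_mem, Finset.univ_inter, Finset.sum_const, nsmul_eq_mul]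

/-- conditions on the size -/
structure Small : Prop where
  pos : 0 < ε
  far : ∀ s, s ≠ v → 2 * ε < ∑ i, (c.L v i (c.pt s) + c.b v i)
  cvx : ∑ i, 2 * ε / c.pv v i < 1

theorem exists_small : ∃ ε, c.Small v ε := by
  classical
  have := c.fin
  set K : ℝ := 1 + (∑ s : c.V, if s = v then 0 else
    1 / ∑ i, (c.L v i (c.pt s) + c.b v i)) + ∑ i, 1 / c.pv v i with hK
  have h1 : ∀ s : c.V, 0 ≤ (if s = v then (0 : ℝ) else
      1 / ∑ i, (c.L v i (c.pt s) + c.b v i)) := by
    intro s
    split_ifs with h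
    · exact le_refl _
    · exact (one_div_pos.2 (c.sum_pos v s h)).le
  have h2 : ∀ i ∈ (Finset.univ : Finset (Fin d)), 0 ≤ 1 / c.pv v i := fun i _ =>
    (one_div_pos.2 (c.pv_pos v i)).le
  have h3 := Finset.sum_nonneg (fun s (_ : s ∈ (Finset.univ : Finset c.V)) => h1 s)
  have h4 := Finset.sum_nonneg h2
  have hK0 : 0 < K := by rw [hK]; linarith
  refine ⟨1 / (2 * K), ⟨by positivity, ?_, ?_⟩⟩
  · intro s hs
    have h5 := Finset.single_le_sum (fun s (_ : s ∈ (Finset.univ : Finset c.V)) => h1 s)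
      (Finset.mem_univ s)
    rw [if_neg hs] at h5
    have h6 := c.sum_pos v s hs
    have h7 : 1 / ∑ i, (c.L v i (c.pt s) + c.b v i) < K := by
      rw [hK]; linarith
    have h8 : 2 * (1 / (2 * K)) = 1 / K := by field_simp
    rw [h8]
    rw [div_lt_iff₀ h6] at h7
    rw [div_lt_iff₀ hK0]
    linarith
  · have h8 : ∀ i, 2 * (1 / (2 * K)) / c.pv v i = (1 / K) * (1 / c.pv v i) := by
      intro i
      have := c.pv_pos v i
      field_simp
    simp only [h8]
    rw [← Finset.mul_sum]
    have h9 : ∑ i, 1 / c.pv v i < K := by rw [hK]; linarith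
    rw [one_div, inv_mul_lt_iff₀ hK0]
    linarith

section glue

variable {v ε} (hs : c.Small v ε)
include hs

theorem card_ge {T : Finset (Fin d)} (hT : T.Nonempty) : (1 : ℝ) ≤ T.card := by
  have := Finset.card_pos.2 hT
  exact_mod_cast this

theorem wg_pos {T : Finset (Fin d)} (hT : T.Nonempty) : 0 < wg ε T := by
  have h1 := card_ge c hs hT
  exact div_pos hs.pos (by linarith)

theorem wg_le {T : Finset (Fin d)} (hT : T.Nonempty) : wg ε T ≤ 2 * ε := by
  have h1 := card_ge c hs hT
  have h2 := hs.pos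
  unfold wg
  rw [div_le_iff₀ (by linarith)]
  nlinarith

theorem wg_mul {T : Finset (Fin d)} (hT : T.Nonempty) : (T.card : ℝ) * wg ε T = ε + wg ε T / 2 := by
  have h1 := card_ge c hs hT
  have h2 : (T.card : ℝ) - 1 / 2 ≠ 0 := by
    intro h; linarith
  have h3 : wg ε T * ((T.card : ℝ) - 1 / 2) = ε := by
    unfold wg
    exact div_mul_cancel₀ _ h2
  linarith

theorem sum_lt {T : Finset (Fin d)} (hT : T.Nonempty) : ∑ i ∈ T, wg ε T / c.pv v i < 1 := by
  refine lt_of_le_of_lt ?_ hs.cvx
  have h1 : ∑ i ∈ T, wg ε T / c.pv v i ≤ ∑ i ∈ T, 2 * ε / c.pv v i := by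
    apply Finset.sum_le_sum
    intro i _
    exact div_le_div_of_nonneg_right (wg_le c hs hT) (c.pv_pos v i).le
  refine h1.trans ?_
  apply Finset.sum_le_sum_of_subset_of_nonneg (Finset.subset_univ _)
  intro i _ _
  exact div_nonneg (by linarith [hs.pos]) (c.pv_pos v i).le

theorem old_nonneg {T : Finset (Fin d)} (hT : T.Nonempty) (x : c.V) (i : Fin d) :
    0 ≤ c.L x i (c.np v ε T) + c.b x i := by
  rw [c.eval_np v ε T]
  apply add_nonneg
  · exact mul_nonneg (c.nonneg x i v) (by linarith [sum_lt c hs hT])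
  · apply Finset.sum_nonneg
    intro j _
    exact mul_nonneg (div_nonneg (wg_pos c hs hT).le (c.pv_pos v j).le) (c.nonneg x i _)

/-- value of the new functional -/
theorem g_np {T : Finset (Fin d)} (hT : T.Nonempty) (j : Fin d) :
    ∑ i, (c.L v i (c.np v ε T) + c.b v i) - (1 / 2) * (c.L v j (c.np v ε T) + c.b v j) - ε =
      if j ∈ T then 0 else wg ε T / 2 := by
  rw [c.sum_f_np, c.f_np, wg_mul c hs hT]
  split_ifs <;> ring

theorem g_old {s : c.V} (h : s ≠ v) (j : Fin d) :
    0 < ∑ i, (c.L v i (c.pt s) + c.b v i) - (1 / 2) * (c.L v j (c.pt s) + c.b v j) - ε := by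
  have h1 := hs.far s h
  have h2 : c.L v j (c.pt s) + c.b v j ≤ ∑ i, (c.L v i (c.pt s) + c.b v i) :=
    Finset.single_le_sum (fun i _ => c.nonneg v i s) (Finset.mem_univ j)
  have h3 := hs.pos
  linarith

end glue

theorem nb_inj (x : c.V) {i j : Fin d} (h : c.nb x i = c.nb x j) : i = j := by
  by_contra hne
  have h1 := c.pos x i
  rw [h, c.off x j i hne] at h1
  exact lt_irrefl _ h1

theorem nb_ne (x : c.V) (i : Fin d) : c.nb x i ≠ x := by
  intro h
  have h1 := c.pos x i
  rw [h, c.zero] at h1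
  exact lt_irrefl _ h1

end Cert

/-- count of subsets by parity -/
theorem count_par {d : ℕ} (hd : 1 ≤ d) :
    ((Finset.univ : Finset (Finset (Fin d))).filter (fun T => T.card % 2 = 1)).card = 2 ^ (d - 1) ∧
    ((Finset.univ : Finset (Finset (Fin d))).filter (fun T => T.card % 2 = 0)).card =
      2 ^ (d - 1) := by
  classical
  set a : Fin d := ⟨0, hd⟩
  have hflip : ∀ T : Finset (Fin d), (symmDiff T {a}).card % 2 ≠ T.card % 2 := by
    intro T
    by_cases h : a ∈ T
    · have h1 : symmDiff T {a} = T.erase a := by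
        ext x
        rw [Finset.mem_symmDiff, Finset.mem_singleton, Finset.mem_erase]
        constructor
        · rintro (⟨h1, h2⟩ | ⟨h1, h2⟩)
          · exact ⟨h2, h1⟩
          · exact absurd (h1 ▸ h) h2
        · rintro ⟨h1, h2⟩
          exact Or.inl ⟨h2, h1⟩
      rw [h1, Finset.card_erase_of_mem h]
      have := Finset.card_pos.2 ⟨a, h⟩
      omega
    · have h1 : symmDiff T {a} = insert a T := by
        ext x
        rw [Finset.mem_symmDiff, Finset.mem_singleton, Finset.mem_insert]
        constructor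
        · rintro (⟨h1, h2⟩ | ⟨h1, h2⟩)
          · exact Or.inr h1
          · exact Or.inl h1
        · rintro (h1 | h1)
          · exact Or.inr ⟨h1, h1 ▸ h⟩
          · exact Or.inl ⟨h1, fun h2 => h (h2 ▸ h1)⟩
      rw [h1, Finset.card_insert_of_notMem h]
      omega
  have heq : ((Finset.univ : Finset (Finset (Fin d))).filter (fun T => T.card % 2 = 1)).card =
      ((Finset.univ : Finset (Finset (Fin d))).filter (fun T => T.card % 2 = 0)).card := by
    apply Finset.card_nbij' (fun T => symmDiff T {a}) (fun T => symmDiff T {a})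
    · intro T hT
      rw [Finset.mem_coe, Finset.mem_filter] at hT ⊢
      have := hflip T
      exact ⟨Finset.mem_univ _, by simp only; omega⟩
    · intro T hT
      rw [Finset.mem_coe, Finset.mem_filter] at hT ⊢
      have := hflip T
      exact ⟨Finset.mem_univ _, by simp only; omega⟩
    · intro T _
      simp
    · intro T _
      simp
  have hsum := Finset.card_filter_add_card_filter_not (s := (Finset.univ : Finset (Finset (Fin d))))
    (fun T => T.card % 2 = 1)
  have h0 : ((Finset.univ : Finset (Finset (Fin d))).filter (fun T => ¬ T.card % 2 = 1)) =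
      ((Finset.univ : Finset (Finset (Fin d))).filter (fun T => T.card % 2 = 0)) := by
    apply Finset.filter_congr
    intro T _
    omega
  rw [h0] at hsum
  have htot : (Finset.univ : Finset (Finset (Fin d))).card = 2 * 2 ^ (d - 1) := by
    rw [Finset.card_univ, Fintype.card_finset, Fintype.card_fin, ← pow_succ']
    congr 1
    omega
  omega

end Pool.Agent.H63R3.Sep
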