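import Mathlib
import Pool.Agent.H63R3.Cert1

set_option autoImplicit false

namespace Pool.Agent.H63R3.Sep

open Finset

/-! ### the product of a polygon and a cube -/

/-- previous column -/
def prv (k i : ℕ) : ℕ := if i = 0 then k - 1 else i - 1
/-- next column -/
def nxt (k i : ℕ) : ℕ := if i + 1 = k then 0 else i + 1

theorem prv_lt {k i : ℕ} (hk : 3 ≤ k) (hi : i < k) : prv k i < k := by
  unfold prv; split_ifs <;> omega

theorem nxt_lt {k i : ℕ} (hk : 3 ≤ k) (hi : i < k) : nxt k i < k := by
  unfold nxt; split_ifs <;> omega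

/-- edge functional of the polygon, as a function of the column -/
noncomputable def ef (k i : ℕ) (t : ℝ) : ℝ :=
  if i + 1 = k then t * ((k : ℝ) - 1 - t) else (t - i) * (t - i - 1)

theorem ef_nonneg {k i t : ℕ} (ht : t < k) : 0 ≤ ef k i (t : ℝ) := by
  unfold ef
  split_ifs with h
  · have : (t : ℝ) + 1 ≤ k := by exact_mod_cast ht
    have h0 : (0 : ℝ) ≤ t := Nat.cast_nonneg _
    nlinarith
  · rcases Nat.lt_or_ge i t with h1 | h1
    · have h2 : (i : ℝ) + 1 ≤ t := by exact_mod_cast h1
      nlinarith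
    · have h2 : (t : ℝ) ≤ i := by exact_mod_cast h1
      nlinarith

theorem ef_self {k i : ℕ} (hi : i < k) : ef k i (i : ℝ) = 0 := by
  unfold ef
  split_ifs with h
  · have : (i : ℝ) + 1 = k := by exact_mod_cast h
    rw [← this]; ring
  · ring

theorem ef_nxt {k i : ℕ} (hk : 3 ≤ k) (hi : i < k) : ef k i (nxt k i : ℝ) = 0 := by
  unfold ef nxt
  split_ifs with h
  · simp
  · push_cast; ring

theorem ef_prv {k i : ℕ} (hk : 3 ≤ k) (hi : i < k) : ef k (prv k i) (i : ℝ) = 0 := by
  unfold ef prv
  have hkR : (3 : ℝ) ≤ k := by exact_mod_cast hk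
  by_cases h : i = 0
  · rw [if_pos h, if_pos (by omega), h]
    simp
  · obtain ⟨s, rfl⟩ : ∃ s, i = s + 1 := ⟨i - 1, by omega⟩
    rw [if_neg h, if_neg (by omega)]
    push_cast
    simp

theorem ef_prv_prv {k i : ℕ} (hk : 3 ≤ k) (hi : i < k) : ef k (prv k i) (prv k i : ℝ) = 0 :=
  ef_self (prv_lt hk hi)

theorem ef_pos1 {k i : ℕ} (hk : 3 ≤ k) (hi : i < k) : 0 < ef k i (prv k i : ℝ) := by
  unfold ef prv
  have hkR : (3 : ℝ) ≤ k := by exact_mod_cast hk
  by_cases h : i = 0
  · have h1 : ((k - 1 : ℕ) : ℝ) = (k : ℝ) - 1 := by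
      rw [Nat.cast_sub (by omega)]; simp
    rw [if_pos h, if_neg (by omega), h1, h]
    push_cast
    nlinarith
  · obtain ⟨s, rfl⟩ : ∃ s, i = s + 1 := ⟨i - 1, by omega⟩
    rw [if_neg h]
    by_cases h2 : s + 1 + 1 = k
    · rw [if_pos h2]
      have h3 : (s : ℝ) + 1 + 1 = k := by exact_mod_cast h2
      simp only [Nat.add_sub_cancel]
      nlinarith
    · rw [if_neg h2]
      simp only [Nat.add_sub_cancel]
      push_cast
      nlinarith

theorem ef_pos2 {k i : ℕ} (hk : 3 ≤ k) (hi : i < k) : 0 < ef k (prv k i) (nxt k i : ℝ) := by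
  unfold ef prv nxt
  have hkR : (3 : ℝ) ≤ k := by exact_mod_cast hk
  by_cases h : i = 0
  · rw [if_pos h, if_pos (by omega), if_neg (by omega), h]
    push_cast
    nlinarith
  · obtain ⟨s, rfl⟩ : ∃ s, i = s + 1 := ⟨i - 1, by omega⟩
    rw [if_neg h, if_neg (by omega)]
    simp only [Nat.add_sub_cancel]
    by_cases h2 : s + 1 + 1 = k
    · rw [if_pos h2]
      have h3 : (s : ℝ) + 1 + 1 = k := by exact_mod_cast h2
      push_cast
      nlinarith
    · rw [if_neg h2]
      push_cast
      nlinarith

theorem prv_nxt {k i : ℕ} (hk : 3 ≤ k) (hi : i < k) : prv k (nxt k i) = i := by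
  unfold nxt
  split_ifs with h
  · unfold prv
    rw [if_pos rfl]; omega
  · unfold prv
    rw [if_neg (by omega)]; omega

theorem nxt_prv {k i : ℕ} (hk : 3 ≤ k) (hi : i < k) : nxt k (prv k i) = i := by
  unfold prv
  split_ifs with h
  · unfold nxt
    rw [if_pos (by omega)]; omega
  · unfold nxt
    rw [if_neg (by omega)]; omega

/-- linear coefficients of the polygon functional -/
noncomputable def efL (m k i : ℕ) : EuclideanSpace ℝ (Fin (m + 2)) →L[ℝ] ℝ :=
  (if i + 1 = k then (k : ℝ) - 1 else -(2 * (i : ℝ) + 1)) •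
    (EuclideanSpace.proj (0 : Fin (m + 2)) : EuclideanSpace ℝ (Fin (m + 2)) →L[ℝ] ℝ) +
  (if i + 1 = k then (-1 : ℝ) else 1) •
    (EuclideanSpace.proj (Fin.succ 0 : Fin (m + 2)) : EuclideanSpace ℝ (Fin (m + 2)) →L[ℝ] ℝ)

/-- constant term of the polygon functional -/
noncomputable def efb (k i : ℕ) : ℝ := if i + 1 = k then 0 else (i : ℝ) * (i + 1)

theorem efL_eval {m k i t : ℕ} (ε : Fin m → Bool) : efL m k i (pt t ε) + efb k i = ef k i (t : ℝ) := by
  have h1 : efL m k i (pt t ε) = (if i + 1 = k then (k : ℝ) - 1 else -(2 * (i : ℝ) + 1)) * t +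
      (if i + 1 = k then (-1 : ℝ) else 1) * (t : ℝ) ^ 2 := rfl
  rw [h1]
  unfold efb ef
  split_ifs <;> ring

/-- linear part of the cube functional -/
noncomputable def cuL (m : ℕ) (s : Bool) (j : Fin m) : EuclideanSpace ℝ (Fin (m + 2)) →L[ℝ] ℝ :=
  (if s then (-1 : ℝ) else 1) •
    (EuclideanSpace.proj (j.succ.succ : Fin (m + 2)) : EuclideanSpace ℝ (Fin (m + 2)) →L[ℝ] ℝ)

/-- constant term of the cube functional -/
noncomputable def cub (s : Bool) : ℝ := if s then 1 else 0

theorem cuL_eval {m t : ℕ} (s : Bool) (ε : Fin m → Bool) (j : Fin m) :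
    cuL m s j (pt t ε) + cub s = if ε j = s then 0 else 1 := by
  have h1 : cuL m s j (pt t ε) = (if s then (-1 : ℝ) else 1) * (if ε j then (1 : ℝ) else 0) := rfl
  rw [h1]
  unfold cub
  cases s <;> cases ε j <;> simp

/-- the parity pattern -/
def colr {m k : ℕ} (x : Fin k × (Fin m → Bool)) : Bool := decide ((x.1.1 + wt x.2) % 2 = 1)

theorem count_col {m a : ℕ} (β : Bool) :
    ((Finset.univ : Finset (Fin (2 * a) × (Fin m → Bool))).filter (fun x => colr x = β)).card =
      a * 2 ^ m := by
  classical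
  have h1 : ((Finset.univ : Finset (Fin (2 * a) × (Fin m → Bool))).filter
      (fun x => colr x = β)) = (Finset.univ : Finset (Fin a × (Fin m → Bool))).image
        (fun p => ((⟨2 * p.1 + (wt p.2 + β.toNat) % 2, by
          have := p.1.2; have := Nat.mod_lt (wt p.2 + β.toNat) (by norm_num : 0 < 2); omega⟩ :
            Fin (2 * a)), p.2)) := by
    ext ⟨i, ε⟩
    rw [Finset.mem_filter, Finset.mem_image]
    constructor
    · rintro ⟨_, h⟩
      refine ⟨(⟨i.1 / 2, by have := i.2; omega⟩, ε), Finset.mem_univ _, ?_⟩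
      simp only [Prod.mk.injEq, and_true]
      apply Fin.ext
      simp only
      unfold colr at h
      cases β
      · simp only [decide_eq_false_iff_not] at h
        simp only [Bool.toNat_false]
        omega
      · simp only [decide_eq_true_eq] at h
        simp only [Bool.toNat_true]
        omega
    · rintro ⟨⟨t, ε'⟩, _, h⟩
      simp only [Prod.mk.injEq] at h
      obtain ⟨h1, h2⟩ := h
      subst h2
      refine ⟨Finset.mem_univ _, ?_⟩
      have h3 := congrArg Fin.val h1
      simp only at h3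
      unfold colr
      cases β
      · simp only [Bool.toNat_false] at h3
        simp only [decide_eq_false_iff_not]
        omega
      · simp only [Bool.toNat_true] at h3
        simp only [decide_eq_true_eq]
        omega
  rw [h1, Finset.card_image_of_injective]
  · simp
  · rintro ⟨t, ε⟩ ⟨t', ε'⟩ h
    simp only [Prod.mk.injEq] at h
    obtain ⟨h1, h2⟩ := h
    subst h2
    have h3 := congrArg Fin.val h1
    simp only at h3
    have : t = t' := by
      apply Fin.ext
      omega
    rw [this]

/-- the product of a polygon with `2 a` vertices and a cube -/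
noncomputable def prodCert (m a : ℕ) (ha : 2 ≤ a) : Cert (m + 2) (a * 2 ^ m) where
  V := Fin (2 * a) × (Fin m → Bool)
  fin := inferInstance
  pt x := pt x.1.1 x.2
  inj := by
    rintro ⟨i, ε⟩ ⟨i', ε'⟩ h
    obtain ⟨h1, h2⟩ := pt_inj h
    simp only at h1 h2
    rw [Fin.ext h1, h2]
  L x := Fin.cons (efL m (2 * a) x.1.1) (Fin.cons (efL m (2 * a) (prv (2 * a) x.1.1))
    (fun j => cuL m (x.2 j) j))
  b x := Fin.cons (efb (2 * a) x.1.1) (Fin.cons (efb (2 * a) (prv (2 * a) x.1.1))
    (fun j => cub (x.2 j)))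
  nb x := Fin.cons (⟨prv (2 * a) x.1.1, prv_lt (by omega) x.1.2⟩, x.2)
    (Fin.cons (⟨nxt (2 * a) x.1.1, nxt_lt (by omega) x.1.2⟩, x.2)
      (fun j => (x.1, Function.update x.2 j (!x.2 j))))
  nonneg := by
    rintro ⟨i, ε⟩ p ⟨t, ε'⟩
    refine Fin.cases ?_ ?_ p
    · change 0 ≤ efL m (2 * a) i.1 (pt t.1 ε') + efb (2 * a) i.1
      rw [efL_eval]
      exact ef_nonneg t.2
    · intro q
      refine Fin.cases ?_ ?_ q
      · change 0 ≤ efL m (2 * a) (prv (2 * a) i.1) (pt t.1 ε') + efb (2 * a) (prv (2 * a) i.1)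
        rw [efL_eval]
        exact ef_nonneg t.2
      · intro j
        change 0 ≤ cuL m (ε j) j (pt t.1 ε') + cub (ε j)
        rw [cuL_eval]
        split_ifs <;> norm_num
  zero := by
    rintro ⟨i, ε⟩ p
    refine Fin.cases ?_ ?_ p
    · change efL m (2 * a) i.1 (pt i.1 ε) + efb (2 * a) i.1 = 0
      rw [efL_eval]
      exact ef_self i.2
    · intro q
      refine Fin.cases ?_ ?_ q
      · change efL m (2 * a) (prv (2 * a) i.1) (pt i.1 ε) + efb (2 * a) (prv (2 * a) i.1) = 0
        rw [efL_eval]
        exact ef_prv (by omega) i.2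
      · intro j
        change cuL m (ε j) j (pt i.1 ε) + cub (ε j) = 0
        rw [cuL_eval, if_pos rfl]
  pos := by
    rintro ⟨i, ε⟩ p
    refine Fin.cases ?_ ?_ p
    · change 0 < efL m (2 * a) i.1 (pt (prv (2 * a) i.1) ε) + efb (2 * a) i.1
      rw [efL_eval]
      exact ef_pos1 (by omega) i.2
    · intro q
      refine Fin.cases ?_ ?_ q
      · change 0 < efL m (2 * a) (prv (2 * a) i.1) (pt (nxt (2 * a) i.1) ε) +
          efb (2 * a) (prv (2 * a) i.1)
        rw [efL_eval]
        exact ef_pos2 (by omega) i.2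
      · intro j
        change 0 < cuL m (ε j) j (pt i.1 (Function.update ε j (!ε j))) + cub (ε j)
        rw [cuL_eval, Function.update_self]
        cases ε j <;> simp
  off := by
    rintro ⟨i, ε⟩ p p' hpp
    revert hpp
    refine Fin.cases ?_ ?_ p
    · refine Fin.cases ?_ ?_ p'
      · intro h; exact absurd rfl h
      · intro q'
        refine Fin.cases ?_ ?_ q'
        · intro _
          change efL m (2 * a) (prv (2 * a) i.1) (pt (prv (2 * a) i.1) ε) +
            efb (2 * a) (prv (2 * a) i.1) = 0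
          rw [efL_eval]
          exact ef_prv_prv (by omega) i.2
        · intro j' _
          change cuL m (ε j') j' (pt (prv (2 * a) i.1) ε) + cub (ε j') = 0
          rw [cuL_eval, if_pos rfl]
    · intro q
      refine Fin.cases ?_ ?_ q
      · refine Fin.cases ?_ ?_ p'
        · intro _
          change efL m (2 * a) i.1 (pt (nxt (2 * a) i.1) ε) + efb (2 * a) i.1 = 0
          rw [efL_eval]
          exact ef_nxt (by omega) i.2
        · intro q'
          refine Fin.cases ?_ ?_ q'
          · intro h; exact absurd rfl h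
          · intro j' _
            change cuL m (ε j') j' (pt (nxt (2 * a) i.1) ε) + cub (ε j') = 0
            rw [cuL_eval, if_pos rfl]
      · intro j
        refine Fin.cases ?_ ?_ p'
        · intro _
          change efL m (2 * a) i.1 (pt i.1 (Function.update ε j (!ε j))) + efb (2 * a) i.1 = 0
          rw [efL_eval]
          exact ef_self i.2
        · intro q'
          refine Fin.cases ?_ ?_ q'
          · intro _
            change efL m (2 * a) (prv (2 * a) i.1) (pt i.1 (Function.update ε j (!ε j))) +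
              efb (2 * a) (prv (2 * a) i.1) = 0
            rw [efL_eval]
            exact ef_prv (by omega) i.2
          · intro j' h
            have hjj : j' ≠ j := fun h' => h (by rw [h'])
            change cuL m (ε j') j' (pt i.1 (Function.update ε j (!ε j))) + cub (ε j') = 0
            rw [cuL_eval, Function.update_of_ne hjj, if_pos rfl]
  sym := by
    rintro ⟨i, ε⟩ p
    refine Fin.cases ?_ ?_ p
    · refine ⟨Fin.succ 0, ?_⟩
      change ((⟨nxt (2 * a) (prv (2 * a) i.1), _⟩, ε) : Fin (2 * a) × (Fin m → Bool)) = (i, ε)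
      simp only [nxt_prv (by omega : 3 ≤ 2 * a) i.2]
    · intro q
      refine Fin.cases ?_ ?_ q
      · refine ⟨0, ?_⟩
        change ((⟨prv (2 * a) (nxt (2 * a) i.1), _⟩, ε) : Fin (2 * a) × (Fin m → Bool)) = (i, ε)
        simp only [prv_nxt (by omega : 3 ≤ 2 * a) i.2]
      · intro j
        refine ⟨j.succ.succ, ?_⟩
        change ((i, Function.update (Function.update ε j (!ε j)) j
          (!(Function.update ε j (!ε j)) j)) : Fin (2 * a) × (Fin m → Bool)) = (i, ε)
        rw [Function.update_self, Bool.not_not, Function.update_idem, Function.update_eq_self]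
  col := colr
  alt := by
    rintro ⟨i, ε⟩ p
    refine Fin.cases ?_ ?_ p
    · change decide ((prv (2 * a) i.1 + wt ε) % 2 = 1) ≠ decide ((i.1 + wt ε) % 2 = 1)
      rw [Ne, decide_eq_decide]
      unfold prv
      have := i.2
      split_ifs <;> omega
    · intro q
      refine Fin.cases ?_ ?_ q
      · change decide ((nxt (2 * a) i.1 + wt ε) % 2 = 1) ≠ decide ((i.1 + wt ε) % 2 = 1)
        rw [Ne, decide_eq_decide]
        unfold nxt
        have := i.2
        split_ifs <;> omega
      · intro j
        change decide ((i.1 + wt (Function.update ε j (!ε j))) % 2 = 1) ≠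
          decide ((i.1 + wt ε) % 2 = 1)
        rw [Ne, decide_eq_decide]
        have := wt_flip ε j
        omega
  cc := fun β => count_col β

end Pool.Agent.H63R3.Sep
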