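import Mathlib
import Pool.Agent.H63R3.Cert2

set_option autoImplicit false

namespace Pool.Agent.H63R3.Sep

open Finset

namespace Cert

variable {d n : ℕ} (c : Cert d n) (v : c.V) (ε : ℝ)

open scoped Classical in
/-- linear part of the functionals at a new vertex -/
noncomputable def gL (T : Finset (Fin d)) (j : Fin d) : EuclideanSpace ℝ (Fin d) →L[ℝ] ℝ :=
  if j ∈ T then (∑ i, c.L v i) - (1 / 2 : ℝ) • c.L v j else c.L v j

open scoped Classical in
/-- constant part of the functionals at a new vertex -/
noncomputable def gb (T : Finset (Fin d)) (j : Fin d) : ℝ :=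
  if j ∈ T then (∑ i, c.b v i) - (1 / 2 : ℝ) * c.b v j - ε else c.b v j

theorem g_eval_in {T : Finset (Fin d)} {j : Fin d} (h : j ∈ T) (y : EuclideanSpace ℝ (Fin d)) :
    c.gL v T j y + c.gb v ε T j =
      ∑ i, (c.L v i y + c.b v i) - (1 / 2) * (c.L v j y + c.b v j) - ε := by
  unfold gL gb
  rw [if_pos h, if_pos h, Finset.sum_add_distrib]
  simp
  ring

theorem g_eval_out {T : Finset (Fin d)} {j : Fin d} (h : j ∉ T) (y : EuclideanSpace ℝ (Fin d)) :
    c.gL v T j y + c.gb v ε T j = c.L v j y + c.b v j := by
  unfold gL gb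
  rw [if_neg h, if_neg h]

open scoped Classical in
/-- the index of the edge back to a neighbour of `v` -/
noncomputable def bk (hd : 1 ≤ d) (x : c.V) : Fin d :=
  if h : ∃ j, c.nb v j = x then h.choose else ⟨0, hd⟩

theorem bk_spec (hd : 1 ≤ d) {x : c.V} {i : Fin d} (h : c.nb x i = v) :
    c.nb v (c.bk v hd x) = x := by
  have h1 : ∃ j, c.nb v j = x := by
    obtain ⟨j, hj⟩ := c.sym x i
    rw [h] at hj
    exact ⟨j, hj⟩
  unfold bk
  rw [dif_pos h1]
  exact h1.choose_spec

theorem bk_nb (hd : 1 ≤ d) (j : Fin d) : c.bk v hd (c.nb v j) = j := by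
  have h1 : ∃ j', c.nb v j' = c.nb v j := ⟨j, rfl⟩
  unfold bk
  rw [dif_pos h1]
  exact c.nb_inj v h1.choose_spec

open scoped Classical in
/-- neighbours in the glued polytope -/
noncomputable def gnb (hd : 1 ≤ d) :
    ({x : c.V // x ≠ v} ⊕ {T : Finset (Fin d) // T.Nonempty}) → Fin d →
      ({x : c.V // x ≠ v} ⊕ {T : Finset (Fin d) // T.Nonempty}) :=
  Sum.elim
    (fun x i => if h : c.nb x.1 i = v then Sum.inr ⟨{c.bk v hd x.1}, Finset.singleton_nonempty _⟩
      else Sum.inl ⟨c.nb x.1 i, h⟩)
    (fun T j => if j ∈ T.1 then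
      (if h2 : (T.1.erase j).Nonempty then Sum.inr ⟨T.1.erase j, h2⟩
        else Sum.inl ⟨c.nb v j, c.nb_ne v j⟩)
      else Sum.inr ⟨insert j T.1, Finset.insert_nonempty _ _⟩)

variable (hd : 1 ≤ d)

theorem gnb1 {x : {x : c.V // x ≠ v}} {i : Fin d} (h : c.nb x.1 i = v) :
    c.gnb v hd (Sum.inl x) i = Sum.inr ⟨{c.bk v hd x.1}, Finset.singleton_nonempty _⟩ := by
  unfold gnb
  simp only [Sum.elim_inl]
  rw [dif_pos h]

theorem gnb2 {x : {x : c.V // x ≠ v}} {i : Fin d} (h : c.nb x.1 i ≠ v) :
    c.gnb v hd (Sum.inl x) i = Sum.inl ⟨c.nb x.1 i, h⟩ := by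
  unfold gnb
  simp only [Sum.elim_inl]
  rw [dif_neg h]

theorem gnb3 {T : {T : Finset (Fin d) // T.Nonempty}} {j : Fin d} (h : j ∈ T.1)
    (h2 : (T.1.erase j).Nonempty) : c.gnb v hd (Sum.inr T) j = Sum.inr ⟨T.1.erase j, h2⟩ := by
  classical
  unfold gnb
  simp only [Sum.elim_inr]
  rw [if_pos h, dif_pos h2]

theorem gnb4 {T : {T : Finset (Fin d) // T.Nonempty}} {j : Fin d} (h : j ∈ T.1)
    (h2 : ¬ (T.1.erase j).Nonempty) :
    c.gnb v hd (Sum.inr T) j = Sum.inl ⟨c.nb v j, c.nb_ne v j⟩ := by
  classical
  unfold gnb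
  simp only [Sum.elim_inr]
  rw [if_pos h, dif_neg h2]

theorem gnb5 {T : {T : Finset (Fin d) // T.Nonempty}} {j : Fin d} (h : j ∉ T.1) :
    c.gnb v hd (Sum.inr T) j = Sum.inr ⟨insert j T.1, Finset.insert_nonempty _ _⟩ := by
  classical
  unfold gnb
  simp only [Sum.elim_inr]
  rw [if_neg h]

/-- colours in the glued polytope -/
def gcol : ({x : c.V // x ≠ v} ⊕ {T : Finset (Fin d) // T.Nonempty}) → Bool :=
  Sum.elim (fun x => c.col x.1) (fun T => if T.1.card % 2 = 1 then c.col v else !(c.col v))

theorem count_glue (hd : 1 ≤ d)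
    (inst : Fintype ({x : c.V // x ≠ v} ⊕ {T : Finset (Fin d) // T.Nonempty})) (β : Bool) :
    ((@Finset.univ _ inst).filter (fun x => c.gcol v x = β)).card = n + 2 ^ (d - 1) - 1 := by
  classical
  letI := c.fin
  obtain rfl : inst = instFintypeSum _ _ := Subsingleton.elim _ _
  rw [Finset.card_filter, Fintype.sum_sum_type]
  have hA : ∑ x : {x : c.V // x ≠ v}, (if c.gcol v (Sum.inl x) = β then 1 else 0 : ℕ) =
      ∑ x ∈ (Finset.univ : Finset c.V).erase v, (if c.col x = β then 1 else 0 : ℕ) := by
    rw [Finset.sum_subtype ((Finset.univ : Finset c.V).erase v) (p := fun x => x ≠ v)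
      (by intro x; simp)]
    rfl
  have hB : ∑ T : {T : Finset (Fin d) // T.Nonempty}, (if c.gcol v (Sum.inr T) = β then 1 else 0 : ℕ) =
      ∑ T ∈ (Finset.univ : Finset (Finset (Fin d))).erase ∅,
        (if (if T.card % 2 = 1 then c.col v else !(c.col v)) = β then 1 else 0 : ℕ) := by
    rw [Finset.sum_subtype ((Finset.univ : Finset (Finset (Fin d))).erase ∅)
      (p := fun T => T.Nonempty) (by intro T; simp [Finset.nonempty_iff_ne_empty])]
    rfl
  rw [hA, hB]
  have h1 := Finset.add_sum_erase (Finset.univ : Finset c.V)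
    (fun x => (if c.col x = β then 1 else 0 : ℕ)) (Finset.mem_univ v)
  have h2 := Finset.add_sum_erase (Finset.univ : Finset (Finset (Fin d)))
    (fun T => (if (if T.card % 2 = 1 then c.col v else !(c.col v)) = β then 1 else 0 : ℕ))
    (Finset.mem_univ ∅)
  have h3 := c.cc β
  rw [Finset.card_filter] at h3
  rw [h3] at h1
  obtain ⟨h4, h5⟩ := count_par hd
  rw [Finset.card_filter] at h4 h5
  have hpow : 0 < 2 ^ (d - 1) := by positivity
  by_cases hβ : c.col v = β
  · have h6 : ∑ T : Finset (Fin d),
        (if (if T.card % 2 = 1 then c.col v else !(c.col v)) = β then 1 else 0 : ℕ) =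
        2 ^ (d - 1) := by
      rw [← h4]
      apply Finset.sum_congr rfl
      intro T _
      rw [hβ]
      by_cases h : T.card % 2 = 1
      · simp [h]
      · simp [h]
    rw [h6] at h2
    rw [if_pos hβ] at h1
    have h7 : (if (if (∅ : Finset (Fin d)).card % 2 = 1 then c.col v else !(c.col v)) = β then 1
        else 0 : ℕ) = 0 := by
      rw [hβ]; simp
    rw [h7] at h2
    omega
  · have hβ' : (!(c.col v)) = β := by
      revert hβ
      cases c.col v <;> cases β <;> simp
    have h6 : ∑ T : Finset (Fin d),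
        (if (if T.card % 2 = 1 then c.col v else !(c.col v)) = β then 1 else 0 : ℕ) =
        2 ^ (d - 1) := by
      rw [← h5]
      apply Finset.sum_congr rfl
      intro T _
      by_cases h : T.card % 2 = 1
      · rw [if_pos h, if_neg hβ, if_neg (by omega)]
      · rw [if_neg h, if_pos hβ', if_pos (by omega)]
    rw [h6] at h2
    rw [if_neg hβ] at h1
    have h7 : (if (if (∅ : Finset (Fin d)).card % 2 = 1 then c.col v else !(c.col v)) = β then 1
        else 0 : ℕ) = 1 := by
      rw [if_neg (show ¬ (∅ : Finset (Fin d)).card % 2 = 1 by simp), if_pos hβ']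
    rw [h7] at h2
    omega

open scoped Classical in
/-- gluing a cube on a vertex -/
noncomputable def glue (hd : 1 ≤ d) (hs : c.Small v ε) : Cert d (n + 2 ^ (d - 1) - 1) where
  V := {x : c.V // x ≠ v} ⊕ {T : Finset (Fin d) // T.Nonempty}
  fin := by
    have := c.fin
    exact inferInstance
  pt := Sum.elim (fun x => c.pt x.1) (fun T => c.np v ε T.1)
  inj := by
    have hkey : ∀ (x : {x : c.V // x ≠ v}) (T : {T : Finset (Fin d) // T.Nonempty}),
        c.pt x.1 ≠ c.np v ε T.1 := by
      intro x T h
      have h1 := hs.far x.1 x.2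
      rw [h, c.sum_f_np, wg_mul c hs T.2] at h1
      have h2 := wg_le c hs T.2
      linarith
    rintro (x | T) (y | T') h
    · simp only [Sum.elim_inl] at h
      rw [Subtype.ext (c.inj h)]
    · exact absurd h (hkey x T')
    · exact absurd h.symm (hkey y T)
    · simp only [Sum.elim_inr] at h
      have : T.1 = T'.1 := by
        ext j
        have h1 := c.f_np v ε T.1 j
        have h2 := c.f_np v ε T'.1 j
        rw [h, h2] at h1
        have h3 := wg_pos c hs T.2
        have h4 := wg_pos c hs T'.2
        by_cases h5 : j ∈ T.1 <;> by_cases h6 : j ∈ T'.1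
        · exact ⟨fun _ => h6, fun _ => h5⟩
        · rw [if_pos h5, if_neg h6] at h1
          linarith
        · rw [if_neg h5, if_pos h6] at h1
          linarith
        · exact ⟨fun h => absurd h h5, fun h => absurd h h6⟩
      rw [Subtype.ext this]
  L := Sum.elim (fun x => c.L x.1) (fun T => c.gL v T.1)
  b := Sum.elim (fun x => c.b x.1) (fun T => c.gb v ε T.1)
  nb := c.gnb v hd
  nonneg := by
    rintro (x | T) i (y | T')
    · exact c.nonneg x.1 i y.1
    · exact old_nonneg c hs T'.2 x.1 i
    · simp only [Sum.elim_inl, Sum.elim_inr]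
      by_cases h : i ∈ T.1
      · rw [c.g_eval_in v ε h]
        exact (g_old c hs y.2 i).le
      · rw [c.g_eval_out v ε h]
        exact c.nonneg v i y.1
    · simp only [Sum.elim_inr]
      have hw := wg_pos c hs T'.2
      by_cases h : i ∈ T.1
      · rw [c.g_eval_in v ε h, g_np c hs T'.2]
        split_ifs
        · exact le_refl _
        · linarith
      · rw [c.g_eval_out v ε h, c.f_np]
        split_ifs
        · exact hw.le
        · exact le_refl _
  zero := by
    rintro (x | T) i
    · exact c.zero x.1 i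
    · simp only [Sum.elim_inr]
      by_cases h : i ∈ T.1
      · rw [c.g_eval_in v ε h, g_np c hs T.2, if_pos h]
      · rw [c.g_eval_out v ε h, c.f_np, if_neg h]
  pos := by
    rintro (x | T) i
    · by_cases h : c.nb x.1 i = v
      · rw [c.gnb1 v hd h]
        simp only [Sum.elim_inl, Sum.elim_inr]
        rw [c.eval_np v ε]
        have h1 := sum_lt c hs (Finset.singleton_nonempty (c.bk v hd x.1))
        have h2 := c.pos x.1 i
        rw [h] at h2
        rw [Finset.sum_singleton] at h1 ⊢
        rw [Finset.sum_singleton, c.bk_spec v hd h, c.zero, mul_zero, add_zero]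
        exact mul_pos h2 (by linarith)
      · rw [c.gnb2 v hd h]
        exact c.pos x.1 i
    · by_cases h : i ∈ T.1
      · by_cases h2 : (T.1.erase i).Nonempty
        · rw [c.gnb3 v hd h h2]
          simp only [Sum.elim_inr]
          rw [c.g_eval_in v ε h, g_np c hs h2, if_neg (Finset.notMem_erase _ _)]
          have := wg_pos c hs h2
          linarith
        · rw [c.gnb4 v hd h h2]
          simp only [Sum.elim_inl, Sum.elim_inr]
          rw [c.g_eval_in v ε h]
          exact g_old c hs (c.nb_ne v i) i
      · rw [c.gnb5 v hd h]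
        simp only [Sum.elim_inr]
        rw [c.g_eval_out v ε h, c.f_np, if_pos (Finset.mem_insert_self _ _)]
        exact wg_pos c hs (Finset.insert_nonempty _ _)
  off := by
    rintro (x | T) i j hij
    · by_cases h : c.nb x.1 i = v
      · rw [c.gnb1 v hd h]
        simp only [Sum.elim_inl, Sum.elim_inr]
        rw [c.eval_np v ε]
        have h2 := c.off x.1 i j hij
        rw [h] at h2
        rw [h2, zero_mul, zero_add, Finset.sum_singleton, c.bk_spec v hd h, c.zero, mul_zero]
      · rw [c.gnb2 v hd h]
        exact c.off x.1 i j hij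
    · by_cases h : i ∈ T.1
      · by_cases h2 : (T.1.erase i).Nonempty
        · rw [c.gnb3 v hd h h2]
          simp only [Sum.elim_inr]
          by_cases h3 : j ∈ T.1
          · rw [c.g_eval_in v ε h3, g_np c hs h2, if_pos (Finset.mem_erase.2 ⟨hij, h3⟩)]
          · rw [c.g_eval_out v ε h3, c.f_np, if_neg (fun h4 => h3 (Finset.mem_of_mem_erase h4))]
        · rw [c.gnb4 v hd h h2]
          simp only [Sum.elim_inl, Sum.elim_inr]
          have h3 : j ∉ T.1 := fun h3 => h2 ⟨j, Finset.mem_erase.2 ⟨hij, h3⟩⟩
          rw [c.g_eval_out v ε h3]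
          exact c.off v i j hij
      · rw [c.gnb5 v hd h]
        simp only [Sum.elim_inr]
        by_cases h3 : j ∈ T.1
        · rw [c.g_eval_in v ε h3, g_np c hs (Finset.insert_nonempty _ _),
            if_pos (Finset.mem_insert_of_mem h3)]
        · rw [c.g_eval_out v ε h3, c.f_np, if_neg]
          intro h4
          rcases Finset.mem_insert.1 h4 with h5 | h5
          · exact hij h5
          · exact h3 h5
  sym := by
    rintro (x | T) i
    · by_cases h : c.nb x.1 i = v
      · rw [c.gnb1 v hd h]
        refine ⟨c.bk v hd x.1, ?_⟩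
        rw [c.gnb4 v hd (Finset.mem_singleton_self _) (by simp)]
        congr 1
        exact Subtype.ext (c.bk_spec v hd h)
      · rw [c.gnb2 v hd h]
        obtain ⟨j, hj⟩ := c.sym x.1 i
        refine ⟨j, ?_⟩
        have h2 : c.nb (⟨c.nb x.1 i, h⟩ : {x : c.V // x ≠ v}).1 j ≠ v := by
          simp only
          rw [hj]
          exact x.2
        rw [c.gnb2 v hd h2]
        congr 1
        exact Subtype.ext hj
    · by_cases h : i ∈ T.1
      · by_cases h2 : (T.1.erase i).Nonempty
        · rw [c.gnb3 v hd h h2]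
          refine ⟨i, ?_⟩
          rw [c.gnb5 v hd (Finset.notMem_erase _ _)]
          congr 1
          exact Subtype.ext (Finset.insert_erase h)
        · rw [c.gnb4 v hd h h2]
          obtain ⟨j, hj⟩ := c.sym v i
          refine ⟨j, ?_⟩
          rw [c.gnb1 v hd hj]
          congr 1
          apply Subtype.ext
          simp only
          rw [c.bk_nb v hd i]
          rw [Finset.not_nonempty_iff_eq_empty, Finset.erase_eq_empty_iff] at h2
          rcases h2 with h2 | h2
          · exact absurd h2 T.2.ne_empty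
          · exact h2.symm
      · rw [c.gnb5 v hd h]
        refine ⟨i, ?_⟩
        have h2 : ((insert i T.1).erase i) = T.1 := Finset.erase_insert h
        have h3 : ((insert i T.1).erase i).Nonempty := by rw [h2]; exact T.2
        rw [c.gnb3 v hd (Finset.mem_insert_self _ _) h3]
        congr 1
        exact Subtype.ext h2
  col := c.gcol v
  alt := by
    rintro (x | T) i
    · by_cases h : c.nb x.1 i = v
      · rw [c.gnb1 v hd h]
        have h1 := c.alt x.1 i
        rw [h] at h1
        simpa [gcol] using h1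
      · rw [c.gnb2 v hd h]
        exact c.alt x.1 i
    · by_cases h : i ∈ T.1
      · by_cases h2 : (T.1.erase i).Nonempty
        · rw [c.gnb3 v hd h h2]
          simp only [gcol, Sum.elim_inr]
          have h3 := Finset.card_erase_of_mem h
          have h4 := Finset.card_pos.2 T.2
          by_cases h5 : T.1.card % 2 = 1
          · rw [if_pos h5, if_neg (by omega)]
            cases c.col v <;> simp
          · rw [if_neg h5, if_pos (by omega)]
            cases c.col v <;> simp
        · rw [c.gnb4 v hd h h2]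
          simp only [gcol, Sum.elim_inl, Sum.elim_inr]
          rw [Finset.not_nonempty_iff_eq_empty, Finset.erase_eq_empty_iff] at h2
          rcases h2 with h2 | h2
          · exact absurd h2 T.2.ne_empty
          · rw [h2, Finset.card_singleton, if_pos (by norm_num)]
            exact c.alt v i
      · rw [c.gnb5 v hd h]
        simp only [gcol, Sum.elim_inr]
        have h3 := Finset.card_insert_of_notMem h
        by_cases h5 : T.1.card % 2 = 1
        · rw [if_pos h5, if_neg (by omega)]
          cases c.col v <;> simp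
        · rw [if_neg h5, if_pos (by omega)]
          cases c.col v <;> simp
  cc := fun β => c.count_glue v hd _ β

end Cert

end Pool.Agent.H63R3.Sep
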