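import Mathlib
import Pool.Agent.H63R3.Cert3
import Pool.Agent.H63R3.Cert4

set_option autoImplicit false

namespace Pool.Agent.H63R3.Sep

open Finset

theorem cert_iter (m a j : ℕ) (ha : 2 ≤ a) :
    Nonempty (Cert (m + 2) (a * 2 ^ m + j * (2 ^ (m + 1) - 1))) := by
  induction j with
  | zero =>
    rw [Nat.zero_mul, Nat.add_zero]
    exact ⟨prodCert m a ha⟩
  | succ j ih =>
    obtain ⟨c⟩ := ih
    have hpos : 0 < a * 2 ^ m + j * (2 ^ (m + 1) - 1) := by
      have : 0 < 2 ^ m := by positivity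
      have : 0 < a * 2 ^ m := Nat.mul_pos (by omega) this
      omega
    have hne : ((@Finset.univ c.V c.fin).filter (fun x => c.col x = true)).Nonempty := by
      rw [← Finset.card_pos, c.cc]
      exact hpos
    obtain ⟨v, _⟩ := hne
    obtain ⟨ε, hs⟩ := c.exists_small v
    have h1 : a * 2 ^ m + (j + 1) * (2 ^ (m + 1) - 1) =
        a * 2 ^ m + j * (2 ^ (m + 1) - 1) + 2 ^ (m + 2 - 1) - 1 := by
      have h2 : 1 ≤ 2 ^ (m + 1) := Nat.one_le_two_pow
      have h3 : m + 2 - 1 = m + 1 := by omega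
      rw [h3, Nat.add_mul, Nat.one_mul]
      omega
    rw [h1]
    exact ⟨c.glue v ε (by omega) hs⟩

theorem attained_iter (m a j : ℕ) (ha : 2 ≤ a) :
    Attained (m + 2) (a * 2 ^ m + j * (2 ^ (m + 1) - 1)) (a * 2 ^ m + j * (2 ^ (m + 1) - 1)) := by
  obtain ⟨c⟩ := cert_iter m a j ha
  apply Cert.attained c
  have : 0 < 2 ^ m := by positivity
  have : 0 < a * 2 ^ m := Nat.mul_pos (by omega) this
  omega

theorem repr_large (m n : ℕ) (hn : 2 ^ (2 * m + 1) ≤ n) :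
    ∃ a j, 2 ≤ a ∧ n = a * 2 ^ m + j * (2 ^ (m + 1) - 1) := by
  obtain ⟨K, hK⟩ : ∃ K, K = 2 ^ m := ⟨_, rfl⟩
  have hK0 : 0 < K := by rw [hK]; positivity
  have h1 : 2 ^ (m + 1) = 2 * K := by rw [hK]; ring
  have h2 : 2 ^ (2 * m + 1) = 2 * K * K := by rw [hK]; ring
  rw [h2] at hn
  rw [h1, ← hK]
  obtain ⟨j, hj, q, hq⟩ : ∃ j < K, ∃ q, n + j = q * K := by
    refine ⟨(K - n % K) % K, Nat.mod_lt _ hK0, ?_⟩
    rcases Nat.eq_zero_or_pos (n % K) with h | h
    · refine ⟨n / K, ?_⟩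
      rw [h, Nat.sub_zero, Nat.mod_self, Nat.add_zero]
      have := Nat.div_add_mod n K
      rw [h, Nat.add_zero, mul_comm] at this
      exact this.symm
    · refine ⟨n / K + 1, ?_⟩
      have h3 := Nat.mod_lt n hK0
      rw [Nat.mod_eq_of_lt (by omega)]
      have h4 := Nat.div_add_mod n K
      rw [Nat.add_mul, Nat.one_mul, mul_comm (n / K) K]
      omega
  have hq2 : 2 * K ≤ q := by
    by_contra hcon
    push Not at hcon
    have h3 : q + 1 ≤ 2 * K := hcon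
    have h4 : (q + 1) * K ≤ 2 * K * K := Nat.mul_le_mul_right K h3
    rw [Nat.add_mul, Nat.one_mul] at h4
    omega
  refine ⟨q - 2 * j, j, by omega, ?_⟩
  obtain ⟨r, hr⟩ : ∃ r, q = r + 2 * j := ⟨q - 2 * j, by omega⟩
  have h5 : q - 2 * j = r := by omega
  rw [h5]
  obtain ⟨w, hw⟩ : ∃ w, 2 * K = w + 1 := ⟨2 * K - 1, by omega⟩
  have h6 : 2 * K - 1 = w := by omega
  rw [h6]
  rw [hr, Nat.add_mul] at hq
  have h7 : 2 * j * K = j * w + j := by
    have : 2 * j * K = j * (2 * K) := by ring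
    rw [this, hw]
    ring
  omega

theorem attained_large (m n : ℕ) (hn : 2 ^ (2 * m + 1) ≤ n) : Attained (m + 2) n n := by
  obtain ⟨a, j, ha, h⟩ := repr_large m n hn
  rw [h]
  exact attained_iter m a j ha

end Pool.Agent.H63R3.Sep
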