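import Mathlib

/-!
# Asymptotic frequency of ones in words avoiding a word: a squeeze lemma
-/

set_option autoImplicit false

open Filter Topology

namespace Pool.Agent.H63R3.Freq

/-- weighted count of the words `l` of length `n` such that `p ++ l` avoids `w` -/
noncomputable def G (w p : List Bool) (n : ℕ) (x : ℝ) : ℝ :=
  ∑ u : Fin n → Bool, if w <:+: (p ++ List.ofFn u) then 0 else x ^ (List.ofFn u).count true

theorem G_zero (w p : List Bool) (x : ℝ) (h : ¬ w <:+: p) : G w p 0 x = 1 := by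
  simp [G, h]

theorem G_dead (w p : List Bool) (n : ℕ) (x : ℝ) (h : w <:+: p) : G w p n x = 0 := by
  unfold G
  apply Finset.sum_eq_zero
  intro u _
  rw [if_pos]
  exact h.trans (List.prefix_append _ _).isInfix

theorem G_congr (w p p' : List Bool) (n : ℕ) (x : ℝ)
    (h : ∀ l, w <:+: (p ++ l) ↔ w <:+: (p' ++ l)) : G w p n x = G w p' n x := by
  unfold G
  apply Finset.sum_congr rfl
  intro u _
  simp only [h]

theorem sum_cons {n : ℕ} (f : (Fin (n + 1) → Bool) → ℝ) :
    ∑ u, f u = ∑ u : Fin n → Bool, f (Fin.cons false u) +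
      ∑ u : Fin n → Bool, f (Fin.cons true u) := by
  rw [← (Fin.consEquiv (fun _ : Fin (n + 1) => Bool)).sum_comp, Fintype.sum_prod_type]
  rw [Fintype.sum_bool, add_comm]
  rfl

theorem G_succ (w p : List Bool) (n : ℕ) (x : ℝ) :
    G w p (n + 1) x = G w (p ++ [false]) n x + x * G w (p ++ [true]) n x := by
  unfold G
  rw [sum_cons, Finset.mul_sum]
  congr 1
  · apply Finset.sum_congr rfl
    intro u _
    rw [List.ofFn_cons]
    simp
  · apply Finset.sum_congr rfl
    intro u _
    rw [List.ofFn_cons]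
    simp only [List.append_assoc, List.singleton_append, List.count_cons_self, mul_ite, mul_zero]
    congr 1
    rw [pow_succ, mul_comm]

/-- the words of length `n` that do not contain `w` -/
def Omega (w : List Bool) (n : ℕ) : Finset (Fin n → Bool) :=
  Finset.univ.filter fun u => ¬ w <:+: List.ofFn u

/-- the average proportion of ones in the words of length `n` that do not contain `w` -/
noncomputable def ratio (w : List Bool) (n : ℕ) : ℝ :=
  (∑ u ∈ Omega w n, ((List.ofFn u).count true : ℝ)) / ((n : ℝ) * ((Omega w n).card : ℝ))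

theorem G_eq (w : List Bool) (n : ℕ) (x : ℝ) :
    G w [] n x = ∑ u ∈ Omega w n, x ^ (List.ofFn u).count true := by
  unfold G Omega
  rw [Finset.sum_filter]
  apply Finset.sum_congr rfl
  intro u _
  by_cases h : w <:+: List.ofFn u <;> simp [h]

theorem G_one (w : List Bool) (n : ℕ) : G w [] n 1 = ((Omega w n).card : ℝ) := by
  rw [G_eq]; simp

/-- Jensen -/
theorem jensen (w : List Bool) (n : ℕ) (x : ℝ) (hx : 0 < x) (hne : (Omega w n).Nonempty) :
    (∑ u ∈ Omega w n, ((List.ofFn u).count true : ℝ)) / ((Omega w n).card : ℝ) * Real.log x ≤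
      Real.log (G w [] n x) - Real.log (G w [] n 1) := by
  have hc : (0 : ℝ) < ((Omega w n).card : ℝ) := by exact_mod_cast hne.card_pos
  have h := Real.geom_mean_le_arith_mean_weighted (Omega w n) (fun _ => 1 / ((Omega w n).card : ℝ))
    (fun u => x ^ (List.ofFn u).count true) (fun _ _ => by positivity)
    (by rw [Finset.sum_const, nsmul_eq_mul]; field_simp) (fun _ _ => by positivity)
  have hG : 0 < G w [] n x := by
    rw [G_eq]
    exact Finset.sum_pos (fun _ _ => by positivity) hne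
  have h1 : (∑ u ∈ Omega w n, 1 / ((Omega w n).card : ℝ) * x ^ (List.ofFn u).count true) =
      G w [] n x / ((Omega w n).card : ℝ) := by
    rw [← Finset.mul_sum, ← G_eq]; ring
  rw [h1] at h
  have h2 : 0 < ∏ i ∈ Omega w n, (x ^ (List.ofFn i).count true) ^ (1 / ((Omega w n).card : ℝ)) :=
    Finset.prod_pos (fun _ _ => by positivity)
  have h3 := Real.log_le_log h2 h
  rw [Real.log_prod (fun i _ => by positivity), Real.log_div hG.ne' hc.ne'] at h3
  rw [G_one]
  refine le_trans (le_of_eq ?_) h3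
  rw [Finset.sum_div, Finset.sum_mul]
  apply Finset.sum_congr rfl
  intro u _
  rw [Real.log_rpow (by positivity), Real.log_pow]
  ring

/-- the squeeze lemma -/
theorem ratio_tendsto (w : List Bool) (X : ℝ → ℝ) (z0 D : ℝ) (hz0 : 0 < z0) (hX1 : X z0 = 1)
    (hD : D < 0) (hder : HasDerivAt X D z0)
    (hb : ∀ᶠ z in 𝓝 z0, ∃ c1 c2 : ℝ, 0 < c1 ∧ 0 < c2 ∧ ∀ n : ℕ,
      c1 * (1 / z) ^ n ≤ G w [] n (X z) ∧ G w [] n (X z) ≤ c2 * (1 / z) ^ n) :
    Tendsto (ratio w) atTop (𝓝 (-1 / (z0 * D))) := by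
  obtain ⟨a1, a2, ha1, ha2, ha⟩ := hb.self_of_nhds
  rw [hX1] at ha
  have hne : ∀ n, (Omega w n).Nonempty := by
    intro n
    by_contra hcon
    rw [Finset.not_nonempty_iff_eq_empty] at hcon
    have h1 := (ha n).1
    rw [G_one, hcon, Finset.card_empty, Nat.cast_zero] at h1
    have : 0 < a1 * (1 / z0) ^ n := by positivity
    linarith
  -- the key inequality
  have key : ∀ z : ℝ, 0 < z → 0 < X z → ∀ c2 : ℝ, 0 < c2 →
      (∀ n : ℕ, G w [] n (X z) ≤ c2 * (1 / z) ^ n) → (∀ n : ℕ, 0 < G w [] n (X z)) →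
      ∀ n : ℕ, 0 < n → ratio w n * Real.log (X z) ≤
        (Real.log c2 - Real.log a1) / n + (Real.log z0 - Real.log z) := by
    intro z hz hXz c2 hc2 hup hpos n hn
    have hn' : (0 : ℝ) < n := by exact_mod_cast hn
    have hj := jensen w n (X z) hXz (hne n)
    have h1 : Real.log (G w [] n (X z)) ≤ Real.log c2 - n * Real.log z := by
      refine le_trans (Real.log_le_log (hpos n) (hup n)) (le_of_eq ?_)
      rw [Real.log_mul hc2.ne' (by positivity), Real.log_pow, one_div, Real.log_inv]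
      ring
    have h2 : Real.log a1 - n * Real.log z0 ≤ Real.log (G w [] n 1) := by
      refine le_trans (le_of_eq ?_) (Real.log_le_log (by positivity) (ha n).1)
      rw [Real.log_mul ha1.ne' (by positivity), Real.log_pow, one_div, Real.log_inv]
      ring
    have h3 : ratio w n * Real.log (X z) * n =
        (∑ u ∈ Omega w n, ((List.ofFn u).count true : ℝ)) / ((Omega w n).card : ℝ) *
          Real.log (X z) := by
      unfold ratio
      field_simp
    have h4 : ratio w n * Real.log (X z) * n ≤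
        Real.log c2 - Real.log a1 + n * (Real.log z0 - Real.log z) := by
      rw [h3]; linarith
    have h5 : (Real.log c2 - Real.log a1) / n + (Real.log z0 - Real.log z) =
        (Real.log c2 - Real.log a1 + n * (Real.log z0 - Real.log z)) / n := by
      field_simp
    rw [h5, le_div_iff₀ hn']
    exact h4
  -- the limit of the bound
  have hl1 : Tendsto (slope Real.log z0) (𝓝[≠] z0) (𝓝 (z0⁻¹)) :=
    hasDerivAt_iff_tendsto_slope.1 (Real.hasDerivAt_log hz0.ne')
  have hXlog : HasDerivAt (fun z => Real.log (X z)) D z0 := by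
    have := hder.log (by rw [hX1]; norm_num)
    rwa [hX1, div_one] at this
  have hl2 : Tendsto (slope (fun z => Real.log (X z)) z0) (𝓝[≠] z0) (𝓝 D) :=
    hasDerivAt_iff_tendsto_slope.1 hXlog
  have hl3 : Tendsto (fun z => - slope Real.log z0 z / slope (fun z => Real.log (X z)) z0 z)
      (𝓝[≠] z0) (𝓝 (-1 / (z0 * D))) := by
    have := (hl1.neg).div hl2 hD.ne
    have e : -1 / (z0 * D) = -z0⁻¹ / D := by
      have := hD.ne
      field_simp
    rw [e]
    exact this
  have hψ : ∀ z, z ≠ z0 → - slope Real.log z0 z / slope (fun z => Real.log (X z)) z0 z =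
      (Real.log z0 - Real.log z) / Real.log (X z) := by
    intro z hz
    have hz' : z - z0 ≠ 0 := sub_ne_zero.2 hz
    rw [slope_def_field, slope_def_field, hX1, Real.log_one, sub_zero]
    by_cases h0 : Real.log (X z) = 0
    · rw [h0]; simp
    · field_simp
      ring
  -- positivity near z0
  have hXc : ContinuousAt X z0 := hder.continuousAt
  have hXpos : ∀ᶠ z in 𝓝 z0, 0 < X z := by
    apply hXc.eventually (lt_mem_nhds _)
    rw [hX1]; norm_num
  have hzpos : ∀ᶠ z in 𝓝 z0, 0 < z := lt_mem_nhds hz0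
  have hneg : ∀ᶠ z in 𝓝[≠] z0, slope (fun z => Real.log (X z)) z0 z < 0 :=
    hl2.eventually (gt_mem_nhds hD)
  have hCn : ∀ C : ℝ, Tendsto (fun n : ℕ => C / (n : ℝ)) atTop (𝓝 0) :=
    fun C => tendsto_const_div_atTop_nhds_zero_nat C
  rw [tendsto_order]
  constructor
  · intro a haρ
    have h1 : ∀ᶠ z in 𝓝[≠] z0, a < (Real.log z0 - Real.log z) / Real.log (X z) := by
      filter_upwards [hl3.eventually (lt_mem_nhds haρ), self_mem_nhdsWithin] with z hz hz'
      rwa [hψ z hz'] at hz
    have h2 : ∀ᶠ z in 𝓝[>] z0, a < (Real.log z0 - Real.log z) / Real.log (X z) ∧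
        slope (fun z => Real.log (X z)) z0 z < 0 ∧ 0 < X z ∧ 0 < z ∧
        (∃ c1 c2 : ℝ, 0 < c1 ∧ 0 < c2 ∧ ∀ n : ℕ,
          c1 * (1 / z) ^ n ≤ G w [] n (X z) ∧ G w [] n (X z) ≤ c2 * (1 / z) ^ n) ∧ z0 < z := by
      have hle : 𝓝[>] z0 ≤ 𝓝[≠] z0 := nhdsWithin_mono _ (fun z hz => ne_of_gt hz)
      have hle' : 𝓝[>] z0 ≤ 𝓝 z0 := nhdsWithin_le_nhds
      filter_upwards [hle h1, hle hneg, hle' hXpos, hle' hzpos, hle' hb, self_mem_nhdsWithin]
        with z q1 q2 q3 q4 q5 q6
      exact ⟨q1, q2, q3, q4, q5, q6⟩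
    obtain ⟨z, hz1, hz2, hz3, hz4, ⟨c1, c2, hc1, hc2, hc⟩, hz5⟩ := h2.exists
    have hlog : Real.log (X z) < 0 := by
      rw [slope_def_field, hX1, Real.log_one, sub_zero] at hz2
      have h3 : 0 < z - z0 := sub_pos.2 hz5
      by_contra hcon
      exact absurd (div_nonneg (not_lt.1 hcon) h3.le) (not_le.2 hz2)
    have h4 := hCn ((Real.log c2 - Real.log a1) / Real.log (X z))
    have h5 : Tendsto (fun n : ℕ => (Real.log c2 - Real.log a1) / Real.log (X z) / (n : ℝ) +
        (Real.log z0 - Real.log z) / Real.log (X z)) atTop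
        (𝓝 (0 + (Real.log z0 - Real.log z) / Real.log (X z))) := h4.add_const _
    rw [zero_add] at h5
    filter_upwards [h5.eventually (lt_mem_nhds hz1), eventually_gt_atTop 0] with n hn hn0
    have hk := key z hz4 hz3 c2 hc2 (fun n => (hc n).2)
      (fun n => lt_of_lt_of_le (by positivity) (hc n).1) n hn0
    have h6 : (Real.log c2 - Real.log a1) / Real.log (X z) / (n : ℝ) +
        (Real.log z0 - Real.log z) / Real.log (X z) =
        ((Real.log c2 - Real.log a1) / n + (Real.log z0 - Real.log z)) / Real.log (X z) := by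
      field_simp
    rw [h6] at hn
    refine lt_of_lt_of_le hn ?_
    rw [div_le_iff_of_neg hlog]
    exact hk
  · intro b hbρ
    have h1 : ∀ᶠ z in 𝓝[≠] z0, (Real.log z0 - Real.log z) / Real.log (X z) < b := by
      filter_upwards [hl3.eventually (gt_mem_nhds hbρ), self_mem_nhdsWithin] with z hz hz'
      rwa [hψ z hz'] at hz
    have h2 : ∀ᶠ z in 𝓝[<] z0, (Real.log z0 - Real.log z) / Real.log (X z) < b ∧
        slope (fun z => Real.log (X z)) z0 z < 0 ∧ 0 < X z ∧ 0 < z ∧
        (∃ c1 c2 : ℝ, 0 < c1 ∧ 0 < c2 ∧ ∀ n : ℕ,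
          c1 * (1 / z) ^ n ≤ G w [] n (X z) ∧ G w [] n (X z) ≤ c2 * (1 / z) ^ n) ∧ z < z0 := by
      have hle : 𝓝[<] z0 ≤ 𝓝[≠] z0 := nhdsWithin_mono _ (fun z hz => ne_of_lt hz)
      have hle' : 𝓝[<] z0 ≤ 𝓝 z0 := nhdsWithin_le_nhds
      filter_upwards [hle h1, hle hneg, hle' hXpos, hle' hzpos, hle' hb, self_mem_nhdsWithin]
        with z q1 q2 q3 q4 q5 q6
      exact ⟨q1, q2, q3, q4, q5, q6⟩
    obtain ⟨z, hz1, hz2, hz3, hz4, ⟨c1, c2, hc1, hc2, hc⟩, hz5⟩ := h2.exists
    have hlog : 0 < Real.log (X z) := by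
      rw [slope_def_field, hX1, Real.log_one, sub_zero] at hz2
      have h3 : z - z0 < 0 := sub_neg.2 hz5
      by_contra hcon
      exact absurd (div_nonneg_of_nonpos (not_lt.1 hcon) h3.le) (not_le.2 hz2)
    have h4 := hCn ((Real.log c2 - Real.log a1) / Real.log (X z))
    have h5 : Tendsto (fun n : ℕ => (Real.log c2 - Real.log a1) / Real.log (X z) / (n : ℝ) +
        (Real.log z0 - Real.log z) / Real.log (X z)) atTop
        (𝓝 (0 + (Real.log z0 - Real.log z) / Real.log (X z))) := h4.add_const _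
    rw [zero_add] at h5
    filter_upwards [h5.eventually (gt_mem_nhds hz1), eventually_gt_atTop 0] with n hn hn0
    have hk := key z hz4 hz3 c2 hc2 (fun n => (hc n).2)
      (fun n => lt_of_lt_of_le (by positivity) (hc n).1) n hn0
    have h6 : (Real.log c2 - Real.log a1) / Real.log (X z) / (n : ℝ) +
        (Real.log z0 - Real.log z) / Real.log (X z) =
        ((Real.log c2 - Real.log a1) / n + (Real.log z0 - Real.log z)) / Real.log (X z) := by
      field_simp
    rw [h6] at hn
    refine lt_of_le_of_lt ?_ hn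
    rw [le_div_iff₀ hlog]
    exact hk

end Pool.Agent.H63R3.Freq
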