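import Pool.Agent.H63R3.FreqLimit

/-!
# The frequencies for the words `0000` and `0010`
-/

set_option autoImplicit false

open Filter Topology

namespace Pool.Agent.H63R3.Freq

def wv : List Bool := [false, false, false, false]
def ww : List Bool := [false, false, true, false]

section v

theorem v0 (n : ℕ) (x : ℝ) : G wv [] (n + 1) x = G wv [false] n x + x * G wv [] n x := by
  rw [G_succ]
  congr 2
  apply G_congr
  intro l
  simp [wv, List.infix_cons_iff, List.cons_prefix_cons]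

theorem v1 (n : ℕ) (x : ℝ) :
    G wv [false] (n + 1) x = G wv [false, false] n x + x * G wv [] n x := by
  rw [G_succ]
  congr 2
  apply G_congr
  intro l
  simp [wv, List.infix_cons_iff, List.cons_prefix_cons]

theorem v2 (n : ℕ) (x : ℝ) :
    G wv [false, false] (n + 1) x = G wv [false, false, false] n x + x * G wv [] n x := by
  rw [G_succ]
  congr 2
  apply G_congr
  intro l
  simp [wv, List.infix_cons_iff, List.cons_prefix_cons]

theorem v3 (n : ℕ) (x : ℝ) :
    G wv [false, false, false] (n + 1) x = x * G wv [] n x := by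
  rw [G_succ, G_dead wv ([false, false, false] ++ [false]) n x (by simp [wv]), zero_add]
  congr 1
  apply G_congr
  intro l
  simp [wv, List.infix_cons_iff, List.cons_prefix_cons]

theorem v_bound (z x c : ℝ) (hz : 0 < z) (hx : x * (z + z ^ 2 + z ^ 3 + z ^ 4) = 1) :
    (c ≤ 1 → c * (x * (z + z ^ 2 + z ^ 3)) ≤ 1 → c * (x * (z + z ^ 2)) ≤ 1 → c * (x * z) ≤ 1 →
      ∀ n : ℕ, c * (1 / z) ^ n ≤ G wv [] n x ∧
        c * (x * (z + z ^ 2 + z ^ 3)) * (1 / z) ^ n ≤ G wv [false] n x ∧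
        c * (x * (z + z ^ 2)) * (1 / z) ^ n ≤ G wv [false, false] n x ∧
        c * (x * z) * (1 / z) ^ n ≤ G wv [false, false, false] n x) ∧
    (1 ≤ c → 1 ≤ c * (x * (z + z ^ 2 + z ^ 3)) → 1 ≤ c * (x * (z + z ^ 2)) → 1 ≤ c * (x * z) →
      ∀ n : ℕ, G wv [] n x ≤ c * (1 / z) ^ n ∧
        G wv [false] n x ≤ c * (x * (z + z ^ 2 + z ^ 3)) * (1 / z) ^ n ∧
        G wv [false, false] n x ≤ c * (x * (z + z ^ 2)) * (1 / z) ^ n ∧
        G wv [false, false, false] n x ≤ c * (x * z) * (1 / z) ^ n) := by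
  have hxpos : 0 < x := by
    by_contra hcon
    have : x * (z + z ^ 2 + z ^ 3 + z ^ 4) ≤ 0 :=
      mul_nonpos_of_nonpos_of_nonneg (not_lt.1 hcon) (by positivity)
    linarith
  have e0 : ∀ n : ℕ, c * (1 / z) ^ (n + 1) =
      c * (x * (z + z ^ 2 + z ^ 3)) * (1 / z) ^ n + x * (c * (1 / z) ^ n) := by
    intro n
    have : (1 / z) = x * (z + z ^ 2 + z ^ 3) + x := by
      field_simp
      nlinarith
    calc c * (1 / z) ^ (n + 1) = c * (1 / z) ^ n * (1 / z) := by ring
      _ = c * (1 / z) ^ n * (x * (z + z ^ 2 + z ^ 3) + x) := by rw [← this]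
      _ = _ := by ring
  have hL : z * (1 / z) = 1 := by field_simp
  have e1 : ∀ n : ℕ, c * (x * (z + z ^ 2 + z ^ 3)) * (1 / z) ^ (n + 1) =
      c * (x * (z + z ^ 2)) * (1 / z) ^ n + x * (c * (1 / z) ^ n) := by
    intro n
    rw [pow_succ]
    linear_combination (c * x * (1 / z) ^ n * (1 + z + z ^ 2)) * hL
  have e2 : ∀ n : ℕ, c * (x * (z + z ^ 2)) * (1 / z) ^ (n + 1) =
      c * (x * z) * (1 / z) ^ n + x * (c * (1 / z) ^ n) := by
    intro n
    rw [pow_succ]
    linear_combination (c * x * (1 / z) ^ n * (1 + z)) * hL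
  have e3 : ∀ n : ℕ, c * (x * z) * (1 / z) ^ (n + 1) = x * (c * (1 / z) ^ n) := by
    intro n
    rw [pow_succ]
    linear_combination (c * x * (1 / z) ^ n) * hL
  have i0 : G wv [] 0 x = 1 := G_zero _ _ _ (by decide)
  have i1 : G wv [false] 0 x = 1 := G_zero _ _ _ (by decide)
  have i2 : G wv [false, false] 0 x = 1 := G_zero _ _ _ (by decide)
  have i3 : G wv [false, false, false] 0 x = 1 := G_zero _ _ _ (by decide)
  constructor
  · intro h0 h1 h2 h3 n
    induction n with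
    | zero =>
      simp only [pow_zero, mul_one, i0, i1, i2, i3]
      exact ⟨h0, h1, h2, h3⟩
    | succ n ih =>
      obtain ⟨a0, a1, a2, a3⟩ := ih
      rw [v0, v1, v2, v3, e0, e1, e2, e3]
      have := mul_le_mul_of_nonneg_left a0 hxpos.le
      exact ⟨by linarith, by linarith, by linarith, by linarith⟩
  · intro h0 h1 h2 h3 n
    induction n with
    | zero =>
      simp only [pow_zero, mul_one, i0, i1, i2, i3]
      exact ⟨h0, h1, h2, h3⟩
    | succ n ih =>
      obtain ⟨a0, a1, a2, a3⟩ := ih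
      rw [v0, v1, v2, v3, e0, e1, e2, e3]
      have := mul_le_mul_of_nonneg_left a0 hxpos.le
      exact ⟨by linarith, by linarith, by linarith, by linarith⟩

theorem v_limit (z : ℝ) (hz : 0 < z) (h1 : z + z ^ 2 + z ^ 3 + z ^ 4 = 1) :
    Tendsto (ratio wv) atTop (𝓝 (1 / (z * (1 + 2 * z + 3 * z ^ 2 + 4 * z ^ 3)))) := by
  have hder : HasDerivAt (fun z : ℝ => (z + z ^ 2 + z ^ 3 + z ^ 4)⁻¹)
      (-(1 + 2 * z + 3 * z ^ 2 + 4 * z ^ 3)) z := by
    have hS : HasDerivAt (fun z : ℝ => z + z ^ 2 + z ^ 3 + z ^ 4)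
        (1 + 2 * z + 3 * z ^ 2 + 4 * z ^ 3) z := by
      have := (((hasDerivAt_id' z).add (hasDerivAt_pow 2 z)).add (hasDerivAt_pow 3 z)).add
        (hasDerivAt_pow 4 z)
      exact this.congr_deriv (by norm_num)
    have hne : z + z ^ 2 + z ^ 3 + z ^ 4 ≠ 0 := by rw [h1]; norm_num
    exact (hS.inv hne).congr_deriv (by rw [h1]; ring)
  have hlim := ratio_tendsto wv (fun z : ℝ => (z + z ^ 2 + z ^ 3 + z ^ 4)⁻¹) z
    (-(1 + 2 * z + 3 * z ^ 2 + 4 * z ^ 3)) hz (by simp only [h1]; norm_num)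
    (by have : 0 < 1 + 2 * z + 3 * z ^ 2 + 4 * z ^ 3 := by positivity
        linarith) hder ?_
  · convert hlim using 2
    rw [mul_neg, div_neg, neg_div, neg_neg]
  · filter_upwards [lt_mem_nhds hz] with y hy
    have hy' : (0 : ℝ) < y := hy
    have hx : (y + y ^ 2 + y ^ 3 + y ^ 4)⁻¹ * (y + y ^ 2 + y ^ 3 + y ^ 4) = 1 := by
      have : 0 < y + y ^ 2 + y ^ 3 + y ^ 4 := by positivity
      field_simp
    set x : ℝ := (y + y ^ 2 + y ^ 3 + y ^ 4)⁻¹ with hxdef
    have hxpos : 0 < x := by positivity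
    have q1 : 0 < x * (y + y ^ 2 + y ^ 3) := by positivity
    have q2 : 0 < x * (y + y ^ 2) := by positivity
    have q3 : 0 < x * y := by positivity
    have r1 : x * (y + y ^ 2 + y ^ 3) ≤ 1 := by
      rw [← hx]
      apply mul_le_mul_of_nonneg_left _ hxpos.le
      nlinarith [pow_pos hy' 4]
    have r2 : x * (y + y ^ 2) ≤ 1 := by
      rw [← hx]
      apply mul_le_mul_of_nonneg_left _ hxpos.le
      nlinarith [pow_pos hy' 4, pow_pos hy' 3]
    have r3 : x * y ≤ 1 := by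
      rw [← hx]
      apply mul_le_mul_of_nonneg_left _ hxpos.le
      nlinarith [pow_pos hy' 4, pow_pos hy' 3, pow_pos hy' 2]
    refine ⟨1, 1 / (x * y), one_pos, by positivity, fun n => ⟨?_, ?_⟩⟩
    · exact ((v_bound y x 1 hy' hx).1 le_rfl (by linarith) (by linarith) (by linarith) n).1
    · refine ((v_bound y x (1 / (x * y)) hy' hx).2 ?_ ?_ ?_ ?_ n).1
      · rw [le_div_iff₀ q3]; linarith
      · rw [div_mul_eq_mul_div, le_div_iff₀ q3]
        have : x * y ≤ x * (y + y ^ 2 + y ^ 3) := by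
          apply mul_le_mul_of_nonneg_left _ hxpos.le
          nlinarith [pow_pos hy' 3, pow_pos hy' 2]
        linarith
      · rw [div_mul_eq_mul_div, le_div_iff₀ q3]
        have : x * y ≤ x * (y + y ^ 2) := by
          apply mul_le_mul_of_nonneg_left _ hxpos.le
          nlinarith [pow_pos hy' 2]
        linarith
      · have : 1 / (x * y) * (x * y) = 1 := by field_simp
        linarith

end v

section w

theorem w0 (n : ℕ) (x : ℝ) : G ww [] (n + 1) x = G ww [false] n x + x * G ww [] n x := by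
  rw [G_succ]
  congr 2
  apply G_congr
  intro l
  simp [ww, List.infix_cons_iff, List.cons_prefix_cons]

theorem w1 (n : ℕ) (x : ℝ) :
    G ww [false] (n + 1) x = G ww [false, false] n x + x * G ww [] n x := by
  rw [G_succ]
  congr 2
  apply G_congr
  intro l
  simp [ww, List.infix_cons_iff, List.cons_prefix_cons]

theorem w2 (n : ℕ) (x : ℝ) : G ww [false, false] (n + 1) x =
    G ww [false, false] n x + x * G ww [false, false, true] n x := by
  rw [G_succ]
  congr 1
  apply G_congr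
  intro l
  simp [ww, List.infix_cons_iff, List.cons_prefix_cons]

theorem w3 (n : ℕ) (x : ℝ) :
    G ww [false, false, true] (n + 1) x = x * G ww [] n x := by
  rw [G_succ, G_dead ww ([false, false, true] ++ [false]) n x (by simp [ww]), zero_add]
  congr 1
  apply G_congr
  intro l
  simp [ww, List.infix_cons_iff, List.cons_prefix_cons]

theorem w_bound (z x c : ℝ) (hz : 0 < z) (hz1 : z < 1) (hxpos : 0 < x)
    (hx : x ^ 2 * z ^ 4 + x * (z - z ^ 3) = 1 - z) :
    (c ≤ 1 → c * (z * (x ^ 2 * z ^ 2 / (1 - z) + x)) ≤ 1 → c * (x ^ 2 * z ^ 2 / (1 - z)) ≤ 1 →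
      c * (x * z) ≤ 1 →
      ∀ n : ℕ, c * (1 / z) ^ n ≤ G ww [] n x ∧
        c * (z * (x ^ 2 * z ^ 2 / (1 - z) + x)) * (1 / z) ^ n ≤ G ww [false] n x ∧
        c * (x ^ 2 * z ^ 2 / (1 - z)) * (1 / z) ^ n ≤ G ww [false, false] n x ∧
        c * (x * z) * (1 / z) ^ n ≤ G ww [false, false, true] n x) ∧
    (1 ≤ c → 1 ≤ c * (z * (x ^ 2 * z ^ 2 / (1 - z) + x)) → 1 ≤ c * (x ^ 2 * z ^ 2 / (1 - z)) →
      1 ≤ c * (x * z) →
      ∀ n : ℕ, G ww [] n x ≤ c * (1 / z) ^ n ∧
        G ww [false] n x ≤ c * (z * (x ^ 2 * z ^ 2 / (1 - z) + x)) * (1 / z) ^ n ∧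
        G ww [false, false] n x ≤ c * (x ^ 2 * z ^ 2 / (1 - z)) * (1 / z) ^ n ∧
        G ww [false, false, true] n x ≤ c * (x * z) * (1 / z) ^ n) := by
  have hz' : (1 : ℝ) - z ≠ 0 := by linarith
  have e0 : ∀ n : ℕ, c * (1 / z) ^ (n + 1) =
      c * (z * (x ^ 2 * z ^ 2 / (1 - z) + x)) * (1 / z) ^ n + x * (c * (1 / z) ^ n) := by
    intro n
    have : (1 / z) = z * (x ^ 2 * z ^ 2 / (1 - z) + x) + x := by
      field_simp
      linear_combination -hx
    calc c * (1 / z) ^ (n + 1) = c * (1 / z) ^ n * (1 / z) := by ring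
      _ = c * (1 / z) ^ n * (z * (x ^ 2 * z ^ 2 / (1 - z) + x) + x) := by rw [← this]
      _ = _ := by ring
  have hL : z * (1 / z) = 1 := by field_simp
  have e1 : ∀ n : ℕ, c * (z * (x ^ 2 * z ^ 2 / (1 - z) + x)) * (1 / z) ^ (n + 1) =
      c * (x ^ 2 * z ^ 2 / (1 - z)) * (1 / z) ^ n + x * (c * (1 / z) ^ n) := by
    intro n
    rw [pow_succ]
    linear_combination (c * (1 / z) ^ n * (x ^ 2 * z ^ 2 / (1 - z) + x)) * hL
  have hq : x ^ 2 * z ^ 2 / (1 - z) * (1 - z) = x ^ 2 * z ^ 2 := by field_simp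
  have e2 : ∀ n : ℕ, c * (x ^ 2 * z ^ 2 / (1 - z)) * (1 / z) ^ (n + 1) =
      c * (x ^ 2 * z ^ 2 / (1 - z)) * (1 / z) ^ n + x * (c * (x * z) * (1 / z) ^ n) := by
    intro n
    rw [pow_succ]
    linear_combination (c * (1 / z) ^ n * (x ^ 2 * z ^ 2 / (1 - z))) * hL +
      (c * (1 / z) ^ n * (1 / z)) * hq + (c * (1 / z) ^ n * x ^ 2 * z) * hL
  have e3 : ∀ n : ℕ, c * (x * z) * (1 / z) ^ (n + 1) = x * (c * (1 / z) ^ n) := by
    intro n
    rw [pow_succ]
    linear_combination (c * x * (1 / z) ^ n) * hL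
  have i0 : G ww [] 0 x = 1 := G_zero _ _ _ (by decide)
  have i1 : G ww [false] 0 x = 1 := G_zero _ _ _ (by decide)
  have i2 : G ww [false, false] 0 x = 1 := G_zero _ _ _ (by decide)
  have i3 : G ww [false, false, true] 0 x = 1 := G_zero _ _ _ (by decide)
  constructor
  · intro h0 h1 h2 h3 n
    induction n with
    | zero =>
      simp only [pow_zero, mul_one, i0, i1, i2, i3]
      exact ⟨h0, h1, h2, h3⟩
    | succ n ih =>
      obtain ⟨a0, a1, a2, a3⟩ := ih
      rw [w0, w1, w2, w3, e0, e1, e2, e3]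
      have := mul_le_mul_of_nonneg_left a0 hxpos.le
      have := mul_le_mul_of_nonneg_left a3 hxpos.le
      exact ⟨by linarith, by linarith, by linarith, by linarith⟩
  · intro h0 h1 h2 h3 n
    induction n with
    | zero =>
      simp only [pow_zero, mul_one, i0, i1, i2, i3]
      exact ⟨h0, h1, h2, h3⟩
    | succ n ih =>
      obtain ⟨a0, a1, a2, a3⟩ := ih
      rw [w0, w1, w2, w3, e0, e1, e2, e3]
      have := mul_le_mul_of_nonneg_left a0 hxpos.le
      have := mul_le_mul_of_nonneg_left a3 hxpos.le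
      exact ⟨by linarith, by linarith, by linarith, by linarith⟩

/-- the positive solution of `x² z⁴ + x (z - z³) = 1 - z` -/
noncomputable def X (z : ℝ) : ℝ :=
  (-(z - z ^ 3) + Real.sqrt ((z - z ^ 3) ^ 2 + 4 * z ^ 4 * (1 - z))) / (2 * z ^ 4)

theorem X_eq (z : ℝ) (hz : 0 < z) (hz1 : z < 1) :
    X z ^ 2 * z ^ 4 + X z * (z - z ^ 3) = 1 - z := by
  have h1 : 0 ≤ (z - z ^ 3) ^ 2 + 4 * z ^ 4 * (1 - z) := by
    have : 0 < 1 - z := by linarith
    positivity
  have hs := Real.sq_sqrt h1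
  unfold X
  set s := Real.sqrt ((z - z ^ 3) ^ 2 + 4 * z ^ 4 * (1 - z)) with hsdef
  have hz4 : z ^ 4 ≠ 0 := by positivity
  have : ((-(z - z ^ 3) + s) / (2 * z ^ 4)) ^ 2 * z ^ 4 +
      ((-(z - z ^ 3) + s) / (2 * z ^ 4)) * (z - z ^ 3) - (1 - z) =
      (s ^ 2 - ((z - z ^ 3) ^ 2 + 4 * z ^ 4 * (1 - z))) / (4 * z ^ 4) := by
    field_simp
    ring
  rw [hs, sub_self, zero_div] at this
  linarith

theorem X_pos (z : ℝ) (hz : 0 < z) (hz1 : z < 1) : 0 < X z := by
  have h0 : 0 < 1 - z := by linarith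
  have h1 : 0 < z - z ^ 3 := by nlinarith [mul_pos hz h0]
  have h2 : z - z ^ 3 < Real.sqrt ((z - z ^ 3) ^ 2 + 4 * z ^ 4 * (1 - z)) := by
    apply Real.lt_sqrt_of_sq_lt
    have : 0 < 4 * z ^ 4 * (1 - z) := by positivity
    linarith
  unfold X
  apply div_pos (by linarith) (by positivity)

theorem X_cont (z : ℝ) (hz : 0 < z) : ContinuousAt X z := by
  unfold X
  have : 2 * z ^ 4 ≠ 0 := by positivity
  fun_prop (disch := assumption)

theorem w_limit (z : ℝ) (hz : 0 < z) (hz1 : z < 1) (h1 : z ^ 4 - z ^ 3 + 2 * z - 1 = 0) :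
    Tendsto (ratio ww) atTop (𝓝 ((2 * z ^ 4 + z - z ^ 3) / (z * (4 * z ^ 3 - 3 * z ^ 2 + 2)))) := by
  have hzz : 0 < z - z ^ 3 := by
    have h0 : 0 < 1 - z := by linarith
    nlinarith [mul_pos hz h0]
  have hpos : 0 < 4 * z ^ 3 - 3 * z ^ 2 + 2 := by
    nlinarith [pow_pos hz 3, pow_pos hz 2, mul_pos hz (sub_pos.2 hz1), sq_nonneg (z - 1)]
  have hXz : X z = 1 := by
    have h2 := X_eq z hz hz1
    have h3 := X_pos z hz hz1
    have h4 : (X z - 1) * (z ^ 4 * (X z + 1) + (z - z ^ 3)) = 0 := by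
      linear_combination h2 - h1
    rcases mul_eq_zero.1 h4 with h5 | h5
    · linarith
    · have : 0 < z ^ 4 * (X z + 1) + (z - z ^ 3) := by positivity
      linarith
  have hder : HasDerivAt X (-((4 * z ^ 3 - 3 * z ^ 2 + 2) / (2 * z ^ 4 + z - z ^ 3))) z := by
    rw [hasDerivAt_iff_tendsto_slope]
    have hF : HasDerivAt (fun z : ℝ => z ^ 4 - z ^ 3 + 2 * z - 1) (4 * z ^ 3 - 3 * z ^ 2 + 2) z := by
      have := (((hasDerivAt_pow 4 z).sub (hasDerivAt_pow 3 z)).add
        ((hasDerivAt_id' z).const_mul 2)).sub_const 1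
      exact this.congr_deriv (by norm_num)
    have hFs := hasDerivAt_iff_tendsto_slope.1 hF
    have hden : Tendsto (fun y : ℝ => y ^ 4 * (X y + 1) + (y - y ^ 3)) (𝓝[≠] z)
        (𝓝 (2 * z ^ 4 + z - z ^ 3)) := by
      have hc : ContinuousAt (fun y : ℝ => y ^ 4 * (X y + 1) + (y - y ^ 3)) z := by
        have := X_cont z hz
        fun_prop
      have := hc.tendsto
      rw [hXz] at this
      have e : z ^ 4 * (1 + 1) + (z - z ^ 3) = 2 * z ^ 4 + z - z ^ 3 := by ring
      rw [e] at this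
      exact this.mono_left nhdsWithin_le_nhds
    have hne : 2 * z ^ 4 + z - z ^ 3 ≠ 0 := by
      have : 0 < 2 * z ^ 4 + (z - z ^ 3) := by positivity
      intro h
      linarith
    have := (hFs.div hden hne).neg
    refine this.congr' ?_
    have hnear : ∀ᶠ y in 𝓝[≠] z, 0 < y ∧ y < 1 := by
      apply eventually_nhdsWithin_of_eventually_nhds
      exact (lt_mem_nhds hz).and (gt_mem_nhds hz1)
    filter_upwards [hnear, self_mem_nhdsWithin] with y hy hyz
    have hyz' : y - z ≠ 0 := sub_ne_zero.2 hyz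
    have h2 := X_eq y hy.1 hy.2
    have h3 := X_pos y hy.1 hy.2
    have h5 : 0 < y - y ^ 3 := by
      have h0 : 0 < 1 - y := by linarith [hy.2]
      nlinarith [mul_pos hy.1 h0, hy.1]
    have h6 : 0 < y ^ 4 * (X y + 1) + (y - y ^ 3) := by
      have := hy.1
      positivity
    rw [Pi.div_apply, slope_def_field, slope_def_field, hXz, h1]
    have hk : y ^ 4 - y ^ 3 + 2 * y - 1 - 0 =
        -((X y - 1) * (y ^ 4 * (X y + 1) + (y - y ^ 3))) := by
      linear_combination h2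
    rw [hk]
    generalize y ^ 4 * (X y + 1) + (y - y ^ 3) = q at *
    have hq := h6.ne'
    field_simp
  have hlim := ratio_tendsto ww X z _ hz hXz
    (by
      have : 0 < 2 * z ^ 4 + (z - z ^ 3) := by positivity
      have h7 : 0 < (4 * z ^ 3 - 3 * z ^ 2 + 2) / (2 * z ^ 4 + z - z ^ 3) := by
        apply div_pos hpos
        linarith
      linarith) hder ?_
  · have hne : 2 * z ^ 4 + z - z ^ 3 ≠ 0 := by
      have : 0 < 2 * z ^ 4 + (z - z ^ 3) := by positivity
      intro h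
      linarith
    convert hlim using 2
    have := hpos.ne'
    field_simp
  · filter_upwards [lt_mem_nhds hz, gt_mem_nhds hz1] with y hy hy1
    have hy' : (0 : ℝ) < y := hy
    have hy1' : 0 < 1 - y := by linarith
    have hx := X_eq y hy' hy1
    have hxpos := X_pos y hy' hy1
    set x := X y
    set h2 := x ^ 2 * y ^ 2 / (1 - y) with hh2
    have p2 : 0 < h2 := by positivity
    have p1 : 0 < y * (h2 + x) := by positivity
    have p3 : 0 < x * y := by positivity
    set S := 1 + y * (h2 + x) + h2 + x * y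
    set T := 1 + 1 / (y * (h2 + x)) + 1 / h2 + 1 / (x * y)
    have hS : 0 < S := by positivity
    refine ⟨1 / S, T, by positivity, by positivity, fun n => ⟨?_, ?_⟩⟩
    · refine ((w_bound y x (1 / S) hy' hy1 hxpos hx).1 ?_ ?_ ?_ ?_ n).1
      · rw [div_le_one hS]; simp only [S]; linarith
      · rw [div_mul_eq_mul_div, div_le_one hS]; simp only [S]; linarith
      · rw [div_mul_eq_mul_div, div_le_one hS]; simp only [S]; linarith
      · rw [div_mul_eq_mul_div, div_le_one hS]; simp only [S]; linarith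
    · have t1 : 0 < 1 / (y * (h2 + x)) := by positivity
      have t2 : 0 < 1 / h2 := by positivity
      have t3 : 0 < 1 / (x * y) := by positivity
      have u1 : 1 / (y * (h2 + x)) * (y * (h2 + x)) = 1 := by field_simp
      have u2 : 1 / h2 * h2 = 1 := by field_simp
      have u3 : 1 / (x * y) * (x * y) = 1 := by field_simp
      refine ((w_bound y x T hy' hy1 hxpos hx).2 ?_ ?_ ?_ ?_ n).1
      · simp only [T]; linarith
      · calc (1 : ℝ) = 1 / (y * (h2 + x)) * (y * (h2 + x)) := u1.symm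
          _ ≤ T * (y * (h2 + x)) := by
            apply mul_le_mul_of_nonneg_right _ p1.le
            simp only [T]; linarith
      · calc (1 : ℝ) = 1 / h2 * h2 := u2.symm
          _ ≤ T * h2 := by
            apply mul_le_mul_of_nonneg_right _ p2.le
            simp only [T]; linarith
      · calc (1 : ℝ) = 1 / (x * y) * (x * y) := u3.symm
          _ ≤ T * (x * y) := by
            apply mul_le_mul_of_nonneg_right _ p3.le
            simp only [T]; linarith

end w

/-- the two limits exist and are ordered the wrong way -/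
theorem main : ∃ a b : ℝ, Tendsto (ratio wv) atTop (𝓝 a) ∧ Tendsto (ratio ww) atTop (𝓝 b) ∧
    a < b := by
  obtain ⟨z, hz, hz1⟩ : ∃ z ∈ Set.Icc (0.518 : ℝ) 0.519, z + z ^ 2 + z ^ 3 + z ^ 4 = 1 := by
    have hc : ContinuousOn (fun z : ℝ => z + z ^ 2 + z ^ 3 + z ^ 4) (Set.Icc (0.518 : ℝ) 0.519) := by
      fun_prop
    exact intermediate_value_Icc (by norm_num) hc ⟨by norm_num, by norm_num⟩
  obtain ⟨y, hy, hy1⟩ : ∃ y ∈ Set.Icc (0.535 : ℝ) 0.536, y ^ 4 - y ^ 3 + 2 * y - 1 = 0 := by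
    have hc : ContinuousOn (fun y : ℝ => y ^ 4 - y ^ 3 + 2 * y - 1) (Set.Icc (0.535 : ℝ) 0.536) := by
      fun_prop
    exact intermediate_value_Icc (by norm_num) hc ⟨by norm_num, by norm_num⟩
  have hz0 : 0 < z := by linarith [hz.1]
  have hy0 : 0 < y := by linarith [hy.1]
  refine ⟨_, _, v_limit z hz0 hz1, w_limit y hy0 (by linarith [hy.2]) hy1, ?_⟩
  have h1 : 1 / (z * (1 + 2 * z + 3 * z ^ 2 + 4 * z ^ 3)) < 0.58 := by
    rw [div_lt_iff₀ (by positivity)]
    have := hz.1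
    have h2 : (0.518 : ℝ) ^ 2 ≤ z ^ 2 := by gcongr
    have h3 : (0.518 : ℝ) ^ 3 ≤ z ^ 3 := by gcongr
    have h4 : (0.518 : ℝ) ^ 4 ≤ z ^ 4 := by gcongr
    nlinarith
  have h2 : 0.58 < (2 * y ^ 4 + y - y ^ 3) / (y * (4 * y ^ 3 - 3 * y ^ 2 + 2)) := by
    have hp : 0 < 4 * y ^ 3 - 3 * y ^ 2 + 2 := by
      nlinarith [pow_pos hy0 3, hy.1, hy.2]
    rw [lt_div_iff₀ (by positivity)]
    have e : (2 * y ^ 4 + y - y ^ 3) - 0.58 * (y * (4 * y ^ 3 - 3 * y ^ 2 + 2)) =
        y * (-0.32 * y ^ 3 + 0.74 * y ^ 2 - 0.16) := by ring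
    have h3 : y ^ 3 ≤ (0.536 : ℝ) ^ 3 := by
      have := hy.2
      gcongr
    have h4 : (0.535 : ℝ) ^ 2 ≤ y ^ 2 := by
      have := hy.1
      gcongr
    have h5 : 0 < -0.32 * y ^ 3 + 0.74 * y ^ 2 - 0.16 := by nlinarith
    have := mul_pos hy0 h5
    linarith
  linarith

end Pool.Agent.H63R3.Freq
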