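import Mathlib

/-!
Upper bounds for the least maximum degree of a `k`-chromatic graph without `K_{k-1}`.
-/

open SimpleGraph

namespace Pool.Agent.H63R3.MaxDeg

/-- `f(k)`: the least maximum degree of a finite graph with chromatic number `k` that contains no
`K_{k-1}`. -/
noncomputable def f (k : ℕ) : ℕ :=
  sInf {d | ∃ (V : Type) (_ : Fintype V) (G : SimpleGraph V) (_ : DecidableRel G.Adj),
    G.chromaticNumber = k ∧ G.CliqueFree (k - 1) ∧ G.maxDegree = d}

/-- There is a finite graph that is not `n`-colourable, has no `K_n` and has maximum degree at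
most `D`. -/
def Witness (n D : ℕ) : Prop :=
  ∃ (V : Type) (_ : Fintype V) (G : SimpleGraph V),
    ¬ G.Colorable n ∧ G.CliqueFree n ∧ ∀ v, (G.neighborSet v).ncard ≤ D

lemma colorable_extend {V : Type} (G : SimpleGraph V) {S : Set V} {v : V} {n : ℕ}
    (h : (G.induce (S \ {v})).Colorable n) : (G.induce S).Colorable (n + 1) := by
  classical
  obtain ⟨C⟩ := h
  refine ⟨Coloring.mk (fun x => if hx : (x : V) = v then Fin.last n else
    (C ⟨x, x.2, hx⟩).castSucc) ?_⟩
  intro x y hxy
  by_cases hx : (x : V) = v <;> by_cases hy : (y : V) = v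
  · exact absurd (Subtype.ext (hx.trans hy.symm)) hxy.ne
  · simp only [hx, hy, dif_pos, dif_neg, not_false_eq_true, ne_eq]
    exact (Fin.castSucc_lt_last _).ne'
  · simp only [hx, hy, dif_pos, dif_neg, not_false_eq_true, ne_eq]
    exact (Fin.castSucc_lt_last _).ne
  · simp only [hx, hy, dif_neg, not_false_eq_true, ne_eq]
    intro h
    exact C.valid (v := ⟨x, x.2, hx⟩) (w := ⟨y, y.2, hy⟩) hxy (Fin.castSucc_injective _ h)

/-- A witness gives an upper bound for `f`. -/
lemma f_le {n D : ℕ} (h : Witness n D) : f (n + 1) ≤ D := by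
  classical
  obtain ⟨V, _, G, hcol, hcf, hdeg⟩ := h
  -- a minimal non-`n`-colourable induced subgraph
  have hne : ∃ m, ∃ S : Finset V, S.card = m ∧ ¬ (G.induce (S : Set V)).Colorable n := by
    refine ⟨_, Finset.univ, rfl, ?_⟩
    intro hc
    apply hcol
    have e : G ↪g G.induce ((Finset.univ : Finset V) : Set V) :=
      { toFun := fun v => ⟨v, by simp⟩
        inj' := fun a b hab => congrArg Subtype.val hab
        map_rel_iff' := by intro a b; rfl }
    exact hc.of_hom e.toHom
  obtain ⟨S, hSm, hS⟩ := Nat.find_spec hne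
  have hmin : ∀ T : Finset V, T.card < S.card → (G.induce (T : Set V)).Colorable n := by
    intro T hT
    by_contra hcon
    rw [hSm] at hT
    exact Nat.find_min hne hT ⟨T, rfl, hcon⟩
  have hSne : S.Nonempty := by
    rw [Finset.nonempty_iff_ne_empty]
    rintro rfl
    apply hS
    refine ⟨Coloring.mk (fun x => absurd x.2 (by simp)) ?_⟩
    intro x
    exact absurd x.2 (by simp)
  obtain ⟨v, hv⟩ := hSne
  have hcol1 : (G.induce (S : Set V)).Colorable (n + 1) := by
    apply colorable_extend G (v := v)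
    have := hmin (S.erase v) (Finset.card_erase_lt_of_mem hv)
    rwa [Finset.coe_erase] at this
  let H := G.induce (S : Set V)
  refine le_trans (Nat.sInf_le ⟨(S : Set V), inferInstance, H, inferInstance, ?_, ?_, rfl⟩) ?_
  · rw [show ((n + 1 : ℕ) : ℕ∞) = (n : ℕ∞) + 1 by push_cast; rfl]
    exact (chromaticNumber_eq_iff_colorable_not_colorable).2 ⟨hcol1, hS⟩
  · rw [Nat.add_sub_cancel]
    exact hcf.comap ⟨(Embedding.induce _).toCopy⟩
  · apply maxDegree_le_of_forall_degree_le
    intro x
    refine le_trans ?_ (hdeg x)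
    rw [← card_neighborFinset_eq_degree, ← Set.ncard_coe_finset, coe_neighborFinset]
    refine Set.ncard_le_ncard_of_injOn Subtype.val ?_ Subtype.val_injective.injOn (Set.toFinite _)
    intro y hy
    exact hy

/-- A graph with `2 n + 1` vertices in which any three distinct vertices span an edge is not
`n`-colourable. -/
lemma not_colorable {V : Type} [Fintype V] (G : SimpleGraph V) {n : ℕ}
    (hcard : 2 * n < Fintype.card V)
    (h : ∀ a b c : V, a ≠ b → a ≠ c → b ≠ c → G.Adj a b ∨ G.Adj a c ∨ G.Adj b c) :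
    ¬ G.Colorable n := by
  classical
  rintro ⟨C⟩
  obtain ⟨y, hy⟩ := Fintype.exists_lt_card_fiber_of_mul_lt_card (f := C) (n := 2)
    (by rw [Fintype.card_fin]; omega)
  rw [Finset.two_lt_card] at hy
  obtain ⟨a, ha, b, hb, c, hc, hab, hac, hbc⟩ := hy
  simp only [Finset.mem_filter, Finset.mem_univ, true_and] at ha hb hc
  rcases h a b c hab hac hbc with h1 | h1 | h1
  · exact C.valid h1 (ha.trans hb.symm)
  · exact C.valid h1 (ha.trans hc.symm)
  · exact C.valid h1 (hb.trans hc.symm)

/-- Adjacency in the 5-cycle. -/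
def c5 (i j : Fin 5) : Bool := decide (i = j + 1) || decide (j = i + 1)

/-- The blow-up of the 5-cycle in which the vertex `i` is replaced by a clique of size `w i`. -/
def blowup (w : Fin 5 → ℕ) : SimpleGraph (Σ i : Fin 5, Fin (w i)) where
  Adj x y := x ≠ y ∧ (x.1 = y.1 ∨ c5 x.1 y.1 = true)
  symm := ⟨fun x y h => ⟨h.1.symm, by
    rcases h.2 with h | h
    · exact Or.inl h.symm
    · right
      unfold c5 at h ⊢
      rwa [Bool.or_comm]⟩⟩
  loopless := ⟨fun x h => h.1 rfl⟩

lemma blowup_witness (w : Fin 5 → ℕ) (n D : ℕ) (hsum : 2 * n < w 0 + w 1 + w 2 + w 3 + w 4)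
    (h2 : ∀ i, w i + w (i + 1) < n) (h3 : ∀ i, w (i - 1) + w i + w (i + 1) ≤ D + 1) :
    Witness n D := by
  classical
  refine ⟨Σ i : Fin 5, Fin (w i), inferInstance, blowup w, ?_, ?_, ?_⟩
  · apply not_colorable
    · rw [Fintype.card_sigma, Fin.sum_univ_five]
      simpa using hsum
    · intro a b c hab hac hbc
      have key : ∀ i j l : Fin 5, (i = j ∨ c5 i j = true) ∨ (i = l ∨ c5 i l = true) ∨
          (j = l ∨ c5 j l = true) := by decide
      rcases key a.1 b.1 c.1 with h | h | h
      · exact Or.inl ⟨hab, h⟩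
      · exact Or.inr (Or.inl ⟨hac, h⟩)
      · exact Or.inr (Or.inr ⟨hbc, h⟩)
  · -- cliques lie in two consecutive parts
    intro s hs
    have hcl : ∀ x ∈ s, ∀ y ∈ s, x.1 = y.1 ∨ c5 x.1 y.1 = true := by
      intro x hx y hy
      by_cases hxy : x = y
      · left; rw [hxy]
      · exact (hs.1 hx hy hxy).2
    let P : Finset (Fin 5) := s.image Sigma.fst
    have hP : ∀ i ∈ P, ∀ j ∈ P, i = j ∨ c5 i j = true := by
      intro i hi j hj
      rw [Finset.mem_image] at hi hj
      obtain ⟨x, hx, rfl⟩ := hi
      obtain ⟨y, hy, rfl⟩ := hj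
      exact hcl x hx y hy
    have key : ∀ P : Finset (Fin 5), (∀ i ∈ P, ∀ j ∈ P, i = j ∨ c5 i j = true) →
        ∃ i : Fin 5, P ⊆ {i, i + 1} := by decide
    obtain ⟨i, hi⟩ := key P hP
    have hsub : s ⊆ ({i, i + 1} : Finset (Fin 5)).sigma fun _ => Finset.univ := by
      intro x hx
      rw [Finset.mem_sigma]
      exact ⟨hi (Finset.mem_image_of_mem _ hx), Finset.mem_univ _⟩
    have hcard := Finset.card_le_card hsub
    rw [hs.2, Finset.card_sigma] at hcard
    have hne' : ∀ i : Fin 5, i ≠ i + 1 := by decide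
    have hne := hne' i
    rw [Finset.sum_pair hne] at hcard
    simp only [Finset.card_univ, Fintype.card_fin] at hcard
    have := h2 i
    omega
  · intro v
    have hsub : (blowup w).neighborSet v ⊆
        ((({v.1 - 1, v.1, v.1 + 1} : Finset (Fin 5)).sigma fun _ => Finset.univ).erase v :
          Finset (Σ i : Fin 5, Fin (w i))) := by
      intro x hx
      rw [mem_neighborSet] at hx
      rw [Finset.mem_coe, Finset.mem_erase, Finset.mem_sigma]
      refine ⟨hx.1.symm, ?_, Finset.mem_univ _⟩
      have key : ∀ i j : Fin 5, (i = j ∨ c5 i j = true) → j ∈ ({i - 1, i, i + 1} : Finset (Fin 5)) := by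
        decide
      exact key _ _ hx.2
    have hcard := Set.ncard_le_ncard hsub (Set.toFinite _)
    rw [Set.ncard_coe_finset, Finset.card_erase_of_mem, Finset.card_sigma] at hcard
    · have hd : ∀ i : Fin 5, i - 1 ≠ i ∧ i - 1 ≠ i + 1 ∧ i ≠ i + 1 := by decide
      obtain ⟨h4, h5, h6⟩ := hd v.1
      rw [Finset.sum_insert, Finset.sum_pair h6] at hcard
      · simp only [Finset.card_univ, Fintype.card_fin] at hcard
        have := h3 v.1
        omega
      · simp only [Finset.mem_insert, Finset.mem_singleton, not_or]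
        exact ⟨h4, h5⟩
    · rw [Finset.mem_sigma]
      simp

/-- The join of `K_a` and two 5-cycles. -/
def joinGraph (a : ℕ) : SimpleGraph (Fin a ⊕ (Fin 2 × Fin 5)) where
  Adj x y := x ≠ y ∧ ∀ u v, x = Sum.inr u → y = Sum.inr v → u.1 = v.1 → c5 u.2 v.2 = true
  symm := ⟨fun x y h => ⟨h.1.symm, fun u v hu hv huv => by
    have := h.2 v u hv hu huv.symm
    unfold c5 at this ⊢
    rwa [Bool.or_comm]⟩⟩
  loopless := ⟨fun x h => h.1 rfl⟩

lemma join_witness (a : ℕ) : Witness (a + 5) (a + 9) := by
  classical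
  refine ⟨Fin a ⊕ (Fin 2 × Fin 5), inferInstance, joinGraph a, ?_, ?_, ?_⟩
  · rintro ⟨C⟩
    let A : Finset (Fin (a + 5)) := Finset.univ.image fun i : Fin a => C (Sum.inl i)
    let B : Fin 2 → Finset (Fin (a + 5)) := fun t =>
      Finset.univ.image fun i : Fin 5 => C (Sum.inr (t, i))
    have hA : A.card = a := by
      rw [Finset.card_image_of_injective, Finset.card_univ, Fintype.card_fin]
      intro i j hij
      by_contra hne
      refine C.valid (v := Sum.inl i) (w := Sum.inl j) ?_ hij
      refine ⟨fun h => hne (Sum.inl_injective h), ?_⟩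
      intro u v hu
      exact absurd hu (by simp)
    have hB : ∀ t, 3 ≤ (B t).card := by
      intro t
      have h1 : (Finset.univ : Finset (Fin 5)).card ≤ 2 * (B t).card := by
        apply Finset.card_le_mul_card_image
        intro y _
        by_contra hcon
        push Not at hcon
        rw [Finset.two_lt_card] at hcon
        obtain ⟨i, hi, j, hj, l, hl, hij, hil, hjl⟩ := hcon
        simp only [Finset.mem_filter, Finset.mem_univ, true_and] at hi hj hl
        have key : ∀ i j l : Fin 5, i ≠ j → i ≠ l → j ≠ l →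
            c5 i j = true ∨ c5 i l = true ∨ c5 j l = true := by decide
        have hadj : ∀ i j : Fin 5, i ≠ j → c5 i j = true →
            (joinGraph a).Adj (Sum.inr (t, i)) (Sum.inr (t, j)) := by
          intro i j hne hc
          refine ⟨fun h => hne (by simpa using h), ?_⟩
          intro u v hu hv _
          rw [← Sum.inr_injective hu, ← Sum.inr_injective hv]
          exact hc
        rcases key i j l hij hil hjl with h | h | h
        · exact C.valid (hadj i j hij h) (hi.trans hj.symm)
        · exact C.valid (hadj i l hil h) (hi.trans hl.symm)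
        · exact C.valid (hadj j l hjl h) (hj.trans hl.symm)
      rw [Finset.card_univ, Fintype.card_fin] at h1
      omega
    have hAB : ∀ t, Disjoint A (B t) := by
      intro t
      rw [Finset.disjoint_left]
      intro y hy hy'
      rw [Finset.mem_image] at hy hy'
      obtain ⟨i, _, hi⟩ := hy
      obtain ⟨j, _, hj⟩ := hy'
      refine C.valid (v := Sum.inl i) (w := Sum.inr (t, j)) ?_ (hi.trans hj.symm)
      refine ⟨by simp, ?_⟩
      intro u v hu
      exact absurd hu (by simp)
    have hBB : Disjoint (B 0) (B 1) := by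
      rw [Finset.disjoint_left]
      intro y hy hy'
      rw [Finset.mem_image] at hy hy'
      obtain ⟨i, _, hi⟩ := hy
      obtain ⟨j, _, hj⟩ := hy'
      refine C.valid (v := Sum.inr (0, i)) (w := Sum.inr (1, j)) ?_ (hi.trans hj.symm)
      refine ⟨by simp, ?_⟩
      intro u v hu hv huv
      rw [← Sum.inr_injective hu, ← Sum.inr_injective hv] at huv
      exact absurd huv (by simp)
    have hunion : (A ∪ (B 0 ∪ B 1)).card = A.card + ((B 0).card + (B 1).card) := by
      rw [Finset.card_union_of_disjoint, Finset.card_union_of_disjoint hBB]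
      rw [Finset.disjoint_union_right]
      exact ⟨hAB 0, hAB 1⟩
    have hle := Finset.card_le_univ (A ∪ (B 0 ∪ B 1))
    rw [hunion, hA, Fintype.card_fin] at hle
    have h0 := hB 0
    have h1 := hB 1
    omega
  · intro s hs
    -- each part contains few elements of a clique
    have hpart : ∀ t : Fin 2, (s.filter fun x => ∃ i, x = Sum.inr (t, i)).card ≤ 2 := by
      intro t
      by_contra hcon
      push Not at hcon
      rw [Finset.two_lt_card] at hcon
      obtain ⟨x, hx, y, hy, z, hz, hxy, hxz, hyz⟩ := hcon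
      rw [Finset.mem_filter] at hx hy hz
      obtain ⟨hxs, i, rfl⟩ := hx
      obtain ⟨hys, j, rfl⟩ := hy
      obtain ⟨hzs, l, rfl⟩ := hz
      have key : ∀ i j l : Fin 5, c5 i j = true → c5 i l = true → c5 j l = true → False := by
        decide
      exact key i j l ((hs.1 hxs hys hxy).2 _ _ rfl rfl rfl) ((hs.1 hxs hzs hxz).2 _ _ rfl rfl rfl)
        ((hs.1 hys hzs hyz).2 _ _ rfl rfl rfl)
    have hleft : (s.filter fun x => ∃ i, x = Sum.inl i).card ≤ a := by
      have : (s.filter fun x => ∃ i, x = Sum.inl i) ⊆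
          (Finset.univ : Finset (Fin a)).image (Sum.inl : Fin a → Fin a ⊕ (Fin 2 × Fin 5)) := by
        intro x hx
        rw [Finset.mem_filter] at hx
        obtain ⟨_, i, rfl⟩ := hx
        exact Finset.mem_image_of_mem _ (Finset.mem_univ _)
      refine (Finset.card_le_card this).trans ?_
      refine Finset.card_image_le.trans ?_
      rw [Finset.card_univ, Fintype.card_fin]
    have hcover : s ⊆ (s.filter fun x => ∃ i, x = Sum.inl i) ∪
        ((s.filter fun x => ∃ i, x = Sum.inr ((0 : Fin 2), i)) ∪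
          (s.filter fun x => ∃ i, x = Sum.inr ((1 : Fin 2), i))) := by
      intro x hx
      rw [Finset.mem_union, Finset.mem_union, Finset.mem_filter, Finset.mem_filter,
        Finset.mem_filter]
      rcases x with i | ⟨t, i⟩
      · exact Or.inl ⟨hx, i, rfl⟩
      · have ht : ∀ t : Fin 2, t = 0 ∨ t = 1 := by decide
        rcases ht t with rfl | rfl
        · exact Or.inr (Or.inl ⟨hx, i, rfl⟩)
        · exact Or.inr (Or.inr ⟨hx, i, rfl⟩)
    have h1 := Finset.card_le_card hcover
    have h2 := Finset.card_union_le (s.filter fun x => ∃ i, x = Sum.inl i)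
      ((s.filter fun x => ∃ i, x = Sum.inr ((0 : Fin 2), i)) ∪
          (s.filter fun x => ∃ i, x = Sum.inr ((1 : Fin 2), i)))
    have h3 := Finset.card_union_le (s.filter fun x => ∃ i, x = Sum.inr ((0 : Fin 2), i))
      (s.filter fun x => ∃ i, x = Sum.inr ((1 : Fin 2), i))
    have h4 := hpart 0
    have h5 := hpart 1
    have h6 := hs.2
    omega
  · intro v
    have hsub : (joinGraph a).neighborSet v ⊆
        ((Finset.univ.erase v : Finset (Fin a ⊕ (Fin 2 × Fin 5))) : Set _) := by
      intro x hx
      rw [Finset.mem_coe, Finset.mem_erase]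
      exact ⟨(hx : (joinGraph a).Adj v x).1.symm, Finset.mem_univ _⟩
    have hcard := Set.ncard_le_ncard hsub (Set.toFinite _)
    rw [Set.ncard_coe_finset, Finset.card_erase_of_mem (Finset.mem_univ _), Finset.card_univ,
      Fintype.card_sum, Fintype.card_prod, Fintype.card_fin, Fintype.card_fin,
      Fintype.card_fin] at hcard
    omega

/-- The circulant graph on `Fin n` with connection set given by the table `t`. -/
def circ (n : ℕ) [NeZero n] (t : Fin n → Bool) : SimpleGraph (Fin n) where
  Adj x y := x ≠ y ∧ (t (x - y) = true ∨ t (y - x) = true)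
  symm := ⟨fun _ _ h => ⟨h.1.symm, h.2.symm⟩⟩
  loopless := ⟨fun _ h => h.1 rfl⟩

instance (n : ℕ) [NeZero n] (t : Fin n → Bool) : DecidableRel (circ n t).Adj := fun x y =>
  inferInstanceAs (Decidable (x ≠ y ∧ (t (x - y) = true ∨ t (y - x) = true)))

lemma cliqueFree_five {V : Type} (G : SimpleGraph V)
    (h : ∀ a b, G.Adj a b → ∀ c, G.Adj a c → G.Adj b c → ∀ d, G.Adj a d → G.Adj b d → G.Adj c d →
      ∀ e, G.Adj a e → G.Adj b e → G.Adj c e → ¬ G.Adj d e) : G.CliqueFree 5 := by
  by_contra hcon
  rw [not_cliqueFree_iff_top_isContained] at hcon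
  obtain ⟨φ⟩ := hcon
  have hadj : ∀ i j : Fin 5, i ≠ j → G.Adj (φ.toHom i) (φ.toHom j) := fun i j hij =>
    φ.toHom.map_adj (by rw [top_adj]; exact hij)
  exact h (φ.toHom 0) (φ.toHom 1) (hadj _ _ (by decide))
    (φ.toHom 2) (hadj _ _ (by decide)) (hadj _ _ (by decide))
    (φ.toHom 3) (hadj _ _ (by decide)) (hadj _ _ (by decide)) (hadj _ _ (by decide))
    (φ.toHom 4) (hadj _ _ (by decide)) (hadj _ _ (by decide)) (hadj _ _ (by decide))
    (hadj _ _ (by decide))

end Pool.Agent.H63R3.MaxDeg
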