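import Mathlib
import Pool.Agent.H171R2.RupCore

/-!
# A graph on eight vertices with niche number three: semantics of the certificate
-/

set_option autoImplicit false

namespace Pool.Agent.H63R3.Niche

open Pool.Agent.H171R2.Rup

/-- the edges of the graph -/
def E : List (ℕ × ℕ) :=
  [(1, 2), (0, 3), (1, 4), (0, 5), (4, 5), (1, 6), (2, 6), (3, 6), (5, 6), (0, 7), (2, 7), (3, 7),
    (4, 7)]

def memE : List (ℕ × ℕ) → ℕ → ℕ → Bool
  | [], _, _ => false
  | p :: ps, i, j => (Nat.beq p.1 i && Nat.beq p.2 j) || memE ps i j

/-- adjacency test -/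
def adjB (i j : ℕ) : Bool := memE E i j || memE E j i

/-- what a digraph with the right niche graph satisfies; `A` are the arcs, `O` is the strict order
generated by the arcs -/
structure Model where
  A : ℕ → ℕ → Prop
  O : ℕ → ℕ → Prop
  ao : ∀ x y, A x y → O x y
  ir : ∀ x, ¬ O x x
  tr : ∀ x y z, O x y → O y z → O x z
  np : ∀ x y a, x ≠ y → adjB x y = false → A x a → A y a → False
  nq : ∀ x y a, x ≠ y → adjB x y = false → A a x → A a y → False
  cov : ∀ p ∈ E, ∃ a, a < 10 ∧ ((A p.1 a ∧ A p.2 a) ∨ (A a p.1 ∧ A a p.2))

def e1 (i : ℕ) : ℕ := (E.getD i (0, 0)).1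
def e2 (i : ℕ) : ℕ := (E.getD i (0, 0)).2

def vA (x y : ℕ) : ℕ := 16 * x + y
def vO (x y : ℕ) : ℕ := 256 + (16 * x + y)
def vP (e a : ℕ) : ℕ := 512 + (16 * e + a)
def vQ (e b : ℕ) : ℕ := 768 + (16 * e + b)

variable (M : Model)

def val (v : ℕ) : Prop :=
  if v < 256 then M.A (v / 16) (v % 16)
  else if v < 512 then M.O ((v - 256) / 16) ((v - 256) % 16)
  else if v < 768 then M.A (e1 ((v - 512) / 16)) ((v - 512) % 16) ∧
    M.A (e2 ((v - 512) / 16)) ((v - 512) % 16)
  else M.A ((v - 768) % 16) (e1 ((v - 768) / 16)) ∧ M.A ((v - 768) % 16) (e2 ((v - 768) / 16))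

theorem val_A {x y : ℕ} (hx : x < 16) (hy : y < 16) : val M (vA x y) ↔ M.A x y := by
  unfold val vA
  rw [if_pos (by omega), show (16 * x + y) / 16 = x by omega, show (16 * x + y) % 16 = y by omega]

theorem val_O {x y : ℕ} (hx : x < 16) (hy : y < 16) : val M (vO x y) ↔ M.O x y := by
  unfold val vO
  rw [if_neg (by omega), if_pos (by omega), show (256 + (16 * x + y) - 256) / 16 = x by omega,
    show (256 + (16 * x + y) - 256) % 16 = y by omega]

theorem val_P {e a : ℕ} (he : e < 16) (ha : a < 16) :
    val M (vP e a) ↔ M.A (e1 e) a ∧ M.A (e2 e) a := by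
  unfold val vP
  rw [if_neg (by omega), if_neg (by omega), if_pos (by omega),
    show (512 + (16 * e + a) - 512) / 16 = e by omega,
    show (512 + (16 * e + a) - 512) % 16 = a by omega]

theorem val_Q {e b : ℕ} (_he : e < 16) (hb : b < 16) :
    val M (vQ e b) ↔ M.A b (e1 e) ∧ M.A b (e2 e) := by
  unfold val vQ
  rw [if_neg (by omega), if_neg (by omega), if_neg (by omega),
    show (768 + (16 * e + b) - 768) / 16 = e by omega,
    show (768 + (16 * e + b) - 768) % 16 = b by omega]

inductive Ax where
  | ao (x y : ℕ)
  | ir (x : ℕ)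
  | tr (x y z : ℕ)
  | np (x y a : ℕ)
  | nq (x y a : ℕ)
  | cov (i : ℕ)
  | p1 (i a : ℕ)
  | p2 (i a : ℕ)
  | q1 (i a : ℕ)
  | q2 (i a : ℕ)

def lt10 (i : ℕ) : Bool := Nat.blt i 10

theorem lt10_iff {i : ℕ} (h : lt10 i = true) : i < 10 := by
  rwa [lt10, Nat.blt_eq] at h

def lt13 (i : ℕ) : Bool := Nat.blt i 13

theorem lt13_iff {i : ℕ} (h : lt13 i = true) : i < 13 := by
  rwa [lt13, Nat.blt_eq] at h

/-- list of the numbers below ten other than `x`, `y` -/
def oth (x y : ℕ) : List ℕ → List ℕ
  | [] => []
  | a :: l => match Nat.beq a x || Nat.beq a y with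
    | true => oth x y l
    | false => a :: oth x y l

theorem mem_oth {x y a : ℕ} (h1 : a ≠ x) (h2 : a ≠ y) : ∀ l : List ℕ, a ∈ l → a ∈ oth x y l := by
  intro l
  induction l with
  | nil => simp
  | cons b l ih =>
    intro h
    rw [oth]
    rcases List.mem_cons.1 h with h | h
    · subst h
      have : (Nat.beq a x || Nat.beq a y) = false := by
        rw [Bool.or_eq_false_iff]
        constructor
        · rw [Bool.eq_false_iff, ne_eq, Nat.beq_eq]; exact h1
        · rw [Bool.eq_false_iff, ne_eq, Nat.beq_eq]; exact h2
      rw [this]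
      simp
    · split
      · exact ih h
      · exact List.mem_cons_of_mem _ (ih h)

def ten : List ℕ := [0, 1, 2, 3, 4, 5, 6, 7, 8, 9]

def mapP (f : ℕ → ℕ) : List ℕ → List ℕ
  | [] => []
  | a :: l => f a :: mapP f l

theorem mem_mapP (f : ℕ → ℕ) {a : ℕ} : ∀ l : List ℕ, a ∈ l → f a ∈ mapP f l := by
  intro l
  induction l with
  | nil => simp
  | cons b l ih =>
    intro h
    rw [mapP]
    rcases List.mem_cons.1 h with h | h
    · subst h; simp
    · exact List.mem_cons_of_mem _ (ih h)

/-- the clause of an axiom; `(1,1)` (as a tautology) if the side conditions fail -/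
def axM : Ax → ℕ × ℕ
  | .ao x y => match lt10 x && lt10 y with
    | true => (mask [vO x y], mask [vA x y])
    | false => (1, 1)
  | .ir x => match lt10 x with
    | true => (0, mask [vO x x])
    | false => (1, 1)
  | .tr x y z => match lt10 x && lt10 y && lt10 z with
    | true => (mask [vO x z], mask [vO x y, vO y z])
    | false => (1, 1)
  | .np x y a => match lt10 x && lt10 y && lt10 a && !(Nat.beq x y) && !(adjB x y) with
    | true => (0, mask [vA x a, vA y a])
    | false => (1, 1)
  | .nq x y a => match lt10 x && lt10 y && lt10 a && !(Nat.beq x y) && !(adjB x y) with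
    | true => (0, mask [vA a x, vA a y])
    | false => (1, 1)
  | .cov i => match lt13 i with
    | true => (Nat.lor (mask (mapP (vP i) (oth (e1 i) (e2 i) ten)))
        (mask (mapP (vQ i) (oth (e1 i) (e2 i) ten))), 0)
    | false => (1, 1)
  | .p1 i a => match lt13 i && lt10 a with
    | true => (mask [vA (e1 i) a], mask [vP i a])
    | false => (1, 1)
  | .p2 i a => match lt13 i && lt10 a with
    | true => (mask [vA (e2 i) a], mask [vP i a])
    | false => (1, 1)
  | .q1 i a => match lt13 i && lt10 a with
    | true => (mask [vA a (e1 i)], mask [vQ i a])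
    | false => (1, 1)
  | .q2 i a => match lt13 i && lt10 a with
    | true => (mask [vA a (e2 i)], mask [vQ i a])
    | false => (1, 1)

theorem testBit_mask {v : ℕ} : ∀ {l : List ℕ}, v ∈ l → (mask l).testBit v = true := by
  intro l
  induction l with
  | nil => simp
  | cons b l ih =>
    intro h
    have e : mask (b :: l) = (Nat.shiftLeft 1 b) ||| mask l := rfl
    rw [e, Nat.testBit_lor, Bool.or_eq_true]
    rcases List.mem_cons.1 h with h | h
    · left
      subst h
      rw [testBit_shl1]
      simp
    · exact Or.inr (ih h)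

theorem valid_of_imp (c : ℕ × ℕ) (h : (∀ v, c.2.testBit v = true → val M v) →
    ∃ v, c.1.testBit v = true ∧ val M v) : Valid (val M) c := by
  by_cases hc : ∀ v, c.2.testBit v = true → val M v
  · obtain ⟨v, hv⟩ := h hc
    exact ⟨v, Or.inl hv⟩
  · push Not at hc
    obtain ⟨v, hv⟩ := hc
    exact ⟨v, Or.inr hv⟩

theorem e1_lt : ∀ i < 13, e1 i < 10 := by decide
theorem e2_lt : ∀ i < 13, e2 i < 10 := by decide
theorem e_mem : ∀ i < 13, (e1 i, e2 i) ∈ E := by decide

theorem bne {x y : ℕ} (h : (!(Nat.beq x y)) = true) : x ≠ y := by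
  rintro rfl
  simp at h

theorem ax_valid (a : Ax) : Valid (val M) (axM a) := by
  cases a with
  | ao x y =>
    simp only [axM]
    split
    · rename_i h
      simp only [Bool.and_eq_true] at h
      have hx := lt10_iff h.1
      have hy := lt10_iff h.2
      apply valid_of_imp
      intro hv
      have h1 := hv (vA x y) (testBit_mask (by simp))
      rw [val_A M (by omega) (by omega)] at h1
      exact ⟨vO x y, testBit_mask (by simp), (val_O M (by omega) (by omega)).2 (M.ao _ _ h1)⟩
    · exact valid_taut _
  | ir x =>
    simp only [axM]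
    split
    · rename_i h
      have hx := lt10_iff h
      apply valid_of_imp
      intro hv
      have h1 := hv (vO x x) (testBit_mask (by simp))
      rw [val_O M (by omega) (by omega)] at h1
      exact absurd h1 (M.ir _)
    · exact valid_taut _
  | tr x y z =>
    simp only [axM]
    split
    · rename_i h
      simp only [Bool.and_eq_true] at h
      have hx := lt10_iff h.1.1
      have hy := lt10_iff h.1.2
      have hz := lt10_iff h.2
      apply valid_of_imp
      intro hv
      have h1 := hv (vO x y) (testBit_mask (by simp))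
      have h2 := hv (vO y z) (testBit_mask (by simp))
      rw [val_O M (by omega) (by omega)] at h1 h2
      exact ⟨vO x z, testBit_mask (by simp), (val_O M (by omega) (by omega)).2 (M.tr _ _ _ h1 h2)⟩
    · exact valid_taut _
  | np x y a =>
    simp only [axM]
    split
    · rename_i h
      simp only [Bool.and_eq_true] at h
      obtain ⟨⟨⟨⟨hx, hy⟩, ha⟩, hxy⟩, hadj⟩ := h
      have hx := lt10_iff hx
      have hy := lt10_iff hy
      have ha := lt10_iff ha
      apply valid_of_imp
      intro hv
      have h1 := hv (vA x a) (testBit_mask (by simp))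
      have h2 := hv (vA y a) (testBit_mask (by simp))
      rw [val_A M (by omega) (by omega)] at h1 h2
      exact (M.np x y a (bne hxy) (by simpa using hadj) h1 h2).elim
    · exact valid_taut _
  | nq x y a =>
    simp only [axM]
    split
    · rename_i h
      simp only [Bool.and_eq_true] at h
      obtain ⟨⟨⟨⟨hx, hy⟩, ha⟩, hxy⟩, hadj⟩ := h
      have hx := lt10_iff hx
      have hy := lt10_iff hy
      have ha := lt10_iff ha
      apply valid_of_imp
      intro hv
      have h1 := hv (vA a x) (testBit_mask (by simp))
      have h2 := hv (vA a y) (testBit_mask (by simp))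
      rw [val_A M (by omega) (by omega)] at h1 h2
      exact (M.nq x y a (bne hxy) (by simpa using hadj) h1 h2).elim
    · exact valid_taut _
  | cov i =>
    simp only [axM]
    split
    · rename_i h
      have hi := lt13_iff h
      apply valid_of_imp
      intro _
      obtain ⟨a, ha, hc⟩ := M.cov _ (e_mem i hi)
      have h1 := e1_lt i hi
      have h2 := e2_lt i hi
      have hten : a ∈ ten := by
        unfold ten
        simp only [List.mem_cons, List.not_mem_nil, or_false]
        omega
      have ha1 : a ≠ e1 i := by
        rintro rfl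
        rcases hc with hc | hc
        · exact M.ir _ (M.ao _ _ hc.1)
        · exact M.ir _ (M.ao _ _ hc.1)
      have ha2 : a ≠ e2 i := by
        rintro rfl
        rcases hc with hc | hc
        · exact M.ir _ (M.ao _ _ hc.2)
        · exact M.ir _ (M.ao _ _ hc.2)
      have hoth := mem_oth ha1 ha2 ten hten
      rcases hc with hc | hc
      · refine ⟨vP i a, ?_, (val_P M (by omega) (by omega)).2 hc⟩
        change ((mask _ ||| mask _).testBit _) = true
        rw [Nat.testBit_lor, Bool.or_eq_true]
        exact Or.inl (testBit_mask (mem_mapP _ _ hoth))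
      · refine ⟨vQ i a, ?_, (val_Q M (by omega) (by omega)).2 hc⟩
        change ((mask _ ||| mask _).testBit _) = true
        rw [Nat.testBit_lor, Bool.or_eq_true]
        exact Or.inr (testBit_mask (mem_mapP _ _ hoth))
    · exact valid_taut _
  | p1 i a =>
    simp only [axM]
    split
    · rename_i h
      simp only [Bool.and_eq_true] at h
      have hi := lt13_iff h.1
      have ha := lt10_iff h.2
      have h1 := e1_lt i hi
      apply valid_of_imp
      intro hv
      have h3 := hv (vP i a) (testBit_mask (by simp))
      rw [val_P M (by omega) (by omega)] at h3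
      exact ⟨_, testBit_mask (List.mem_singleton.2 rfl), (val_A M (by omega) (by omega)).2 h3.1⟩
    · exact valid_taut _
  | p2 i a =>
    simp only [axM]
    split
    · rename_i h
      simp only [Bool.and_eq_true] at h
      have hi := lt13_iff h.1
      have ha := lt10_iff h.2
      have h1 := e2_lt i hi
      apply valid_of_imp
      intro hv
      have h3 := hv (vP i a) (testBit_mask (by simp))
      rw [val_P M (by omega) (by omega)] at h3
      exact ⟨_, testBit_mask (List.mem_singleton.2 rfl), (val_A M (by omega) (by omega)).2 h3.2⟩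
    · exact valid_taut _
  | q1 i a =>
    simp only [axM]
    split
    · rename_i h
      simp only [Bool.and_eq_true] at h
      have hi := lt13_iff h.1
      have ha := lt10_iff h.2
      have h1 := e1_lt i hi
      apply valid_of_imp
      intro hv
      have h3 := hv (vQ i a) (testBit_mask (by simp))
      rw [val_Q M (by omega) (by omega)] at h3
      exact ⟨_, testBit_mask (List.mem_singleton.2 rfl), (val_A M (by omega) (by omega)).2 h3.1⟩
    · exact valid_taut _
  | q2 i a =>
    simp only [axM]
    split
    · rename_i h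
      simp only [Bool.and_eq_true] at h
      have hi := lt13_iff h.1
      have ha := lt10_iff h.2
      have h1 := e2_lt i hi
      apply valid_of_imp
      intro hv
      have h3 := hv (vQ i a) (testBit_mask (by simp))
      rw [val_Q M (by omega) (by omega)] at h3
      exact ⟨_, testBit_mask (List.mem_singleton.2 rfl), (val_A M (by omega) (by omega)).2 h3.2⟩
    · exact valid_taut _

/-- store the axiom clauses in the tree -/
def build : Tr → ℕ → List Ax → Tr
  | t, _, [] => t
  | t, k, a :: l => build (t.ins k (axM a).1 (axM a).2) (k + 1) l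

theorem build_valid : ∀ (l : List Ax) (t : Tr) (k : ℕ), (∀ i, Valid (val M) (t.get i)) →
    ∀ i, Valid (val M) ((build t k l).get i) := by
  intro l
  induction l with
  | nil => intro t k h; exact h
  | cons a l ih =>
    intro t k h
    rw [build]
    exact ih _ _ (Tr.get_ins_valid _ _ _ (ax_valid M a) t k h)

def check (ax : List Ax) (n : ℕ) (st : List (List ℕ × List ℕ × List ℕ)) : Bool :=
  run (build .nil 0 ax) n st

theorem check_sound (ax : List Ax) (n : ℕ) (st : List (List ℕ × List ℕ × List ℕ))
    (h : check ax n st = true) (M : Model) : False := by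
  refine run_sound (val M) st _ n ?_ h
  apply build_valid
  intro i
  exact valid_taut _

end Pool.Agent.H63R3.Niche
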