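import Mathlib
import Pool.Agent.H171R2.RupCore

/-!
# Checking reverse unit propagation proofs against a static clause table

The clause table is a literal tree containing the axiom clauses and all learned clauses; the
hints of a step are packed in base `4096` into one number and may only refer to smaller indices.
The checks can be cut into independent pieces.
-/

set_option autoImplicit false

namespace Pool.Agent.H63R3.Rup

open Pool.Agent.H171R2.Rup

/-- unit propagation along packed hints; `fp`: variables known false, `fn`: variables known true -/
def rupN (t : Tr) (lo : ℕ) : ℕ → ℕ → ℕ → ℕ → Bool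
  | 0, _, _, _ => false
  | f + 1, code, fp, fn =>
    let h := Nat.mod code 4096
    match Nat.blt h lo with
    | false => false
    | true =>
      let c := t.get h
      let rp := Nat.xor c.1 (Nat.land c.1 fp)
      let rn := Nat.xor c.2 (Nat.land c.2 fn)
      match Nat.beq rp 0, Nat.beq rn 0 with
      | true, true => true
      | true, false =>
        match Nat.beq (Nat.land rn (Nat.sub rn 1)) 0 with
        | true => rupN t lo f (Nat.div code 4096) (Nat.lor fp rn) fn
        | false => false
      | false, true =>
        match Nat.beq (Nat.land rp (Nat.sub rp 1)) 0 with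
        | true => rupN t lo f (Nat.div code 4096) fp (Nat.lor fn rp)
        | false => false
      | false, false => false

theorem unique_bit_aux {x u v : ℕ} (h : Nat.land x (Nat.sub x 1) = 0) (hu : x.testBit u = true)
    (hv : x.testBit v = true) (huv : u < v) : False := by
  have h1 : (x - 1).testBit v = true := by
    rw [Nat.testBit_eq_decide_div_mod_eq] at hu hv ⊢
    have hu' := of_decide_eq_true hu
    have hv' := of_decide_eq_true hv
    have hlt : 2 ^ u < 2 ^ v := Nat.pow_lt_pow_right (by norm_num) huv
    have hpos : 0 < x % 2 ^ v := by
      by_contra hcon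
      have h0 : x % 2 ^ v = 0 := by omega
      obtain ⟨q, hq⟩ := Nat.dvd_of_mod_eq_zero h0
      obtain ⟨d, hd⟩ := Nat.exists_eq_add_of_lt huv
      have e : 2 ^ v = 2 ^ u * (2 * 2 ^ d) := by
        rw [hd]; ring
      rw [hq, e, Nat.mul_assoc, Nat.mul_div_cancel_left _ (by positivity), Nat.mul_assoc,
        Nat.mul_mod_right] at hu'
      omega
    have e2 : (x - 1) / 2 ^ v = x / 2 ^ v := by
      have hx := Nat.div_add_mod x (2 ^ v)
      have hm := Nat.mod_lt x (show 0 < 2 ^ v by positivity)
      have : x - 1 = 2 ^ v * (x / 2 ^ v) + (x % 2 ^ v - 1) := by omega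
      rw [this, Nat.mul_add_div (by positivity), Nat.div_eq_of_lt (a := x % 2 ^ v - 1) (by omega)]
      simp
    rw [e2]
    exact hv
  have h2 : (x &&& (x - 1)) = 0 := h
  have h3 : (x &&& (x - 1)).testBit v = true := by
    rw [Nat.testBit_and, hv, h1]; rfl
  rw [h2] at h3
  simp at h3

theorem unique_bit {x u v : ℕ} (h : Nat.land x (Nat.sub x 1) = 0) (hu : x.testBit u = true)
    (hv : x.testBit v = true) : u = v := by
  rcases lt_trichotomy u v with h1 | h1 | h1
  · exact (unique_bit_aux h hu hv h1).elim
  · exact h1
  · exact (unique_bit_aux h hv hu h1).elim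

theorem rupN_sound (val : ℕ → Prop) (t : Tr) (lo : ℕ) (ht : ∀ i < lo, Valid val (t.get i)) :
    ∀ (f code fp fn : ℕ), rupN t lo f code fp fn = true →
      (∀ v, fp.testBit v = true → ¬ val v) → (∀ v, fn.testBit v = true → val v) → False := by
  intro f
  induction f with
  | zero => intro code fp fn h; simp [rupN] at h
  | succ f ih =>
    intro code fp fn hr hp hn
    rw [rupN] at hr
    generalize Nat.mod code 4096 = h at *
    cases hlo : Nat.blt h lo with
    | false => simp only [hlo, Bool.false_eq_true] at hr
    | true =>
    simp only [hlo] at hr
    have hlo' : h < lo := by rwa [Nat.blt_eq] at hlo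
    obtain ⟨v, hv⟩ := ht h hlo'
    generalize hc : t.get h = c at *
    -- v is in the residual
    have hres : ((Nat.xor c.1 (Nat.land c.1 fp)).testBit v = true ∧ val v) ∨
        ((Nat.xor c.2 (Nat.land c.2 fn)).testBit v = true ∧ ¬ val v) := by
      rcases hv with ⟨h1, h2⟩ | ⟨h1, h2⟩
      · left
        refine ⟨?_, h2⟩
        rw [testBit_diff, h1]
        cases hf : fp.testBit v with
        | false => rfl
        | true => exact absurd h2 (hp v hf)
      · right
        refine ⟨?_, h2⟩
        rw [testBit_diff, h1]
        cases hf : fn.testBit v with
        | false => rfl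
        | true => exact absurd (hn v hf) h2
    generalize Nat.xor c.1 (Nat.land c.1 fp) = rp at *
    generalize Nat.xor c.2 (Nat.land c.2 fn) = rn at *
    cases hb1 : Nat.beq rp 0 with
    | true =>
      have e1 : rp = 0 := Nat.eq_of_beq_eq_true hb1
      cases hb2 : Nat.beq rn 0 with
      | true =>
        have e2 : rn = 0 := Nat.eq_of_beq_eq_true hb2
        rw [e1, e2] at hres
        simp at hres
      | false =>
        simp only [hb1, hb2] at hr
        cases hb3 : Nat.beq (Nat.land rn (Nat.sub rn 1)) 0 with
        | false => simp only [hb3, Bool.false_eq_true] at hr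
        | true =>
          simp only [hb3] at hr
          have e3 := Nat.eq_of_beq_eq_true hb3
          have hnv : ¬ val v ∧ rn.testBit v = true := by
            rcases hres with ⟨h1, h2⟩ | ⟨h1, h2⟩
            · rw [e1] at h1; simp at h1
            · exact ⟨h2, h1⟩
          refine ih _ _ _ hr ?_ hn
          intro u hu
          have hu' : (fp ||| rn).testBit u = true := hu
          rw [Nat.testBit_lor, Bool.or_eq_true] at hu'
          rcases hu' with hu' | hu'
          · exact hp u hu'
          · have : u = v := unique_bit e3 hu' hnv.2
            rw [this]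
            exact hnv.1
    | false =>
      cases hb2 : Nat.beq rn 0 with
      | false => simp [hb1, hb2] at hr
      | true =>
        have e2 : rn = 0 := Nat.eq_of_beq_eq_true hb2
        simp only [hb1, hb2] at hr
        cases hb3 : Nat.beq (Nat.land rp (Nat.sub rp 1)) 0 with
        | false => simp only [hb3, Bool.false_eq_true] at hr
        | true =>
          simp only [hb3] at hr
          have e3 := Nat.eq_of_beq_eq_true hb3
          have hnv : val v ∧ rp.testBit v = true := by
            rcases hres with ⟨h1, h2⟩ | ⟨h1, h2⟩
            · exact ⟨h2, h1⟩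
            · rw [e2] at h1; simp at h1
          refine ih _ _ _ hr hp ?_
          intro u hu
          have hu' : (fn ||| rp).testBit u = true := hu
          rw [Nat.testBit_lor, Bool.or_eq_true] at hu'
          rcases hu' with hu' | hu'
          · exact hn u hu'
          · have : u = v := unique_bit e3 hu' hnv.2
            rw [this]
            exact hnv.1

/-- check that the clauses `lo, lo + 1, …` of the table follow from the previous ones -/
def chk (t : Tr) : ℕ → List ℕ → Bool
  | _, [] => true
  | lo, code :: rest =>
    match rupN t lo 4096 code (t.get lo).1 (t.get lo).2 with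
    | false => false
    | true => chk t (Nat.succ lo) rest

theorem chk_sound (val : ℕ → Prop) (t : Tr) :
    ∀ (l : List ℕ) (lo : ℕ), chk t lo l = true → (∀ i < lo, Valid val (t.get i)) →
      ∀ i < lo + l.length, Valid val (t.get i) := by
  intro l
  induction l with
  | nil => intro lo _ h; simpa using h
  | cons code rest ih =>
    intro lo h hv i hi
    rw [chk] at h
    cases hr : rupN t lo 4096 code (t.get lo).1 (t.get lo).2 with
    | false => simp [hr] at h
    | true =>
      simp only [hr] at h
      refine ih (Nat.succ lo) h ?_ i (by simp only [List.length_cons] at hi; omega)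
      intro j hj
      rcases Nat.lt_succ_iff_lt_or_eq.1 hj with hj | hj
      · exact hv j hj
      · subst hj
        by_contra hcon
        refine rupN_sound val t j hv _ _ _ _ hr ?_ ?_
        · intro v hv1 hval
          exact hcon ⟨v, Or.inl ⟨hv1, hval⟩⟩
        · intro v hv1
          by_contra hval
          exact hcon ⟨v, Or.inr ⟨hv1, hval⟩⟩

end Pool.Agent.H63R3.Rup
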