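import Pool.Agent.H63R3.NicheSem
import Pool.Agent.H63R3.RupStatic

/-!
# Comparing the beginning of the clause table with the axiom clauses
-/

set_option autoImplicit false

namespace Pool.Agent.H63R3.Niche

open Pool.Agent.H171R2.Rup Pool.Agent.H63R3.Rup

/-- the entries `lo, lo + 1, …` of the table are the clauses of the given axioms -/
def chkAx (t : Tr) : ℕ → List Ax → Bool
  | _, [] => true
  | lo, a :: rest =>
    match Nat.beq (t.get lo).1 (axM a).1, Nat.beq (t.get lo).2 (axM a).2 with
    | true, true => chkAx t (Nat.succ lo) rest
    | _, _ => false

theorem chkAx_sound (M : Model) (t : Tr) :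
    ∀ (l : List Ax) (lo : ℕ), chkAx t lo l = true → (∀ i < lo, Valid (val M) (t.get i)) →
      ∀ i < lo + l.length, Valid (val M) (t.get i) := by
  intro l
  induction l with
  | nil => intro lo _ h; simpa using h
  | cons a rest ih =>
    intro lo h hv i hi
    rw [chkAx] at h
    cases h1 : Nat.beq (t.get lo).1 (axM a).1 with
    | false => simp [h1] at h
    | true =>
      cases h2 : Nat.beq (t.get lo).2 (axM a).2 with
      | false => simp [h1, h2] at h
      | true =>
        simp only [h1, h2] at h
        refine ih (Nat.succ lo) h ?_ i (by simp only [List.length_cons] at hi; omega)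
        intro j hj
        rcases Nat.lt_succ_iff_lt_or_eq.1 hj with hj | hj
        · exact hv j hj
        · subst hj
          have e1 := Nat.eq_of_beq_eq_true h1
          have e2 := Nat.eq_of_beq_eq_true h2
          have : t.get j = axM a := Prod.ext e1 e2
          rw [this]
          exact ax_valid M a

end Pool.Agent.H63R3.Niche
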