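import Mathlib

/-!
Clique counts in `F`-free graphs with `m` edges, for `F` of treewidth at most two.
-/

open Filter Asymptotics SimpleGraph

namespace Pool.Agent.H63R3.PTT

/-- The number of `s`-element vertex sets of `G` spanning a clique. -/
noncomputable def numCliques (s : ℕ) {V : Type*} (G : SimpleGraph V) : ℕ :=
  {S : Finset V | G.IsNClique s S}.ncard

/-- `mex_{K_s}(m, F)`: the largest number of copies of `K_s` in a finite `F`-free graph with
exactly `m` edges (the number of vertices is not restricted). -/
noncomputable def mex (s m : ℕ) {W : Type*} (F : SimpleGraph W) : ℕ :=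
  sSup {c | ∃ (V : Type) (_ : Finite V) (G : SimpleGraph V),
    F.Free G ∧ G.edgeSet.ncard = m ∧ numCliques s G = c}

/-- `F` is a partial 2-tree, i.e. a graph of treewidth at most two: after enumerating the vertices
as `0, 1, …, n - 1` (by `e`) and possibly adding edges (giving `T`), the neighbours of each vertex
of number at least two among the vertices of smaller number are contained in some edge of `T` whose
ends have smaller number. -/
def IsPartialTwoTree {W : Type*} (F : SimpleGraph W) : Prop :=
  ∃ (n : ℕ) (e : W ≃ Fin n) (T : SimpleGraph W), F ≤ T ∧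
    ∀ i : W, 2 ≤ (e i : ℕ) → ∃ j k : W, e j < e i ∧ e k < e i ∧ T.Adj j k ∧
      ∀ l : W, e l < e i → T.Adj l i → l = j ∨ l = k

/-- Greedy embedding of a partial 2-tree in a graph in which every edge is in many triangles. -/
lemma embed {W V : Type*} [Finite V] {F : SimpleGraph W} (hF : IsPartialTwoTree F)
    (G : SimpleGraph V) {u v : V} (huv : G.Adj u v)
    (hG : ∀ x y, G.Adj x y → Nat.card W ≤ {z | G.Adj x z ∧ G.Adj y z}.ncard) :
    F.IsContained G := by
  classical
  obtain ⟨n, e, T, hFT, hT⟩ := hF
  have hn : Nat.card W = n := by rw [Nat.card_congr e, Nat.card_fin]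
  rw [hn] at hG
  let T' : ℕ → ℕ → Prop := fun x y => ∃ a b : W, (e a : ℕ) = x ∧ (e b : ℕ) = y ∧ T.Adj a b
  have key : ∀ i, 2 ≤ i → i ≤ max n 2 → ∃ f : ℕ → V,
      (∀ x y, x < i → y < i → f x = f y → x = y) ∧
      (∀ x y, x < y → y < i → T' x y → G.Adj (f x) (f y)) := by
    intro i hi
    induction i, hi using Nat.le_induction with
    | base =>
      intro _
      refine ⟨fun x => if x = 0 then u else v, ?_, ?_⟩
      · intro x y hx hy hxy
        have hne := huv.ne
        by_cases h1 : x = 0 <;> by_cases h2 : y = 0
        · omega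
        · simp only [h1, h2, if_true, if_false] at hxy
          exact absurd hxy hne
        · simp only [h1, h2, if_true, if_false] at hxy
          exact absurd hxy.symm hne
        · omega
      · intro x y hxy hy _
        have h1 : x = 0 := by omega
        have h2 : y ≠ 0 := by omega
        simp only [h1, h2, if_true, if_false]
        exact huv
    | succ i hi ih =>
      intro hle
      have hin : i < n := by omega
      obtain ⟨f, hf1, hf2⟩ := ih (by omega)
      obtain ⟨j, k, hj, hk, hjk, hl⟩ := hT (e.symm ⟨i, hin⟩) (by simpa using hi)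
      simp only [Equiv.apply_symm_apply] at hj hk hl
      have hj' : (e j : ℕ) < i := hj
      have hk' : (e k : ℕ) < i := hk
      have hadj : G.Adj (f (e j)) (f (e k)) := by
        have hne : (e j : ℕ) ≠ e k := by
          intro h
          exact hjk.ne (e.injective (Fin.ext h))
        rcases lt_or_gt_of_ne hne with h | h
        · exact hf2 _ _ h hk' ⟨j, k, rfl, rfl, hjk⟩
        · exact (hf2 _ _ h hj' ⟨k, j, rfl, rfl, hjk.symm⟩).symm
      have hcard := hG _ _ hadj
      have hex : ∃ w, (G.Adj (f (e j)) w ∧ G.Adj (f (e k)) w) ∧ ∀ x < i, f x ≠ w := by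
        by_contra hcon
        push Not at hcon
        have hsub : {z | G.Adj (f (e j)) z ∧ G.Adj (f (e k)) z} ⊆
            ((Finset.range i).image f : Finset V) := by
          intro z hz
          obtain ⟨x, hx, hxz⟩ := hcon z hz
          rw [Finset.mem_coe, Finset.mem_image]
          exact ⟨x, Finset.mem_range.2 hx, hxz⟩
        have h1 := Set.ncard_le_ncard hsub (Set.toFinite _)
        rw [Set.ncard_coe_finset] at h1
        have h2 := Finset.card_image_le (s := Finset.range i) (f := f)
        rw [Finset.card_range] at h2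
        omega
      obtain ⟨w, ⟨hw1, hw2⟩, hw3⟩ := hex
      refine ⟨Function.update f i w, ?_, ?_⟩
      · intro x y hx hy hxy
        by_cases h1 : x = i <;> by_cases h2 : y = i
        · omega
        · subst h1
          rw [Function.update_self, Function.update_of_ne h2] at hxy
          exact absurd hxy.symm (hw3 y (by omega))
        · subst h2
          rw [Function.update_self, Function.update_of_ne h1] at hxy
          exact absurd hxy (hw3 x (by omega))
        · rw [Function.update_of_ne h1, Function.update_of_ne h2] at hxy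
          exact hf1 x y (by omega) (by omega) hxy
      · intro x y hxy hy hT'
        have h1 : x ≠ i := by omega
        by_cases h2 : y = i
        · subst h2
          rw [Function.update_self, Function.update_of_ne h1]
          obtain ⟨a, b, ha, hb, hab⟩ := hT'
          have hb' : b = e.symm ⟨y, hin⟩ := by
            rw [Equiv.eq_symm_apply]
            exact Fin.ext hb
          subst hb'
          have ha' : e a < ⟨y, hin⟩ := by
            rw [Fin.lt_def, ha]
            exact hxy
          rcases hl a ha' hab with h | h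
          · rw [← ha, h]; exact hw1
          · rw [← ha, h]; exact hw2
        · rw [Function.update_of_ne h1, Function.update_of_ne h2]
          exact hf2 x y hxy (by omega) hT'
  obtain ⟨f, hf1, hf2⟩ := key (max n 2) (le_max_right _ _) le_rfl
  have hlt : ∀ a : W, (e a : ℕ) < max n 2 := fun a => lt_of_lt_of_le (e a).2 (le_max_left _ _)
  refine ⟨⟨⟨fun a => f (e a), ?_⟩, ?_⟩⟩
  · intro a b hab
    have hne : (e a : ℕ) ≠ e b := by
      intro h
      exact hab.ne (e.injective (Fin.ext h))
    rcases lt_or_gt_of_ne hne with h | h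
    · exact hf2 _ _ h (hlt b) ⟨a, b, rfl, rfl, hFT hab⟩
    · exact (hf2 _ _ h (hlt a) ⟨b, a, rfl, rfl, hFT hab.symm⟩).symm
  · intro a b hab
    exact e.injective (Fin.ext (hf1 _ _ (hlt a) (hlt b) hab))

lemma numCliques_eq {V : Type*} [Fintype V] [DecidableEq V] (s : ℕ) (G : SimpleGraph V)
    [DecidableRel G.Adj] : numCliques s G = (G.cliqueFinset s).card := by
  rw [numCliques, ← Set.ncard_coe_finset, coe_cliqueFinset]
  rfl

/-- If every nonempty subgraph of `G` has an edge in fewer than `D` triangles, then `G` has at most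
`2 ^ D` times as many `s`-cliques as edges, for each `s ≥ 2`. -/
lemma count {V : Type*} [Finite V] (s D : ℕ) (hs : 2 ≤ s) : ∀ (m : ℕ) (G : SimpleGraph V),
    G.edgeSet.ncard = m →
    (∀ H ≤ G, H ≠ ⊥ → ∃ x y, H.Adj x y ∧ {z | H.Adj x z ∧ H.Adj y z}.ncard < D) →
    numCliques s G ≤ 2 ^ D * m := by
  classical
  have := Fintype.ofFinite V
  intro m
  induction m with
  | zero =>
    intro G hm _
    have h0 : G.edgeSet = ∅ := (Set.ncard_eq_zero (Set.toFinite _)).1 hm
    have h1 : G = ⊥ := by
      rwa [edgeSet_eq_empty] at h0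
    subst h1
    rw [numCliques]
    have : {S : Finset V | (⊥ : SimpleGraph V).IsNClique s S} = ∅ := by
      exact cliqueSet_bot (n := s) (by omega)
    rw [this]
    simp
  | succ m ih =>
    intro G hm hG
    have hne : G ≠ ⊥ := by
      rintro rfl
      simp at hm
    obtain ⟨x, y, hxy, hlt⟩ := hG G le_rfl hne
    set H := G.deleteEdges {s(x, y)} with hH
    have hHG : H ≤ G := deleteEdges_le _
    have hHe : H.edgeSet.ncard = m := by
      rw [hH, edgeSet_deleteEdges]
      have h1 : s(x, y) ∈ G.edgeSet := hxy
      rw [Set.ncard_sdiff_singleton_of_mem h1, hm]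
      rfl
    have hrec := ih H hHe (fun K hK hK0 => hG K (hK.trans hHG) hK0)
    -- cliques of `G` containing the edge
    set N := {z | G.Adj x z ∧ G.Adj y z} with hN
    have hNcard : N.ncard = (N.toFinset).card := Set.ncard_eq_toFinset_card' N
    have hsub : {S : Finset V | G.IsNClique s S} ⊆
        {S : Finset V | H.IsNClique s S} ∪
          ((N.toFinset.powerset.image fun A => insert x (insert y A) : Finset (Finset V)) :
            Set (Finset V)) := by
      intro S hS
      by_cases hxS : x ∈ S ∧ y ∈ S
      · right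
        rw [Finset.mem_coe, Finset.mem_image]
        refine ⟨(S.erase x).erase y, ?_, ?_⟩
        · rw [Finset.mem_powerset]
          intro z hz
          rw [Finset.mem_erase, Finset.mem_erase] at hz
          rw [Set.mem_toFinset]
          exact ⟨hS.1 hxS.1 hz.2.2 (Ne.symm hz.2.1), hS.1 hxS.2 hz.2.2 (Ne.symm hz.1)⟩
        · rw [Finset.insert_erase, Finset.insert_erase hxS.1]
          rw [Finset.mem_erase]
          exact ⟨hxy.ne.symm, hxS.2⟩
      · left
        refine ⟨?_, hS.2⟩
        intro a ha b hb hab
        rw [hH, deleteEdges_adj]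
        refine ⟨hS.1 ha hb hab, ?_⟩
        intro h
        rw [Set.mem_singleton_iff, Sym2.eq_iff] at h
        rcases h with ⟨rfl, rfl⟩ | ⟨rfl, rfl⟩
        · exact hxS ⟨ha, hb⟩
        · exact hxS ⟨hb, ha⟩
    have h1 : numCliques s G ≤ numCliques s H + 2 ^ D := by
      calc numCliques s G ≤ ({S : Finset V | H.IsNClique s S} ∪
          ((N.toFinset.powerset.image fun A => insert x (insert y A) : Finset (Finset V)) :
            Set (Finset V))).ncard := Set.ncard_le_ncard hsub (Set.toFinite _)
        _ ≤ _ := Set.ncard_union_le _ _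
        _ ≤ numCliques s H + 2 ^ D := by
          apply Nat.add_le_add le_rfl
          rw [Set.ncard_coe_finset]
          refine Finset.card_image_le.trans ?_
          rw [Finset.card_powerset]
          apply Nat.pow_le_pow_right (by norm_num)
          omega
    calc numCliques s G ≤ numCliques s H + 2 ^ D := h1
      _ ≤ 2 ^ D * m + 2 ^ D := Nat.add_le_add hrec le_rfl
      _ = 2 ^ D * (m + 1) := by ring

/-- Upper bound. -/
lemma upper {W V : Type*} [Finite V] {F : SimpleGraph W} (hF : IsPartialTwoTree F) {s : ℕ}
    (hs : 2 ≤ s) (G : SimpleGraph V) (hG : F.Free G) :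
    numCliques s G ≤ 2 ^ Nat.card W * G.edgeSet.ncard := by
  refine count s (Nat.card W) hs _ G rfl ?_
  intro H hH hH0
  by_contra hcon
  push Not at hcon
  have hex : ∃ u v, H.Adj u v := by
    by_contra h
    push Not at h
    apply hH0
    ext a b
    simp [h a b]
  obtain ⟨u, v, huv⟩ := hex
  exact hG ((embed hF H huv hcon).mono_right hH)

/-- The disjoint union of `m` copies of `K_s`. -/
def blocks (m s : ℕ) : SimpleGraph (Fin m × Fin s) where
  Adj x y := x.1 = y.1 ∧ x.2 ≠ y.2
  symm := ⟨fun _ _ h => ⟨h.1.symm, h.2.symm⟩⟩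
  loopless := ⟨fun _ h => h.2 rfl⟩

lemma blocks_free {W : Type*} [Finite W] {F : SimpleGraph W} (hF : F.Connected) {s : ℕ}
    (hs : s < Nat.card W) (m : ℕ) : F.Free (blocks m s) := by
  rintro ⟨φ⟩
  have h1 : ∀ a b, F.Reachable a b → (φ.toHom a).1 = (φ.toHom b).1 := by
    rintro a b ⟨p⟩
    induction p with
    | nil => rfl
    | cons h p ih => exact (φ.toHom.map_adj h).1.trans ih
  have hinj : Function.Injective (fun a => (φ.toHom a).2) := by
    intro a b hab
    apply φ.injective'
    exact Prod.ext (h1 a b (hF.preconnected a b)) hab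
  have h2 := Nat.card_le_card_of_injective _ hinj
  rw [Nat.card_fin] at h2
  omega

/-- Lower bound. -/
lemma lower {W : Type*} [Finite W] {F : SimpleGraph W} (hF : F.Connected) {s : ℕ} (hs2 : 2 ≤ s)
    (hs : s < Nat.card W) (m : ℕ) : ∃ (V : Type) (_ : Finite V) (G : SimpleGraph V),
      F.Free G ∧ G.edgeSet.ncard = m ∧ m / s.choose 2 ≤ numCliques s G := by
  classical
  set c := s.choose 2 with hc
  have hcpos : 0 < c := Nat.choose_pos hs2
  set q := m / c with hq
  have hqm : q * c ≤ m := Nat.div_mul_le_self m c
  have hqle : q ≤ m := Nat.div_le_self m c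
  -- the edges of the first `q` blocks
  let A : Finset (Sym2 (Fin m × Fin s)) :=
    (((Finset.univ : Finset (Fin m)).filter fun i : Fin m => (i : ℕ) < q) ×ˢ
      (⊤ : SimpleGraph (Fin s)).edgeFinset).image fun p => p.2.map fun a => (p.1, a)
  have hAcard : A.card ≤ m := by
    refine Finset.card_image_le.trans ?_
    rw [Finset.card_product, card_edgeFinset_top_eq_card_choose_two, Fintype.card_fin]
    have : ((Finset.univ : Finset (Fin m)).filter fun i : Fin m => (i : ℕ) < q).card ≤ q := by
      have h := Finset.card_le_card_of_injOn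
        (s := (Finset.univ : Finset (Fin m)).filter fun i : Fin m => (i : ℕ) < q)
        (t := Finset.range q) (fun i : Fin m => (i : ℕ))
        (fun i hi => by simpa using hi)
        (fun i _ j _ hij => Fin.ext hij)
      rwa [Finset.card_range] at h
    exact (Nat.mul_le_mul_right _ this).trans hqm
  have hAsub : A ⊆ (blocks m s).edgeFinset := by
    intro z hz
    rw [Finset.mem_image] at hz
    obtain ⟨⟨i, w⟩, hiw, rfl⟩ := hz
    rw [Finset.mem_product] at hiw
    have hw : w ∈ (⊤ : SimpleGraph (Fin s)).edgeFinset := hiw.2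
    induction w using Sym2.ind with
    | _ a b =>
      rw [mem_edgeFinset, mem_edgeSet, top_adj] at hw
      simp only [Sym2.map_mk]
      rw [mem_edgeFinset, mem_edgeSet]
      exact ⟨rfl, hw⟩
  have hBcard : m ≤ (blocks m s).edgeFinset.card := by
    have h := Finset.card_le_card_of_injOn (s := (Finset.univ : Finset (Fin m)))
      (t := (blocks m s).edgeFinset)
      (fun i => s(((i, ⟨0, by omega⟩) : Fin m × Fin s), ((i, ⟨1, by omega⟩) : Fin m × Fin s)))
      (fun i _ => by
        rw [Finset.mem_coe, mem_edgeFinset, mem_edgeSet]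
        refine ⟨rfl, ?_⟩
        simp)
      (fun i _ j _ hij => by
        simp only [Sym2.eq_iff, Prod.mk.injEq] at hij
        rcases hij with h | h
        · exact h.1.1
        · exact h.1.1)
    simpa using h
  obtain ⟨E, hAE, hEB, hE⟩ := Finset.exists_subsuperset_card_eq hAsub hAcard hBcard
  let G : SimpleGraph (Fin m × Fin s) := fromEdgeSet (E : Set (Sym2 (Fin m × Fin s)))
  have hGB : G ≤ blocks m s := by
    intro a b hab
    rw [fromEdgeSet_adj] at hab
    have := hEB (Finset.mem_coe.1 hab.1)
    rwa [mem_edgeFinset, mem_edgeSet] at this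
  have hGE : G.edgeSet = (E : Set (Sym2 (Fin m × Fin s))) := by
    rw [edgeSet_fromEdgeSet]
    ext z
    simp only [Set.mem_sdiff, Finset.mem_coe]
    refine ⟨fun h => h.1, fun h => ⟨h, ?_⟩⟩
    have := hEB h
    rw [mem_edgeFinset] at this
    exact fun hd => (blocks m s).not_isDiag_of_mem_edgeSet this hd
  refine ⟨Fin m × Fin s, inferInstance, G, ?_, ?_, ?_⟩
  · intro h
    exact blocks_free hF hs m (h.mono_right hGB)
  · rw [hGE, Set.ncard_coe_finset, hE]
  · have hinj := Set.ncard_le_ncard_of_injOn
      (s := (((Finset.univ : Finset (Fin m)).filter fun i : Fin m => (i : ℕ) < q : Finset (Fin m)) :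
        Set (Fin m)))
      (t := {S : Finset (Fin m × Fin s) | G.IsNClique s S})
      (fun i => (Finset.univ : Finset (Fin s)).image fun a => (i, a)) ?_ ?_ (Set.toFinite _)
    · rw [Set.ncard_coe_finset] at hinj
      refine le_trans ?_ hinj
      have h := Finset.card_le_card_of_injOn (s := (Finset.univ : Finset (Fin q)))
        (t := (Finset.univ : Finset (Fin m)).filter fun i : Fin m => (i : ℕ) < q)
        (fun i => Fin.castLE hqle i)
        (fun i _ => by simp)
        (fun i _ j _ hij => by simpa using hij)
      simpa using h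
    · intro i hi
      rw [Finset.mem_coe, Finset.mem_filter] at hi
      refine ⟨?_, ?_⟩
      · intro x hx y hy hxy
        rw [Finset.mem_coe, Finset.mem_image] at hx hy
        obtain ⟨a, _, rfl⟩ := hx
        obtain ⟨b, _, rfl⟩ := hy
        have hab : a ≠ b := fun h => hxy (by rw [h])
        rw [← mem_edgeSet, hGE, Finset.mem_coe]
        apply hAE
        rw [Finset.mem_image]
        refine ⟨(i, s(a, b)), ?_, rfl⟩
        rw [Finset.mem_product]
        refine ⟨by simpa using hi.2, ?_⟩
        rw [mem_edgeFinset, mem_edgeSet, top_adj]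
        exact hab
      · rw [Finset.card_image_of_injective]
        · simp
        · intro a b hab
          exact (Prod.mk.inj hab).2
    · intro i hi j hj hij
      have h0 : (i, (⟨0, by omega⟩ : Fin s)) ∈
          (Finset.univ : Finset (Fin s)).image fun a => (j, a) := by
        have hij' : ((Finset.univ : Finset (Fin s)).image fun a => (i, a)) =
            (Finset.univ : Finset (Fin s)).image fun a => (j, a) := hij
        rw [← hij']
        exact Finset.mem_image_of_mem _ (Finset.mem_univ _)
      rw [Finset.mem_image] at h0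
      obtain ⟨a, _, ha⟩ := h0
      exact (Prod.mk.inj ha).1.symm

/-- If `F` has at most `s` vertices, an `F`-free graph has no `K_s`. -/
lemma numCliques_eq_zero {W V : Type*} [Finite W] [Finite V] {F : SimpleGraph W} {s : ℕ}
    (hs : Nat.card W ≤ s) (G : SimpleGraph V) (hG : F.Free G) : numCliques s G = 0 := by
  classical
  rw [numCliques, Set.ncard_eq_zero (Set.toFinite _), Set.eq_empty_iff_forall_notMem]
  intro S hS
  apply hG
  have := Fintype.ofFinite W
  have hcard : Fintype.card W ≤ Fintype.card S := by
    rw [Fintype.card_coe, hS.2, ← Nat.card_eq_fintype_card]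
    exact hs
  obtain ⟨g⟩ := Function.Embedding.nonempty_of_card_le hcard
  refine ⟨⟨⟨fun a => (g a : V), ?_⟩, ?_⟩⟩
  · intro a b hab
    exact hS.1 (g a).2 (g b).2 (fun h => hab.ne (g.injective (Subtype.ext h)))
  · intro a b hab
    exact g.injective (Subtype.ext hab)

lemma mex_eq_zero {W : Type*} [Finite W] (F : SimpleGraph W) {s : ℕ} (hs : Nat.card W ≤ s)
    (m : ℕ) : mex s m F = 0 := by
  refine Nat.le_zero.1 (csSup_le' ?_)
  rintro c ⟨V, hV, G, hG, _, rfl⟩
  exact (numCliques_eq_zero hs G hG).le

lemma mex_theta {W : Type*} [Finite W] {F : SimpleGraph W} (hF : IsPartialTwoTree F)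
    (hFc : F.Connected) {s : ℕ} (hs2 : 2 ≤ s) (hs : s < Nat.card W) :
    (fun m : ℕ => (mex s m F : ℝ)) =Θ[atTop] (fun m : ℕ => (m : ℝ)) := by
  have hbdd : ∀ m, 2 ^ Nat.card W * m ∈ upperBounds {c | ∃ (V : Type) (_ : Finite V)
      (G : SimpleGraph V), F.Free G ∧ G.edgeSet.ncard = m ∧ numCliques s G = c} := by
    intro m
    rintro c ⟨V, hV, G, hG, hm, rfl⟩
    rw [← hm]
    exact upper hF hs2 G hG
  have hup : ∀ m, mex s m F ≤ 2 ^ Nat.card W * m := fun m => csSup_le' (hbdd m)
  have hlow : ∀ m, m / s.choose 2 ≤ mex s m F := by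
    intro m
    obtain ⟨V, hV, G, hG, hm, hle⟩ := lower hFc hs2 hs m
    refine hle.trans (le_csSup ⟨_, hbdd m⟩ ⟨V, hV, G, hG, hm, rfl⟩)
  refine ⟨?_, ?_⟩
  · refine IsBigO.of_bound ((2 : ℝ) ^ Nat.card W) (Eventually.of_forall fun m => ?_)
    rw [Real.norm_natCast, Real.norm_natCast]
    exact_mod_cast hup m
  · refine IsBigO.of_bound (2 * (s.choose 2 : ℝ))
      (eventually_atTop.2 ⟨2 * s.choose 2, fun m hm => ?_⟩)
    rw [Real.norm_natCast, Real.norm_natCast]
    have hcpos : 0 < s.choose 2 := Nat.choose_pos hs2
    have h1 := hlow m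
    have h2 : m < s.choose 2 * (m / s.choose 2) + s.choose 2 := by
      have := Nat.lt_mul_div_succ m hcpos
      rwa [Nat.mul_succ] at this
    have h3 : s.choose 2 * (m / s.choose 2) ≤ s.choose 2 * mex s m F := Nat.mul_le_mul_left _ h1
    have h4 : m ≤ 2 * (s.choose 2 * mex s m F) := by omega
    have h5 : (m : ℝ) ≤ 2 * (s.choose 2 * mex s m F) := by exact_mod_cast h4
    linarith

end Pool.Agent.H63R3.PTT
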